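import Mathlib

set_option autoImplicit false

/-!
Linearly independent rows are completed by coordinate rows to an invertible matrix.
-/

namespace Pool.Agent.H39v

theorem ext_basis {K : Type*} [Field K] {M n : ℕ} {κ : Type*} [Fintype κ]
    (a : Fin M → (Fin M ⊕ Fin n) → K) (f : κ → (Fin M ⊕ Fin n) → K)
    (h : LinearIndependent K (Sum.elim a f)) :
    ∃ e : Fin n → κ ⊕ (Fin M ⊕ Fin n), (∀ i, ∃ l, e l = Sum.inl i) ∧
      (Matrix.of (Sum.elim a (fun l => Sum.elim f (fun s => Pi.single s (1 : K)) (e l)))).det ≠ 0 := by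
  classical
  set g : Fin M ⊕ (κ ⊕ (Fin M ⊕ Fin n)) → ((Fin M ⊕ Fin n) → K) := Sum.elim a (Sum.elim f (fun s => Pi.single s (1 : K))) with hg
  set j : Fin M ⊕ κ → Fin M ⊕ (κ ⊕ (Fin M ⊕ Fin n)) := Sum.map id Sum.inl with hj
  have hji : Function.Injective j := by
    intro x y hxy
    rcases x with x | x <;> rcases y with y | y <;> simp [hj] at hxy <;> simp [hxy]
  have hgj : g ∘ j = Sum.elim a f := by
    funext x
    rcases x with x | x <;> simp [hg, hj]
  have hs : LinearIndepOn K g (Set.range j) := by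
    rw [linearIndepOn_range_iff hji, hgj]
    exact h
  obtain ⟨b, -, hsb, hspan, hb⟩ := exists_linearIndepOn_extension hs (Set.subset_univ _)
  have hb' : LinearIndependent K (fun x : b => g x) := hb
  have htop : ⊤ ≤ Submodule.span K (Set.range fun x : b => g x) := by
    have h1 : Set.range (fun x : b => g x) = g '' b := by
      rw [Set.image_eq_range]
    rw [h1, ← Pi.basisFun K (Fin M ⊕ Fin n) |>.span_eq]
    rw [Submodule.span_le]
    rintro _ ⟨s, rfl⟩
    apply hspan
    refine ⟨Sum.inr (Sum.inr s), Set.mem_univ _, ?_⟩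
    simp [hg, Pi.basisFun_apply]
  have hcard : Fintype.card b = M + n := by
    have h1 := Module.finrank_eq_card_basis (Module.Basis.mk hb' htop)
    rw [Module.finrank_fintype_fun_eq_card] at h1
    rw [← h1]
    simp
  set b' : Set (κ ⊕ (Fin M ⊕ Fin n)) := {y | Sum.inr y ∈ b} with hb'def
  have hmem : ∀ m : Fin M, (Sum.inl m : Fin M ⊕ (κ ⊕ (Fin M ⊕ Fin n))) ∈ b := fun m => hsb ⟨Sum.inl m, rfl⟩
  set E : Fin M ⊕ b' → b := Sum.elim (fun m => ⟨Sum.inl m, hmem m⟩) (fun y => ⟨Sum.inr y.1, y.2⟩) with hE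
  have hEb : Function.Bijective E := by
    constructor
    · intro x y hxy
      rcases x with x | x <;> rcases y with y | y <;>
        simp only [hE, Sum.elim_inl, Sum.elim_inr, Subtype.mk.injEq, Sum.inl.injEq, Sum.inr.injEq,
          reduceCtorEq] at hxy
      · rw [hxy]
      · rw [Subtype.ext hxy]
    · rintro ⟨x, hx⟩
      rcases x with x | x
      · exact ⟨Sum.inl x, rfl⟩
      · exact ⟨Sum.inr ⟨x, hx⟩, rfl⟩
  have hcard' : Fintype.card b' = n := by
    have h1 := Fintype.card_congr (Equiv.ofBijective E hEb)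
    rw [hcard, Fintype.card_sum, Fintype.card_fin] at h1
    omega
  set e0 : Fin n ≃ b' := (Fintype.equivFinOfCardEq hcard').symm with he0
  refine ⟨fun l => (e0 l).1, fun i => ?_, ?_⟩
  · have h1 : (Sum.inl i : κ ⊕ (Fin M ⊕ Fin n)) ∈ b' := hsb ⟨Sum.inr i, rfl⟩
    exact ⟨e0.symm ⟨_, h1⟩, by simp⟩
  · set ψ : (Fin M ⊕ Fin n) → b := fun x => E (Sum.map id e0 x) with hψ
    have hψi : Function.Injective ψ := by
      apply hEb.1.comp
      exact Function.Injective.sumMap Function.injective_id e0.injective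
    have h2 : LinearIndependent K (fun x : (Fin M ⊕ Fin n) => g (ψ x)) := hb'.comp ψ hψi
    have h3 : (fun x : (Fin M ⊕ Fin n) => g (ψ x)) = (Matrix.of (Sum.elim a (fun l =>
        Sum.elim f (fun s => Pi.single s (1 : K)) (e0 l).1)) : Matrix (Fin M ⊕ Fin n) (Fin M ⊕ Fin n) K).row := by
      funext x
      rcases x with x | x
      · rfl
      · rfl
    rw [h3] at h2
    rw [Matrix.linearIndependent_rows_iff_isUnit] at h2
    rw [← isUnit_iff_ne_zero, ← Matrix.isUnit_iff_isUnit_det]
    exact h2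

end Pool.Agent.H39v
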