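import Pool.Agent.H39v.Null
import Pool.Agent.H39v.Basis

set_option autoImplicit false

/-!
Bihomogeneous polynomials.
-/

namespace Pool.Agent.H39v

open MvPolynomial

/-- `P(x, y)` is homogeneous of degree `a` in `x` and homogeneous of degree `b` in `y` -/
def IsBihom {n m : ℕ} (P : MvPolynomial (Fin n ⊕ Fin m) ℤ) (a b : ℕ) : Prop :=
  P.IsWeightedHomogeneous (Sum.elim (fun _ => 1) (fun _ => 0) : Fin n ⊕ Fin m → ℕ) a ∧
    P.IsWeightedHomogeneous (Sum.elim (fun _ => 0) (fun _ => 1) : Fin n ⊕ Fin m → ℕ) b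

variable {n m : ℕ}

lemma IsBihom.deg {P : MvPolynomial (Fin n ⊕ Fin m) ℤ} {a b : ℕ} (h : IsBihom P a b)
    {d : Fin n ⊕ Fin m →₀ ℕ} (hd : coeff d P ≠ 0) :
    ∑ i, d (Sum.inl i) = a ∧ ∑ j, d (Sum.inr j) = b := by
  have h1 := h.1 hd
  have h2 := h.2 hd
  rw [Finsupp.weight_apply, Finsupp.sum_fintype _ _ (by simp)] at h1 h2
  rw [Fintype.sum_sum_type] at h1 h2
  constructor
  · simpa using h1
  · simpa using h2

lemma IsBihom.eval_smul {P : MvPolynomial (Fin n ⊕ Fin m) ℤ} {a b : ℕ} (h : IsBihom P a b)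
    {R : Type*} [CommRing R] (x : Fin n → R) (y : Fin m → R) (l k : R) :
    aeval (Sum.elim (fun i => l * x i) (fun j => k * y j)) P =
      l ^ a * k ^ b * aeval (Sum.elim x y) P := by
  rw [aeval_def, eval₂_eq', aeval_def, eval₂_eq', Finset.mul_sum]
  refine Finset.sum_congr rfl fun d hd => ?_
  obtain ⟨h1, h2⟩ := h.deg (mem_support_iff.1 hd)
  rw [Fintype.prod_sum_type, Fintype.prod_sum_type]
  simp only [Sum.elim_inl, Sum.elim_inr, mul_pow, Finset.prod_mul_distrib]
  rw [Finset.prod_pow_eq_pow_sum, Finset.prod_pow_eq_pow_sum, h1, h2]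
  ring

/-- Euler's identity in the second variables -/
lemma IsBihom.euler {P : MvPolynomial (Fin n ⊕ Fin m) ℤ} {a b : ℕ} (h : IsBihom P a b) :
    ∑ j, X (Sum.inr j) * pderiv (Sum.inr j) P = b • P := by
  have h1 := h.2.sum_weight_X_mul_pderiv
  rw [Fintype.sum_sum_type] at h1
  simpa using h1

lemma IsBihom.euler_eval {P : MvPolynomial (Fin n ⊕ Fin m) ℤ} {a b : ℕ} (h : IsBihom P a b)
    {R : Type*} [CommRing R] (z : Fin n ⊕ Fin m → R) :
    ∑ j, z (Sum.inr j) * aeval z (pderiv (Sum.inr j) P) = b * aeval z P := by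
  have h1 := congrArg (aeval z) h.euler
  rw [map_sum] at h1
  simp only [map_mul, aeval_X, nsmul_eq_mul, map_natCast] at h1
  exact h1

lemma IsBihom.pd_inr {P : MvPolynomial (Fin n ⊕ Fin m) ℤ} {a b : ℕ} (h : IsBihom P a b)
    (j : Fin m) : IsBihom (pderiv (Sum.inr j) P) a (b - 1) := by
  constructor
  · exact h.1.pderiv (by simp)
  · rcases b with _ | b
    · have h2 : pderiv (Sum.inr j) P = 0 := by
        rw [pderiv_eq_zero_of_notMem_vars]
        intro hj
        obtain ⟨d, hd, hdj⟩ := (mem_vars_iff_mem_support _).1 hj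
        have h3 := (h.deg (mem_support_iff.1 hd)).2
        rw [Finset.sum_eq_zero_iff] at h3
        exact (Finsupp.mem_support_iff.1 hdj) (h3 j (Finset.mem_univ _))
      rw [h2]
      exact isWeightedHomogeneous_zero _ _ _
    · exact h.2.pderiv (by simp)

lemma IsBihom.pd_inl {P : MvPolynomial (Fin n ⊕ Fin m) ℤ} {a b : ℕ} (h : IsBihom P a b)
    (i : Fin n) : IsBihom (pderiv (Sum.inl i) P) (a - 1) b := by
  constructor
  · rcases a with _ | a
    · have h2 : pderiv (Sum.inl i) P = 0 := by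
        rw [pderiv_eq_zero_of_notMem_vars]
        intro hj
        obtain ⟨d, hd, hdj⟩ := (mem_vars_iff_mem_support _).1 hj
        have h3 := (h.deg (mem_support_iff.1 hd)).1
        rw [Finset.sum_eq_zero_iff] at h3
        exact (Finsupp.mem_support_iff.1 hdj) (h3 i (Finset.mem_univ _))
      rw [h2]
      exact isWeightedHomogeneous_zero _ _ _
    · exact h.1.pderiv (by simp)
  · exact h.2.pderiv (by simp)

/-- chain rule -/
lemma pd_comp {σ : Type*} [Fintype σ] {τ : Type*} (f : σ → MvPolynomial τ ℤ) (i : τ)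
    (P : MvPolynomial σ ℤ) :
    pderiv i (aeval f P) = ∑ s, aeval f (pderiv s P) * pderiv i (f s) := by
  classical
  induction P using MvPolynomial.induction_on with
  | C a => simp
  | add p q hp hq =>
    rw [map_add, map_add, hp, hq, ← Finset.sum_add_distrib]
    refine Finset.sum_congr rfl fun s _ => ?_
    rw [map_add, map_add, add_mul]
  | mul_X p s hp =>
    rw [map_mul, aeval_X, pderiv_mul, hp]
    have h1 : ∀ t, aeval f (pderiv t (p * X s)) * pderiv i (f t) =
        aeval f (pderiv t p) * f s * pderiv i (f t) +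
          (if s = t then aeval f p * pderiv i (f t) else 0) := by
      intro t
      rw [pderiv_mul, pderiv_X, map_add, map_mul, map_mul, aeval_X, add_mul]
      congr 1
      by_cases h : s = t
      · subst h; simp
      · rw [if_neg h]
        simp [h]
    rw [Finset.sum_congr rfl fun t _ => h1 t, Finset.sum_add_distrib, Finset.sum_ite_eq,
      if_pos (Finset.mem_univ _), Finset.sum_mul]
    congr 1
    exact Finset.sum_congr rfl fun t _ => by ring

/-- derivative in the direction `w` -/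
noncomputable def dw {τ : Type*} [Fintype τ] {R : Type*} [CommRing R] (w x : τ → R)
    (f : MvPolynomial τ ℤ) : R := ∑ i, w i * aeval x (pderiv i f)

/-- Let `x`, `y` be such that `Ψ(x) = λ y`. For a bihomogeneous polynomial the derivative in
a tangent direction of the graph. -/
lemma tangent {P : MvPolynomial (Fin n ⊕ Fin m) ℤ} {a β : ℕ} (h : IsBihom P a β)
    (Ψ : Fin m → MvPolynomial (Fin n) ℤ) {K : Type*} [Field K] (x : Fin n → K) (y : Fin m → K)
    (b : Fin m) (hb : aeval x (Ψ b) ≠ 0) (hy : ∀ j, aeval x (Ψ j) = aeval x (Ψ b) * y j)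
    (i : Fin n) :
    aeval x (Ψ b) ^ β * (aeval (Sum.elim x y) (pderiv (Sum.inl i) P) +
      ∑ j, aeval (Sum.elim x y) (pderiv (Sum.inr j) P) *
        ((aeval x (pderiv i (Ψ j)) - y j * aeval x (pderiv i (Ψ b))) / aeval x (Ψ b))) =
    aeval x (pderiv i (aeval (Sum.elim X Ψ) P)) -
      β * (aeval x (pderiv i (Ψ b)) / aeval x (Ψ b)) * aeval x (aeval (Sum.elim X Ψ) P) := by
  classical
  set L := aeval x (Ψ b) with hL
  have hcomp : ∀ Q : MvPolynomial (Fin n ⊕ Fin m) ℤ, aeval x (aeval (Sum.elim X Ψ) Q) =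
      aeval (Sum.elim x (fun j => L * y j)) Q := by
    intro Q
    have h1 : (aeval x : MvPolynomial (Fin n) ℤ →ₐ[ℤ] K).comp (aeval (Sum.elim X Ψ)) =
        aeval (Sum.elim x (fun j => L * y j)) := by
      apply algHom_ext
      intro s
      rcases s with s | s
      · simp
      · simp [hy]
    exact DFunLike.congr_fun h1 Q
  have hsc : ∀ (Q : MvPolynomial (Fin n ⊕ Fin m) ℤ) (a' b' : ℕ), IsBihom Q a' b' →
      aeval (Sum.elim x (fun j => L * y j)) Q = L ^ b' * aeval (Sum.elim x y) Q := by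
    intro Q a' b' hQ
    have h1 := hQ.eval_smul x y 1 L
    simpa using h1
  rw [pd_comp, map_sum, Fintype.sum_sum_type]
  simp only [Sum.elim_inl, Sum.elim_inr, map_mul]
  have h2 : ∑ s : Fin n, aeval x (aeval (Sum.elim X Ψ) (pderiv (Sum.inl s) P)) *
      aeval x (pderiv i (X s : MvPolynomial (Fin n) ℤ)) =
      L ^ β * aeval (Sum.elim x y) (pderiv (Sum.inl i) P) := by
    rw [Finset.sum_eq_single i]
    · rw [hcomp, hsc _ _ _ (h.pd_inl i)]
      simp
    · intro s _ hs
      rw [pderiv_X]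
      simp [hs]
    · intro hi; exact absurd (Finset.mem_univ _) hi
  rw [h2, hcomp, hsc _ _ _ h]
  have h3 := h.euler_eval (Sum.elim x y)
  simp only [Sum.elim_inr] at h3
  rcases β with _ | β
  · -- no dependence on `y`
    have h4 : ∀ j, pderiv (Sum.inr j) P = 0 := by
      intro j
      rw [pderiv_eq_zero_of_notMem_vars]
      intro hj
      obtain ⟨d, hd, hdj⟩ := (mem_vars_iff_mem_support _).1 hj
      have h3 := (h.deg (mem_support_iff.1 hd)).2
      rw [Finset.sum_eq_zero_iff] at h3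
      exact (Finsupp.mem_support_iff.1 hdj) (h3 j (Finset.mem_univ _))
    simp [h4]
  · have h5 : ∀ j, aeval x (aeval (Sum.elim X Ψ) (pderiv (Sum.inr j) P)) =
        L ^ β * aeval (Sum.elim x y) (pderiv (Sum.inr j) P) := by
      intro j
      rw [hcomp, hsc _ _ _ (h.pd_inr j)]
      simp
    simp_rw [h5]
    rw [mul_add, add_sub_assoc]
    congr 1
    have h6 : ((β + 1 : ℕ) : K) * (aeval x (pderiv i (Ψ b)) / L) *
        (L ^ (β + 1) * aeval (Sum.elim x y) P) = L ^ β * aeval x (pderiv i (Ψ b)) *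
        ∑ j, y j * aeval (Sum.elim x y) (pderiv (Sum.inr j) P) := by
      rw [h3, pow_succ]
      field_simp
    rw [h6, Finset.mul_sum, Finset.mul_sum, ← Finset.sum_sub_distrib]
    refine Finset.sum_congr rfl fun j _ => ?_
    rw [pow_succ]
    field_simp

end Pool.Agent.H39v
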