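import Pool.Agent.H39v.Fib

set_option autoImplicit false

/-!
Counting the exceptional points.
-/

namespace Pool.Agent.H39v

open MvPolynomial Finset

variable {N M g q w : ℕ}

/-- the point `x` (with `y ∼ Ψ(x)`) is exceptional -/
def Exc (Ψ : Fin (M + 1) → MvPolynomial (Fin (N + 1)) ℤ)
    (G : Fin g → MvPolynomial (Fin (N + 1) ⊕ Fin (M + 1)) ℤ) (aG bG : Fin g → ℕ)
    (F : Fin q → Fin w → MvPolynomial (Fin (N + 1) ⊕ Fin (M + 1)) ℤ) (aF bF : Fin q → Fin w → ℕ)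
    (C1 : ℝ) (S : Finset ℕ) (κ c : ℝ) (x : Fin (N + 1) → ℤ) : Prop :=
  ∃ (y : Fin (M + 1) → ℤ) (g0 gR : ℕ) (ρI : ℝ) (ρF : Fin q → ℝ) (ρP : ℕ → Fin q → ℝ),
    univ.gcd x = 1 ∧ univ.gcd y = 1 ∧ 0 < g0 ∧ 0 < gR ∧ (∀ j, eval x (Ψ j) = g0 * y j) ∧
    0 < ρI ∧ (∀ K b, |(minor G K b x y : ℝ)| ≤
      ρI * ((hgt x : ℝ) ^ (∑ m, aG (K m)) * (hgt y : ℝ) ^ (∑ m, (bG (K m) - 1)))) ∧
    (∀ K b, (gR : ℤ) ∣ minor G K b x y) ∧
    (∀ i, 0 < ρF i) ∧ (∀ i, ρF i ≤ C1) ∧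
    (∀ i j, |((eval (Sum.elim x y) (F i j) : ℤ) : ℝ)| ≤
      ρF i * ((hgt x : ℝ) ^ aF i j * (hgt y : ℝ) ^ bF i j)) ∧
    (∀ p ∈ S, ∀ i, 0 < ρP p i) ∧ (∀ p ∈ S, ∀ i, ρP p i ≤ 1) ∧
    (∀ p ∈ S, ∀ i j, (padicNorm p ((eval (Sum.elim x y) (F i j) : ℤ) : ℚ) : ℝ) ≤ ρP p i) ∧
    κ * Real.log (hgt x) - c ≤ ∑ i, -Real.log (ρF i) + ∑ p ∈ S, ∑ i, -Real.log (ρP p i) -
      Real.log ρI + Real.log gR

/-- the line through `x` in the direction `s` -/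
def xp (N s : ℕ) (x : Fin (N + 1) → ℤ) : Fin N → ℤ := fun j => x j.succ - dv N s j * x 0

lemma recon (s : ℕ) (x : Fin (N + 1) → ℤ) :
    (Fin.cons (x 0) (fun j => xp N s x j + dv N s j * x 0) : Fin (N + 1) → ℤ) = x := by
  funext i
  refine Fin.cases ?_ (fun j => ?_) i
  · simp
  · simp [xp]

lemma xp_le (s K0 n : ℕ) (hs : s < K0) (x : Fin (N + 1) → ℤ) (hx : ∀ i, |x i| ≤ n) (j : Fin N) :
    |xp N s x j| ≤ ((1 + K0 ^ N) * n : ℕ) := by
  unfold xp dv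
  have h1 : |(s : ℤ) ^ (j.val + 1)| ≤ (K0 : ℤ) ^ N := by
    rw [abs_of_nonneg (by positivity)]
    calc (s : ℤ) ^ (j.val + 1) ≤ (K0 : ℤ) ^ (j.val + 1) :=
          pow_le_pow_left₀ (by positivity) (by exact_mod_cast hs.le) _
      _ ≤ (K0 : ℤ) ^ N := pow_le_pow_right₀ (by exact_mod_cast (by omega : 1 ≤ K0)) (by omega)
  calc |x j.succ - (s : ℤ) ^ (j.val + 1) * x 0| ≤ |x j.succ| + |(s : ℤ) ^ (j.val + 1) * x 0| := abs_sub _ _
    _ = |x j.succ| + |(s : ℤ) ^ (j.val + 1)| * |x 0| := by rw [abs_mul]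
    _ ≤ n + (K0 : ℤ) ^ N * n := by
        apply add_le_add (hx _)
        exact mul_le_mul h1 (hx 0) (abs_nonneg _) (by positivity)
    _ = ((1 + K0 ^ N) * n : ℕ) := by push_cast; ring

lemma mem_box {m : ℕ} (n : ℕ) (x : Fin m → ℤ) (hx : ∀ i, |x i| ≤ n) :
    x ∈ Fintype.piFinset fun _ : Fin m => Finset.Icc (-(n : ℤ)) n := by
  rw [Fintype.mem_piFinset]
  intro i
  rw [mem_Icc]
  exact abs_le.1 (hx i)

/-- points on the hypersurfaces -/
lemma count_one {Φ : Type} [Fintype Φ] (f : Φ → MvPolynomial (Fin (N + 1)) ℤ) (n : ℕ)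
    (T : Finset (Fin (N + 1) → ℤ)) (hT : ∀ x ∈ T, (∀ i, |x i| ≤ n) ∧ ∃ φ, eval x (f φ) = 0 ∧ f φ ≠ 0) :
    (#T : ℝ) ≤ (∑ φ, ((f φ).totalDegree : ℝ)) * (2 * n + 1) ^ N := by
  classical
  set box := Fintype.piFinset fun _ : Fin (N + 1) => Finset.Icc (-(n : ℤ)) n with hbox
  set Z : Φ → Finset (Fin (N + 1) → ℤ) := fun φ => if f φ = 0 then ∅ else
    box.filter (fun x => eval x (f φ) = 0) with hZ
  have h1 : T ⊆ univ.biUnion Z := by
    intro x hx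
    obtain ⟨h2, φ, h3, h4⟩ := hT x hx
    rw [mem_biUnion]
    refine ⟨φ, mem_univ _, ?_⟩
    rw [hZ]
    simp only
    rw [if_neg h4, mem_filter]
    exact ⟨mem_box n x h2, h3⟩
  have h2 : ∀ φ, (#(Z φ) : ℝ) ≤ ((f φ).totalDegree : ℝ) * (2 * n + 1) ^ N := by
    intro φ
    rw [hZ]
    simp only
    split_ifs with h3
    · rw [card_empty, Nat.cast_zero]
      positivity
    · have h4 := Pool.Agent.H39b.zeros_box (f φ) h3 n
      have h5 : (0 : ℝ) < 2 * n + 1 := by positivity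
      rw [pow_succ, ← mul_assoc] at h4
      exact le_of_mul_le_mul_right h4 h5
  calc (#T : ℝ) ≤ ((∑ φ, #(Z φ) : ℕ) : ℝ) := by exact_mod_cast (card_le_card h1).trans card_biUnion_le
    _ = ∑ φ, (#(Z φ) : ℝ) := by push_cast; rfl
    _ ≤ ∑ φ, ((f φ).totalDegree : ℝ) * (2 * n + 1) ^ N := sum_le_sum fun φ _ => h2 φ
    _ = _ := by rw [sum_mul]

/-- points on exceptional lines -/
lemma count_two (K0 : ℕ) (R : Fin K0 → MvPolynomial (Fin N) ℤ) (hR : ∀ s, R s ≠ 0) (n : ℕ)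
    (T : Finset (Fin (N + 1) → ℤ)) (hT : ∀ x ∈ T, (∀ i, |x i| ≤ n) ∧ ∃ s : Fin K0, eval (xp N s x) (R s) = 0) :
    (#T : ℝ) ≤ (∑ s, ((R s).totalDegree : ℝ)) * (2 * ((1 + K0 ^ N) * n : ℕ) + 1) ^ N := by
  classical
  set n' : ℕ := (1 + K0 ^ N) * n with hn'
  have hnn' : n ≤ n' := by rw [hn']; nlinarith [Nat.zero_le (K0 ^ N)]
  set box := Fintype.piFinset fun _ : Fin N => Finset.Icc (-(n' : ℤ)) n' with hbox
  have h1 : T ⊆ univ.biUnion fun s : Fin K0 => T.filter (fun x => eval (xp N s x) (R s) = 0) := by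
    intro x hx
    obtain ⟨_, s, h3⟩ := hT x hx
    rw [mem_biUnion]
    exact ⟨s, mem_univ _, mem_filter.2 ⟨hx, h3⟩⟩
  have h2 : ∀ s : Fin K0, (#(T.filter (fun x => eval (xp N s x) (R s) = 0)) : ℝ) ≤
      ((R s).totalDegree : ℝ) * (2 * n' + 1) ^ N := by
    intro s
    have h3 : #(T.filter (fun x => eval (xp N s x) (R s) = 0)) ≤
        #((Finset.Icc (-(n : ℤ)) n) ×ˢ (box.filter (fun z => eval z (R s) = 0))) := by
      refine card_le_card_of_injOn (fun x => (x 0, xp N s x)) ?_ ?_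
      · intro x hx
        rw [mem_coe, mem_filter] at hx
        obtain ⟨h4, h5⟩ := hx
        obtain ⟨h6, -⟩ := hT x h4
        rw [mem_coe, mem_product, mem_filter, mem_Icc]
        exact ⟨abs_le.1 (h6 0), mem_box n' _ (fun j => xp_le s K0 n s.2 x h6 j), h5⟩
      · intro x _ x' _ hxx
        simp only [Prod.mk.injEq] at hxx
        rw [← recon (s : ℕ) x, ← recon (s : ℕ) x', hxx.1, hxx.2]
    rw [card_product, Int.card_Icc] at h3
    have h4 : ((n : ℤ) + 1 - -(n : ℤ)).toNat = 2 * n + 1 := by omega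
    rw [h4] at h3
    have h5 := Pool.Agent.H39b.zeros_box (R s) (hR s) n'
    calc (#(T.filter (fun x => eval (xp N s x) (R s) = 0)) : ℝ) ≤
        (2 * n + 1 : ℕ) * #(box.filter (fun z => eval z (R s) = 0)) := by exact_mod_cast h3
      _ ≤ (2 * n' + 1) * #(box.filter (fun z => eval z (R s) = 0)) := by
          apply mul_le_mul_of_nonneg_right _ (by positivity)
          have : (n : ℝ) ≤ n' := by exact_mod_cast hnn'
          push_cast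
          linarith
      _ = #(box.filter (fun z => eval z (R s) = 0)) * (2 * n' + 1) := mul_comm _ _
      _ ≤ _ := h5
  calc (#T : ℝ) ≤ ((∑ s : Fin K0, #(T.filter (fun x => eval (xp N s x) (R s) = 0)) : ℕ) : ℝ) := by
        exact_mod_cast (card_le_card h1).trans card_biUnion_le
    _ = ∑ s : Fin K0, (#(T.filter (fun x => eval (xp N s x) (R s) = 0)) : ℝ) := by push_cast; rfl
    _ ≤ ∑ s, ((R s).totalDegree : ℝ) * (2 * n' + 1) ^ N := sum_le_sum fun s _ => h2 s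
    _ = _ := by rw [sum_mul]

end Pool.Agent.H39v
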