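import Pool.Agent.H39v.Low

set_option autoImplicit false

/-!
Directions on the moment curve: every nonzero linear form is small at few of them.
-/

namespace Pool.Agent.H39v

open Finset

theorem dir_bad (n K0 : ℕ) : ∃ η : ℝ, 0 < η ∧ η ≤ 1 ∧ ∀ v : AbsoluteValue ℚ ℝ, Plc v →
    ∀ L : Fin (n + 1) → ℚ, (∃ i, L i = 1) →
      #((univ : Finset (Fin K0)).filter (fun s : Fin K0 => v (∑ i, L i * ((s : ℕ) : ℚ) ^ (i : ℕ)) < η)) ≤ n := by
  classical
  -- for injective tuples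
  set V : (Fin (n + 1) → Fin K0) → Matrix (Fin (n + 1)) (Fin (n + 1)) ℤ := fun s =>
    Matrix.vandermonde (fun k => ((s k : ℕ) : ℤ)) with hV
  set R : (Fin (n + 1) → Fin K0) → Fin (n + 1) → ℝ := fun s i =>
    ∑ k, |(((V s).adjugate i k : ℤ) : ℝ)| with hR
  have hR0 : ∀ s i, 0 ≤ R s i := fun s i => sum_nonneg fun _ _ => abs_nonneg _
  set A : (Fin (n + 1) → Fin K0) → ℝ := fun s =>
    |((V s).det : ℝ)| * ∑ i, R s i with hA
  have hA0 : ∀ s, 0 ≤ A s := fun s => mul_nonneg (abs_nonneg _)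
    (sum_nonneg fun i _ => hR0 s i)
  set Z : ℝ := (∑ s, A s) + 1 with hZ
  have hZ1 : 1 ≤ Z := by
    have : 0 ≤ ∑ s, A s := sum_nonneg fun s _ => hA0 s
    linarith
  clear_value Z A R V
  refine ⟨1 / Z, by positivity, (div_le_one (by linarith)).2 hZ1, ?_⟩
  intro v hv L hL
  by_contra hcon
  push Not at hcon
  obtain ⟨T, hT, hTc⟩ := exists_subset_card_eq (Nat.succ_le_of_lt hcon)
  set s : Fin (n + 1) → Fin K0 := fun k => (T.equivFin.symm (Fin.cast hTc.symm k)).1 with hs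
  have hsinj : Function.Injective s := by
    intro k k' hk
    have h1 := T.equivFin.symm.injective (Subtype.ext hk)
    exact Fin.cast_injective _ h1
  have hsbad : ∀ k, v (∑ i, L i * (((s k : Fin K0) : ℕ) : ℚ) ^ (i : ℕ)) < 1 / Z := by
    intro k
    have h1 : s k ∈ T := (T.equivFin.symm (Fin.cast hTc.symm k)).2
    exact (mem_filter.1 (hT h1)).2
  have hdet : (V s).det ≠ 0 := by
    rw [hV, Matrix.det_vandermonde_ne_zero_iff]
    intro k k' hk
    apply hsinj
    apply Fin.ext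
    have hk' : (((s k : Fin K0) : ℕ) : ℤ) = (((s k' : Fin K0) : ℕ) : ℤ) := hk
    exact_mod_cast hk'
  obtain ⟨i0, hi0⟩ := hL
  -- `det V * L = adj V * (V L)`
  set VQ : Matrix (Fin (n + 1)) (Fin (n + 1)) ℚ := (V s).map (Int.cast : ℤ → ℚ) with hVQ
  have hmul : ∀ k, (VQ.mulVec L) k = ∑ i, L i * (((s k : Fin K0) : ℕ) : ℚ) ^ (i : ℕ) := by
    intro k
    simp only [Matrix.mulVec, dotProduct, hVQ, Matrix.map_apply, hV, Matrix.vandermonde_apply]
    refine sum_congr rfl fun i _ => ?_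
    push_cast
    ring
  have h1 : (VQ.adjugate).mulVec (VQ.mulVec L) = VQ.det • L := by
    rw [Matrix.mulVec_mulVec, Matrix.adjugate_mul, Matrix.smul_mulVec, Matrix.one_mulVec]
  have h2 := congrFun h1 i0
  have hdetQ : VQ.det = ((V s).det : ℚ) := by
    have := (Int.castRingHom ℚ).map_det (V s)
    simp only [eq_intCast] at this
    rw [this]
    rfl
  have hadjQ : ∀ i k, VQ.adjugate i k = (((V s).adjugate i k : ℤ) : ℚ) := by
    intro i k
    have := (Int.castRingHom ℚ).map_adjugate (V s)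
    have h3 := congrFun (congrFun this i) k
    simp only [RingHom.mapMatrix_apply, Matrix.map_apply] at h3
    rw [hVQ]
    simpa using h3.symm
  rw [Pi.smul_apply, hi0, smul_eq_mul, mul_one, hdetQ] at h2
  have h3 : v ((V s).det : ℚ) ≤ R s i0 * (1 / Z) := by
    rw [← h2, hR]
    simp only [Matrix.mulVec, dotProduct]
    rw [sum_mul]
    refine (v.sum_le _ _).trans (sum_le_sum fun k _ => ?_)
    rw [v.map_mul, hadjQ]
    refine mul_le_mul (v_int_le v _) ?_ (v.nonneg _) (abs_nonneg _)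
    have h4 := hmul k
    simp only [Matrix.mulVec, dotProduct] at h4
    rw [h4]
    exact (hsbad k).le
  have h4 := hv _ hdet
  have hZ0 : 0 ≤ 1 / Z := by positivity
  have h5' : R s i0 ≤ ∑ i, R s i := single_le_sum (f := R s) (fun i _ => hR0 s i) (mem_univ i0)
  have h5 : |((V s).det : ℝ)| * v ((V s).det : ℚ) ≤ A s * (1 / Z) := by
    calc |((V s).det : ℝ)| * v ((V s).det : ℚ) ≤ |((V s).det : ℝ)| * (R s i0 * (1 / Z)) :=
          mul_le_mul_of_nonneg_left h3 (abs_nonneg _)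
      _ ≤ |((V s).det : ℝ)| * ((∑ i, R s i) * (1 / Z)) :=
          mul_le_mul_of_nonneg_left (mul_le_mul_of_nonneg_right h5' hZ0) (abs_nonneg _)
      _ = A s * (1 / Z) := by rw [hA]; exact (mul_assoc _ _ _).symm
  have h6 : A s < Z := by
    have : A s ≤ ∑ s, A s := single_le_sum (fun t _ => hA0 t) (mem_univ s)
    linarith
  have h7 : A s * (1 / Z) < 1 := by
    rw [mul_one_div, div_lt_one (by linarith)]
    exact h6
  linarith

/-- averaging over the directions -/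
theorem dir_avg {ι : Type*} [DecidableEq ι] (V : Finset ι) (n K0 : ℕ) (hK : 0 < K0) (B : ι → Finset (Fin K0))
    (hB : ∀ i ∈ V, #(B i) ≤ n) (t : ι → ℝ) (ht : ∀ i ∈ V, 0 ≤ t i) :
    ∃ s : Fin K0, ∑ i ∈ V.filter (fun i => s ∈ B i), t i ≤ ((n : ℝ) / K0) * ∑ i ∈ V, t i := by
  classical
  by_contra hcon
  push Not at hcon
  have : Nonempty (Fin K0) := ⟨⟨0, hK⟩⟩
  have h1 : ∑ _s : Fin K0, ((n : ℝ) / K0) * ∑ i ∈ V, t i <
      ∑ s : Fin K0, ∑ i ∈ V.filter (fun i => s ∈ B i), t i :=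
    sum_lt_sum_of_nonempty univ_nonempty fun s _ => hcon s
  rw [sum_const, card_univ, Fintype.card_fin, nsmul_eq_mul] at h1
  have h2 : ∑ s : Fin K0, ∑ i ∈ V.filter (fun i => s ∈ B i), t i = ∑ i ∈ V, (#(B i) : ℝ) * t i := by
    simp_rw [sum_filter]
    rw [sum_comm]
    refine sum_congr rfl fun i _ => ?_
    rw [← sum_filter, sum_const, nsmul_eq_mul]
    congr 2
    congr 1
    ext s
    simp
  rw [h2] at h1
  have h3 : ∑ i ∈ V, (#(B i) : ℝ) * t i ≤ ∑ i ∈ V, (n : ℝ) * t i :=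
    sum_le_sum fun i hi => mul_le_mul_of_nonneg_right (by exact_mod_cast hB i hi) (ht i hi)
  rw [← mul_sum] at h3
  have h4 : (K0 : ℝ) * ((n : ℝ) / K0 * ∑ i ∈ V, t i) = n * ∑ i ∈ V, t i := by
    have : (K0 : ℝ) ≠ 0 := by exact_mod_cast hK.ne'
    field_simp
  linarith

end Pool.Agent.H39v
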