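import Pool.Agent.H39v.Sel

set_option autoImplicit false

/-!
The direction, the modulus and the archimedean scale of an exceptional point.
-/

namespace Pool.Agent.H39v

open MvPolynomial Finset

variable {N M g q w : ℕ}

lemma fact_prod (P : Finset ℕ) (hP : ∀ p ∈ P, p.Prime) (k : ℕ → ℕ) (r : ℕ) (hr : r ∈ P) :
    (∏ p ∈ P, p ^ k p).factorization r = k r := by
  classical
  rw [Nat.factorization_prod (fun p hp => pow_ne_zero _ (hP p hp).ne_zero)]
  rw [Finset.sum_apply']
  rw [Finset.sum_eq_single r]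
  · rw [Nat.factorization_pow]
    simp [(hP r hr).factorization_self]
  · intro p hp hpr
    rw [Nat.factorization_pow, (hP p hp).factorization]
    simp [hpr]
  · intro h; exact absurd hr h

lemma mem_of_dvd_prod (P : Finset ℕ) (hP : ∀ p ∈ P, p.Prime) (k : ℕ → ℕ) (r : ℕ) (hr : r.Prime)
    (h : r ∣ ∏ p ∈ P, p ^ k p) : r ∈ P := by
  obtain ⟨p, hp, hd⟩ := (Prime.dvd_finsetProd_iff hr.prime _).1 h
  have h1 := hr.dvd_of_dvd_pow hd
  rw [(Nat.prime_dvd_prime_iff_eq hr (hP p hp)).1 h1]
  exact hp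

lemma prod_dvd (S : Finset ℕ) (g0 L : ℕ) (hg0 : g0 ≠ 0) (k : ℕ → ℕ)
    (h1 : ∀ p ∈ S, k p ≤ L) (h2 : ∀ p ∈ g0.primeFactors \ S, k p ≤ g0.factorization p) :
    ∏ p ∈ S ∪ g0.primeFactors, p ^ k p ∣ g0 * (∏ p ∈ S, p) ^ L := by
  classical
  rw [← union_sdiff_self_eq_union, prod_union disjoint_sdiff, mul_comm]
  apply mul_dvd_mul
  · calc ∏ p ∈ g0.primeFactors \ S, p ^ k p ∣ ∏ p ∈ g0.primeFactors \ S, p ^ g0.factorization p :=
          prod_dvd_prod_of_dvd _ _ fun p hp => pow_dvd_pow p (h2 p hp)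
      _ ∣ ∏ p ∈ g0.primeFactors, p ^ g0.factorization p := prod_dvd_prod_of_subset _ _ _ sdiff_subset
      _ = g0 := Nat.prod_factorization_pow_eq_self hg0
  · rw [← prod_pow]
    exact prod_dvd_prod_of_dvd _ _ fun p hp => pow_dvd_pow p (h1 p hp)

lemma sum_log_fact (n : ℕ) (hn : n ≠ 0) (P : Finset ℕ) (hP : n.primeFactors ⊆ P) :
    ∑ p ∈ P, (n.factorization p : ℝ) * Real.log p = Real.log n := by
  classical
  have h1 : ∑ p ∈ P, (n.factorization p : ℝ) * Real.log p =
      ∑ p ∈ n.primeFactors, (n.factorization p : ℝ) * Real.log p := by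
    symm
    apply sum_subset hP
    intro p _ hp
    rw [Finsupp.notMem_support_iff.1 (by rw [Nat.support_factorization]; exact hp)]
    simp
  rw [h1]
  conv_rhs => rw [← Nat.prod_factorization_pow_eq_self hn]
  rw [Finsupp.prod, Nat.support_factorization]
  push_cast
  rw [Real.log_prod]
  · refine sum_congr rfl fun p _ => ?_
    rw [Real.log_pow]
  · intro p hp
    have := (Nat.prime_of_mem_primeFactors hp).pos
    positivity

lemma final_arith (Q Y H μ D B θ cc X : ℝ) (hQ : 1 ≤ Q) (hH : 1 ≤ H) (hHB : H ≤ B) (hμ : 1 ≤ μ)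
    (hY : Y = max 1 (H / μ)) (hX1 : 1 ≤ X) (hD : 0 < D) (hcc : 0 < cc)
    (hXD : D * cc * max 1 (B ^ (1 - θ)) ≤ X) (hmain : H ^ θ ≤ cc * (D * (Q * μ))) :
    2 * Y ≤ Q * (2 * X) := by
  have hB1 : 1 ≤ B := hH.trans hHB
  have hH0 : 0 < H := by linarith
  have h1 : H / μ ≤ Q * X := by
    rw [div_le_iff₀ (by linarith)]
    have h2 : H = H ^ θ * H ^ (1 - θ) := by
      rw [← Real.rpow_add hH0, add_sub_cancel, Real.rpow_one]
    have h3 : H ^ (1 - θ) ≤ max 1 (B ^ (1 - θ)) := by
      by_cases hθ : 0 ≤ 1 - θ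
      · exact (Real.rpow_le_rpow hH0.le hHB hθ).trans (le_max_right _ _)
      · exact (Real.rpow_le_one_of_one_le_of_nonpos hH (not_le.1 hθ).le).trans (le_max_left _ _)
    have h4 : 0 < max 1 (B ^ (1 - θ)) := lt_of_lt_of_le one_pos (le_max_left _ _)
    calc H = H ^ θ * H ^ (1 - θ) := h2
      _ ≤ (cc * (D * (Q * μ))) * max 1 (B ^ (1 - θ)) :=
          mul_le_mul hmain h3 (Real.rpow_nonneg hH0.le _) (by positivity)
      _ = (Q * μ) * (D * cc * max 1 (B ^ (1 - θ))) := by ring
      _ ≤ (Q * μ) * X := mul_le_mul_of_nonneg_left hXD (by positivity)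
      _ = Q * X * μ := by ring
  rw [hY]
  have h5 : max 1 (H / μ) ≤ Q * X := max_le (by nlinarith) h1
  linarith

theorem pointwise {Ψ : Fin (M + 1) → MvPolynomial (Fin (N + 1)) ℤ} {e : ℕ}
    (hΨ : ∀ j, (Ψ j).IsHomogeneous e)
    {G : Fin g → MvPolynomial (Fin (N + 1) ⊕ Fin (M + 1)) ℤ}
    {F : Fin q → Fin w → MvPolynomial (Fin (N + 1) ⊕ Fin (M + 1)) ℤ} (h : Smth G F)
    (aG bG : Fin g → ℕ) (hG : ∀ k, IsBihom (G k) (aG k) (bG k))
    (hGΨ : ∀ k, aeval (Sum.elim X Ψ) (G k) = 0)
    (aF bF : Fin q → Fin w → ℕ) (hF : ∀ i j, IsBihom (F i j) (aF i j) (bF i j))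
    (C1 : ℝ) (hC1 : 1 ≤ C1) (S : Finset ℕ) (hS : ∀ p ∈ S, p.Prime) (K0 : ℕ) (hK0 : 0 < K0)
    (hNK : N ≤ K0) (κ c δ : ℝ) (hκ : 0 ≤ κ) (hδ : 0 < δ) :
    ∃ (PS : ℕ) (C : ℝ), 0 < PS ∧ 1 ≤ C ∧ ∀ (B : ℝ) (L : ℕ), 1 ≤ B → B ≤ 2 ^ L →
      ∀ (x : Fin (N + 1) → ℤ) (y : Fin (M + 1) → ℤ) (g0 gR : ℕ) (ρI : ℝ) (ρF : Fin q → ℝ)
        (ρP : ℕ → Fin q → ℝ),
        univ.gcd x = 1 → univ.gcd y = 1 → 0 < g0 → 0 < gR → (∀ j, eval x (Ψ j) = g0 * y j) →
        (hgt x : ℝ) ≤ B → (∀ φ, eval x (fam Ψ F φ) = 0 → fam Ψ F φ = 0) →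
        0 < ρI → (∀ K b, |(minor G K b x y : ℝ)| ≤
          ρI * ((hgt x : ℝ) ^ (∑ m, aG (K m)) * (hgt y : ℝ) ^ (∑ m, (bG (K m) - 1)))) →
        (∀ K b, (gR : ℤ) ∣ minor G K b x y) →
        (∀ i, 0 < ρF i) → (∀ i, ρF i ≤ C1) →
        (∀ i j, |((eval (Sum.elim x y) (F i j) : ℤ) : ℝ)| ≤
          ρF i * ((hgt x : ℝ) ^ aF i j * (hgt y : ℝ) ^ bF i j)) →
        (∀ p ∈ S, ∀ i, 0 < ρP p i) → (∀ p ∈ S, ∀ i, ρP p i ≤ 1) →
        (∀ p ∈ S, ∀ i j, (padicNorm p ((eval (Sum.elim x y) (F i j) : ℤ) : ℚ) : ℝ) ≤ ρP p i) →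
        κ * Real.log (hgt x) - c ≤ ∑ i, -Real.log (ρF i) + ∑ p ∈ S, ∑ i, -Real.log (ρP p i) -
          Real.log ρI + Real.log gR →
        ∃ (s : Fin K0) (Q l : ℕ), 0 < Q ∧ Q ∣ g0 * PS ^ L ∧ l ≤ L + 1 ∧
          (∀ p ∈ Q.primeFactors, ∃ φ, eval x (fam Ψ F φ) ≠ 0 ∧
            (p : ℝ) ^ (Q.factorization p) * (padicNorm p ((eval x (fam Ψ F φ) : ℤ) : ℚ) : ℝ) ≤
              (padicNorm p ((dwi (dirm N s) x (fam Ψ F φ) : ℤ) : ℚ) : ℝ)) ∧
          ((hgt x : ℝ) ≤ 2 ^ l ∨ ∃ φ, eval x (fam Ψ F φ) ≠ 0 ∧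
            |((eval x (fam Ψ F φ) : ℤ) : ℝ)| ≤ 2 ^ l * |(dwi (dirm N s) x (fam Ψ F φ) : ℝ)|) ∧
          (2 : ℝ) ^ l ≤ Q * (C * B ^ δ * max 1 (B ^ (1 - κ * (1 - (N : ℝ) / K0) / ((N : ℝ) + 1)))) := by
  classical
  obtain ⟨c1, hc1, hsharp⟩ := sharp_int hΨ h aG bG hG hGΨ
  set S' : Finset ℕ := S ∪ c1.natAbs.primeFactors with hS'def
  have hS' : ∀ p ∈ S', p.Prime := by
    intro p hp
    rcases mem_union.1 hp with h1 | h1
    · exact hS p h1
    · exact Nat.prime_of_mem_primeFactors h1
  set PS : ℕ := ∏ p ∈ S', p with hPS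
  set W0 : ℝ := (K0 : ℝ) ^ N with hW0
  have hW00 : 0 ≤ W0 := by positivity
  obtain ⟨Ca, hCa, hpa⟩ := place_p hΨ h aG bG hG hGΨ aF bF hF W0 hW00
  obtain ⟨Cb, hCb, hpb⟩ := place_p (F := fun (i : Fin 0) (_ : Fin 1) =>
    (i.elim0 : MvPolynomial (Fin (N + 1) ⊕ Fin (M + 1)) ℤ)) hΨ (smth_empty h) aG bG hG hGΨ
    (fun i _ => i.elim0) (fun i _ => i.elim0) (fun i _ => i.elim0) W0 hW00
  obtain ⟨Cc, hCc, hpi⟩ := place_inf hΨ h aG bG hG hGΨ aF bF hF W0 C1 hW00 hC1
  obtain ⟨η, hη, hη1, hdir⟩ := dir_bad N K0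
  set D : ℝ := (Ca + Cb + Cc) / η with hD
  have hDη : D * η = Ca + Cb + Cc := div_mul_cancel₀ _ hη.ne'
  have hD1 : 1 ≤ D := by
    rw [hD, le_div_iff₀ hη]
    linarith
  set δ' : ℝ := δ / ((e : ℝ) + 1) with hδ'
  have hδ'0 : 0 < δ' := by positivity
  obtain ⟨Cω, hCω, homega⟩ := omega_bound D hD1 hδ'0
  set CΨ : ℝ := 1 + ∑ j, norm1 (Ψ j) with hCΨ
  have hCΨ1 : 1 ≤ CΨ := by
    have : 0 ≤ ∑ j, norm1 (Ψ j) := sum_nonneg fun _ _ => norm1_nonneg _
    linarith
  set cc : ℝ := Real.exp |c| with hcc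
  have hcc1 : 1 ≤ cc := Real.one_le_exp (abs_nonneg _)
  set C0 : ℝ := D ^ (#S' + 1) * (Cω * CΨ ^ δ') * cc with hC0
  have hC01 : 1 ≤ C0 := by
    have h1 : 1 ≤ D ^ (#S' + 1) := one_le_pow₀ hD1
    have h2 : 1 ≤ CΨ ^ δ' := Real.one_le_rpow hCΨ1 hδ'0.le
    have h3 : 1 ≤ Cω * CΨ ^ δ' := by nlinarith
    have h4 : 1 ≤ D ^ (#S' + 1) * (Cω * CΨ ^ δ') := by nlinarith
    rw [hC0]
    nlinarith
  refine ⟨PS, 2 * C0, prod_pos fun p hp => (hS' p hp).pos, by linarith, ?_⟩
  intro B L hB hBL x y g0 gR ρI ρF ρP hx hy hg0 hgR hxy hxB hfam0 hρI hminI hminP hρF0 hρF1 hρFb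
    hρP0 hρP1 hρPb htot
  have hH1 : (1 : ℝ) ≤ hgt x := by exact_mod_cast one_le_hgt hx
  have hH0 : (0 : ℝ) < hgt x := by linarith
  set P' : Finset ℕ := S' ∪ g0.primeFactors with hP'def
  have hP' : ∀ p ∈ P', p.Prime := by
    intro p hp
    rcases mem_union.1 hp with h1 | h1
    · exact hS' p h1
    · exact Nat.prime_of_mem_primeFactors h1
  -- the sharp bound
  have hsh : ∀ p, p.Prime → p ∉ S' → gR.factorization p ≤ (N + 1) * g0.factorization p := by
    intro p hp hpS
    have hpf : Fact p.Prime := ⟨hp⟩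
    have hpc : ¬ (p : ℤ) ∣ c1 := by
      intro hd
      apply hpS
      apply mem_union_right
      exact Nat.mem_primeFactors.2 ⟨hp, Int.natCast_dvd.1 hd, Int.natAbs_ne_zero.2 hc1⟩
    obtain ⟨a, ha⟩ := prim_not_dvd hx hp
    obtain ⟨b, hb⟩ := prim_not_dvd hy hp
    obtain ⟨K, hK⟩ := hsharp p hpc x y g0 a b (by exact_mod_cast hg0.ne') hxy ha hb
    obtain ⟨m, hm⟩ := hminP K b
    have hm1 : padicNorm p (minor G K b x y : ℚ) ≤ padicNorm p (gR : ℚ) := by
      rw [hm]
      push_cast
      rw [padicNorm.mul]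
      calc padicNorm p (gR : ℚ) * padicNorm p (m : ℚ) ≤ padicNorm p (gR : ℚ) * 1 :=
            mul_le_mul_of_nonneg_left (padicNorm.of_int m) (padicNorm.nonneg _)
        _ = _ := mul_one _
    have h1 := hK.trans hm1
    have hval : ∀ n : ℕ, n ≠ 0 → padicNorm p (n : ℚ) = ((p : ℚ) ^ (n.factorization p))⁻¹ := by
      intro n hn
      rw [padicNorm.eq_zpow_of_nonzero (by exact_mod_cast hn), padicValRat.of_nat,
        Nat.factorization_def _ hp, zpow_neg, zpow_natCast]
    rw [Int.cast_natCast, hval g0 hg0.ne', hval gR hgR.ne', inv_pow, ← pow_mul] at h1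
    have hp0 : (1 : ℚ) < p := by exact_mod_cast hp.one_lt
    rw [inv_le_inv₀ (by positivity) (by positivity)] at h1
    have h2 := (pow_le_pow_iff_right₀ hp0).1 h1
    rw [mul_comm]
    exact h2
  -- quantities
  set A : Fin (M + 1) ⊕ (Fin q × Fin w) → ℤ := fun φ => eval x (fam Ψ F φ) with hA
  set Bd : Fin K0 → Fin (M + 1) ⊕ (Fin q × Fin w) → ℤ := fun s φ =>
    dwi (dirm N s) x (fam Ψ F φ) with hBd
  have hAB : ∀ s φ, A φ = 0 → Bd s φ = 0 := by
    intro s φ h0
    rw [hBd]
    simp only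
    rw [hfam0 φ h0]
    simp [dwi]
  choose μ hμ1 hμ2 hμ3 using fun s : Fin K0 => mu_inf A (Bd s) (hAB s) (hgt x) hH0
  set τ : ℕ → ℝ := fun p => gR.factorization p * Real.log p +
    (if p ∈ S then ∑ i, -Real.log (ρP p i) else 0) with hτ
  have hτ0 : ∀ p ∈ P', 0 ≤ τ p := by
    intro p hp
    have h1 : (0 : ℝ) ≤ Real.log p := Real.log_nonneg (by exact_mod_cast (hP' p hp).one_lt.le)
    have h2 : (0 : ℝ) ≤ gR.factorization p * Real.log p := by positivity
    have h3 : (0 : ℝ) ≤ (if p ∈ S then ∑ i, -Real.log (ρP p i) else 0) := by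
      split_ifs with h4
      · exact sum_nonneg fun i _ => neg_nonneg.2 (Real.log_nonpos (hρP0 p h4 i).le (hρP1 p h4 i))
      · exact le_rfl
    rw [hτ]
    exact add_nonneg h2 h3
  set τi : ℝ := -Real.log ρI + ∑ i, -Real.log (ρF i) with hτi
  -- bad directions
  set Bp : ℕ → Finset (Fin K0) := fun p => univ.filter fun s =>
    ¬ (Real.exp (τ p / ((N : ℝ) + 1)) ≤ D * (p : ℝ) ^ (kap p A (Bd s))) with hBp
  set Bi : Finset (Fin K0) := univ.filter fun s =>
    ¬ (Real.exp (τi / ((N : ℝ) + 1)) ≤ D * μ s) with hBi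
  have hsumdir : ∀ (Lf : Fin (N + 1) → ℚ) (s : Fin K0), ∑ i, Lf i * (dirm N s i : ℚ) =
      ∑ i, Lf i * ((s : ℕ) : ℚ) ^ (i : ℕ) := by
    intro Lf s
    refine sum_congr rfl fun i _ => ?_
    unfold dirm
    push_cast
    rfl
  have hBpc : ∀ p ∈ P', #(Bp p) ≤ N := by
    intro p hp
    have hpf : Fact p.Prime := ⟨hP' p hp⟩
    obtain ⟨Lf, hLf, hgood⟩ : ∃ Lf : Fin (N + 1) → ℚ, (∃ i, Lf i = 1) ∧ ∀ s : Fin K0,
        η ≤ Rat.AbsoluteValue.padic p (∑ i, Lf i * (dirm N s i : ℚ)) →
        Real.exp (τ p / ((N : ℝ) + 1)) ≤ D * (p : ℝ) ^ (kap p A (Bd s)) := by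
      by_cases hpS : p ∈ S
      · obtain ⟨Lf, hLf, hm⟩ := hpa p x y g0 gR (ρP p) hx hy hg0 hgR hxy hminP (hρP0 p hpS)
          (hρP1 p hpS) (hρPb p hpS) hfam0
        refine ⟨Lf, hLf, fun s hs => ?_⟩
        have h1 := hm D η hη (by rw [hDη]; linarith) (dirm N s) (dirm_le N K0 hK0 s) hs
        rw [hτ]
        simp only
        rw [if_pos hpS]
        exact h1
      · obtain ⟨Lf, hLf, hm⟩ := hpb p x y g0 gR (fun i => i.elim0) hx hy hg0 hgR hxy hminP
          (fun i => i.elim0) (fun i => i.elim0) (fun i => i.elim0) (by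
            intro φ
            rcases φ with j | ij
            · exact hfam0 (Sum.inl j)
            · exact ij.1.elim0)
        refine ⟨Lf, hLf, fun s hs => ?_⟩
        have h1 := hm D η hη (by rw [hDη]; linarith) (dirm N s) (dirm_le N K0 hK0 s) hs
        rw [hτ]
        simp only
        rw [if_neg hpS]
        simp only [univ_eq_empty, sum_empty] at h1
        refine h1.trans ?_
        apply mul_le_mul_of_nonneg_left _ (by linarith)
        apply pow_le_pow_right₀ (by exact_mod_cast hpf.out.one_lt.le)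
        unfold kap
        refine Finset.sup_le fun φ _ => ?_
        rcases φ with j | ij
        · exact Finset.le_sup (f := fun φ => if A φ = 0 ∨ Bd s φ = 0 then 0
            else padicValInt p (A φ) - padicValInt p (Bd s φ)) (mem_univ (Sum.inl j))
        · exact ij.1.elim0
    refine (card_le_card ?_).trans (hdir (Rat.AbsoluteValue.padic p) (plc_padic p) Lf hLf)
    intro s hs
    rw [hBp] at hs
    simp only [mem_filter, mem_univ, true_and] at hs ⊢
    by_contra hcon
    apply hs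
    apply hgood s
    rw [hsumdir]
    exact not_lt.1 hcon
  have hBic : #Bi ≤ N := by
    obtain ⟨Lf, hLf, hm⟩ := hpi x y g0 ρI ρF hx hy hg0 hρI hxy hminI hρF0 hρF1 hρFb
    refine (card_le_card ?_).trans (hdir Rat.AbsoluteValue.real plc_real Lf hLf)
    intro s hs
    rw [hBi] at hs
    simp only [mem_filter, mem_univ, true_and] at hs ⊢
    by_contra hcon
    apply hs
    refine hm D η hη (by rw [hDη]; linarith) (dirm N s) (dirm_le N K0 hK0 s) ?_ (μ s) (hμ1 s) (hμ2 s)
    rw [hsumdir]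
    exact not_lt.1 hcon
  obtain ⟨s, hs⟩ := choose_dir N K0 hK0 P' Bp Bi hBpc hBic τ hτ0 (max 0 τi) (le_max_left _ _)
  -- the modulus
  set k : ℕ → ℕ := fun p => min (kap p A (Bd s)) (if p ∈ S' then L else g0.factorization p) with hk
  set Q : ℕ := ∏ p ∈ P', p ^ k p with hQ
  have hQ0 : 0 < Q := prod_pos fun p hp => pow_pos (hP' p hp).pos _
  have hQ1 : (1 : ℝ) ≤ Q := by exact_mod_cast hQ0
  -- the scale
  have hY1 : 1 ≤ max 1 ((hgt x : ℝ) / μ s) := le_max_left _ _
  have hYB : max 1 ((hgt x : ℝ) / μ s) ≤ B := by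
    apply max_le hB
    refine le_trans (div_le_self hH0.le (hμ1 s)) hxB
  obtain ⟨l, hl1, hl2, hl3⟩ := exists_l _ hY1 L (hYB.trans hBL)
  refine ⟨s, Q, l, hQ0, ?_, hl1, ?_, ?_, ?_⟩
  · -- divisibility
    apply prod_dvd S' g0 L hg0.ne' k
    · intro p hp
      rw [hk]
      simp only
      rw [if_pos hp]
      exact min_le_right _ _
    · intro p hp
      rw [hk]
      simp only
      rw [if_neg (mem_sdiff.1 hp).2]
      exact min_le_right _ _
  · intro p hp
    have hpp : p.Prime := Nat.prime_of_mem_primeFactors hp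
    have hpf : Fact p.Prime := ⟨hpp⟩
    have hpP : p ∈ P' := mem_of_dvd_prod P' hP' k p hpp (Nat.dvd_of_mem_primeFactors hp)
    have hfk : Q.factorization p = k p := fact_prod P' hP' k p hpP
    have hk0 : k p ≠ 0 := by
      rw [← hfk]
      have := hpp.factorization_pos_of_dvd hQ0.ne' (Nat.dvd_of_mem_primeFactors hp)
      omega
    rw [hfk]
    exact kap_attained p A (Bd s) (k p) hk0 (min_le_left _ _)
  · rcases hμ3 s with h1 | ⟨φ, h1, h2⟩
    · left
      rw [h1, div_one, max_eq_right hH1] at hl2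
      exact hl2
    · right
      refine ⟨φ, h1, ?_⟩
      have h3 : (hgt x : ℝ) / μ s ≤ 2 ^ l := (le_max_right _ _).trans hl2
      have hμ0 : 0 < μ s := by linarith [hμ1 s]
      have h4 : |((A φ : ℤ) : ℝ)| ≤ (hgt x : ℝ) / μ s * |((Bd s φ : ℤ) : ℝ)| := by
        rw [div_mul_eq_mul_div, le_div_iff₀ hμ0]
        linarith
      exact h4.trans (mul_le_mul_of_nonneg_right h3 (abs_nonneg _))
  · -- the size
    set θ : ℝ := κ * (1 - (N : ℝ) / K0) / ((N : ℝ) + 1) with hθ
    refine hl3.trans ?_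
    have hBδ : 1 ≤ B ^ δ := Real.one_le_rpow hB hδ.le
    have hmx : 1 ≤ max 1 (B ^ (1 - θ)) := le_max_left _ _
    set X : ℝ := C0 * B ^ δ * max 1 (B ^ (1 - θ)) with hX
    have hX1 : 1 ≤ X := by
      have h1 : 1 ≤ C0 * B ^ δ := by nlinarith
      rw [hX]; nlinarith
    have hEq : (Q : ℝ) * (2 * C0 * B ^ δ * max 1 (B ^ (1 - θ))) = Q * (2 * X) := by
      rw [hX]; ring
    rw [hEq]
    by_cases hcase : ∃ p ∈ S', L ≤ kap p A (Bd s)
    · obtain ⟨p, hp, hpL⟩ := hcase
      have hkp : k p = L := by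
        rw [hk]
        simp only
        rw [if_pos hp]
        exact min_eq_right hpL
      have h1 : p ^ L ≤ Q := by
        rw [← hkp]
        exact Nat.le_of_dvd hQ0 (dvd_prod_of_mem (fun p => p ^ k p) (mem_union_left _ hp))
      have h2 : (2 : ℝ) ^ L ≤ Q := by
        calc (2 : ℝ) ^ L ≤ (p : ℝ) ^ L := pow_le_pow_left₀ (by norm_num)
              (by exact_mod_cast (hS' p hp).two_le) _
          _ ≤ Q := by exact_mod_cast h1
      have h3 : max 1 ((hgt x : ℝ) / μ s) ≤ Q := hYB.trans (hBL.trans h2)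
      nlinarith
    · push Not at hcase
      set g' : ℝ := D ^ (#P' + 1) with hg'
      have hg'0 : 0 < g' := by positivity
      apply final_arith (Q : ℝ) (max 1 ((hgt x : ℝ) / μ s)) (hgt x : ℝ) (μ s) g' B θ cc X hQ1 hH1
        hxB (hμ1 s) rfl hX1 hg'0 (by linarith)
      · -- the constant
        have hcardP : #P' ≤ #S' + #g0.primeFactors := card_union_le _ _
        have h1 : g' ≤ D ^ (#S' + 1) * (Cω * (g0 : ℝ) ^ δ') := by
          calc g' ≤ D ^ (#S' + 1 + #g0.primeFactors) := pow_le_pow_right₀ hD1 (by omega)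
            _ = D ^ (#S' + 1) * D ^ #g0.primeFactors := pow_add _ _ _
            _ ≤ _ := mul_le_mul_of_nonneg_left (homega g0 hg0.ne') (by positivity)
        have h2 : (g0 : ℝ) ≤ CΨ * B ^ (e : ℝ) := by
          obtain ⟨b, hb⟩ : ∃ b, y b ≠ 0 := by
            by_contra hcon
            push Not at hcon
            exact prim_ne hy (funext hcon)
          have h3 : (g0 : ℝ) ≤ |((eval x (Ψ b) : ℤ) : ℝ)| := by
            rw [hxy]
            push_cast
            rw [abs_mul]
            have h4 : (1 : ℝ) ≤ |(y b : ℝ)| := by exact_mod_cast Int.one_le_abs hb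
            have h5 : |(g0 : ℝ)| = g0 := abs_of_nonneg (by positivity)
            rw [h5]
            have h6 : (0 : ℝ) ≤ g0 := by positivity
            nlinarith
          have h4 : |((eval x (Ψ b) : ℤ) : ℝ)| ≤ norm1 (Ψ b) * B ^ e := by
            rw [eval_eq']
            push_cast
            unfold norm1
            rw [sum_mul]
            refine (abs_sum_le_sum_abs _ _).trans (sum_le_sum fun d hd => ?_)
            rw [abs_mul]
            apply mul_le_mul_of_nonneg_left _ (abs_nonneg _)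
            rw [abs_prod]
            have h5 : ∑ i, d i = e := by
              have := hΨ b (mem_support_iff.1 hd)
              rw [← this, Finsupp.weight_apply, Finsupp.sum_fintype _ _ (by simp)]
              simp
            calc ∏ i, |(x i : ℝ) ^ d i| ≤ ∏ i, B ^ d i := by
                  apply prod_le_prod (fun i _ => abs_nonneg _)
                  intro i _
                  rw [abs_pow]
                  exact pow_le_pow_left₀ (abs_nonneg _) ((le_hgt x i).trans hxB) _
              _ = B ^ e := by rw [prod_pow_eq_pow_sum, h5]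
          have h5 : norm1 (Ψ b) ≤ CΨ := by
            have := single_le_sum (f := fun j => norm1 (Ψ j)) (fun j _ => norm1_nonneg _) (mem_univ b)
            rw [hCΨ]
            linarith
          rw [Real.rpow_natCast]
          exact h3.trans (h4.trans (mul_le_mul_of_nonneg_right h5 (by positivity)))
        have hg00 : (0 : ℝ) ≤ g0 := by positivity
        have h3 : (g0 : ℝ) ^ δ' ≤ CΨ ^ δ' * B ^ δ := by
          calc (g0 : ℝ) ^ δ' ≤ (CΨ * B ^ (e : ℝ)) ^ δ' := Real.rpow_le_rpow hg00 h2 hδ'0.le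
            _ = CΨ ^ δ' * B ^ ((e : ℝ) * δ') := by
                rw [Real.mul_rpow (by linarith) (by positivity), ← Real.rpow_mul (by linarith)]
            _ ≤ CΨ ^ δ' * B ^ δ := by
                apply mul_le_mul_of_nonneg_left _ (by positivity)
                apply Real.rpow_le_rpow_of_exponent_le hB
                rw [hδ', mul_div_assoc', div_le_iff₀ (by positivity)]
                have : (0 : ℝ) ≤ e := by positivity
                nlinarith
        have h4 : g' ≤ D ^ (#S' + 1) * (Cω * (CΨ ^ δ' * B ^ δ)) := by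
          refine h1.trans ?_
          apply mul_le_mul_of_nonneg_left _ (by positivity)
          exact mul_le_mul_of_nonneg_left h3 (by linarith)
        calc g' * cc * max 1 (B ^ (1 - θ)) ≤ D ^ (#S' + 1) * (Cω * (CΨ ^ δ' * B ^ δ)) * cc *
              max 1 (B ^ (1 - θ)) := by
              apply mul_le_mul_of_nonneg_right _ (by linarith)
              exact mul_le_mul_of_nonneg_right h4 (by linarith)
          _ = X := by rw [hX, hC0]; ring
      · -- the product formula
        set T : Finset ℕ := P'.filter (fun p => s ∉ Bp p) with hT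
        have hgoodp : ∀ p ∈ T, Real.exp (τ p / ((N : ℝ) + 1)) ≤ D * (p : ℝ) ^ (k p) := by
          intro p hp
          have hpP : p ∈ P' := (mem_filter.1 hp).1
          have hpb : s ∉ Bp p := (mem_filter.1 hp).2
          have h1 : Real.exp (τ p / ((N : ℝ) + 1)) ≤ D * (p : ℝ) ^ (kap p A (Bd s)) := by
            by_contra hcon
            apply hpb
            rw [hBp]
            simp only [mem_filter, mem_univ, true_and]
            exact hcon
          rcases min_choice (kap p A (Bd s)) (if p ∈ S' then L else g0.factorization p) with h2 | h2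
          · have h3 : k p = kap p A (Bd s) := h2
            rw [h3]; exact h1
          · have h3 : k p = if p ∈ S' then L else g0.factorization p := h2
            by_cases hpS' : p ∈ S'
            · have h4 : k p = kap p A (Bd s) := by
                have h5 := hcase p hpS'
                rw [hk]
                simp only
                rw [if_pos hpS']
                exact min_eq_left h5.le
              rw [h4]; exact h1
            · rw [if_neg hpS'] at h3
              rw [h3]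
              have hpS : p ∉ S := fun h4 => hpS' (mem_union_left _ h4)
              have hp1 : (1 : ℝ) ≤ p := by exact_mod_cast (hP' p hpP).one_lt.le
              have hp0 : (0 : ℝ) < p := by linarith
              have h4 : τ p / ((N : ℝ) + 1) ≤ g0.factorization p * Real.log p := by
                rw [hτ]
                simp only
                rw [if_neg hpS, add_zero, div_le_iff₀ (by positivity)]
                have h5 : (gR.factorization p : ℝ) ≤ ((N : ℝ) + 1) * g0.factorization p := by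
                  exact_mod_cast hsh p (hP' p hpP) hpS'
                have h6 : 0 ≤ Real.log p := Real.log_nonneg hp1
                nlinarith
              calc Real.exp (τ p / ((N : ℝ) + 1)) ≤ Real.exp (g0.factorization p * Real.log p) :=
                    Real.exp_le_exp.2 h4
                _ = (p : ℝ) ^ (g0.factorization p) := by
                    rw [mul_comm, Real.exp_mul, Real.exp_log hp0, Real.rpow_natCast]
                _ ≤ D * (p : ℝ) ^ (g0.factorization p) :=
                    le_mul_of_one_le_left (by positivity) hD1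
        have h1 := prod_bound N P' (fun p hp => (hP' p hp).one_lt.le) D hD1 k τ T (filter_subset _ _)
          hgoodp
        have h2 : Real.exp ((if s ∈ Bi then 0 else max 0 τi) / ((N : ℝ) + 1)) ≤ D * μ s := by
          have hDμ : 1 ≤ D * μ s := by nlinarith [hμ1 s]
          split_ifs with h3
          · rw [zero_div, Real.exp_zero]; exact hDμ
          · rcases max_choice 0 τi with h4 | h4
            · rw [h4, zero_div, Real.exp_zero]; exact hDμ
            · rw [h4]
              by_contra hcon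
              apply h3
              rw [hBi]
              simp only [mem_filter, mem_univ, true_and]
              exact hcon
        have h3 : Real.exp ((∑ p ∈ T, τ p + (if s ∈ Bi then 0 else max 0 τi)) / ((N : ℝ) + 1)) ≤
            g' * (Q * μ s) := by
          rw [add_div, Real.exp_add]
          calc Real.exp ((∑ p ∈ T, τ p) / ((N : ℝ) + 1)) *
              Real.exp ((if s ∈ Bi then 0 else max 0 τi) / ((N : ℝ) + 1)) ≤
                (D ^ #P' * ∏ p ∈ P', (p : ℝ) ^ (k p)) * (D * μ s) :=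
                mul_le_mul h1 h2 (Real.exp_pos _).le (by positivity)
            _ = g' * (Q * μ s) := by
                rw [hg', hQ, pow_succ]
                push_cast
                ring
        -- the total
        have hSP : S ⊆ P' := fun p hp => mem_union_left _ (mem_union_left _ hp)
        have hgRP : gR.primeFactors ⊆ P' := by
          intro p hp
          have hpp := Nat.prime_of_mem_primeFactors hp
          by_cases hpS' : p ∈ S'
          · exact mem_union_left _ hpS'
          · apply mem_union_right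
            have h4 := hsh p hpp hpS'
            have h5 := hpp.factorization_pos_of_dvd hgR.ne' (Nat.dvd_of_mem_primeFactors hp)
            have h6 : g0.factorization p ≠ 0 := by
              intro h7
              rw [h7, mul_zero] at h4
              omega
            rw [← Nat.support_factorization]
            exact Finsupp.mem_support_iff.2 h6
        have hsumτ : ∑ p ∈ P', τ p = Real.log gR + ∑ p ∈ S, ∑ i, -Real.log (ρP p i) := by
          rw [hτ, sum_add_distrib, sum_log_fact gR hgR.ne' P' hgRP]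
          congr 1
          rw [← sum_filter]
          congr 1
          ext p
          rw [mem_filter]
          exact ⟨fun h4 => h4.2, fun h4 => ⟨hSP h4, h4⟩⟩
        have htot2 : κ * Real.log (hgt x) - c ≤ ∑ p ∈ P', τ p + max 0 τi := by
          have h4 : τi ≤ max 0 τi := le_max_right _ _
          rw [hsumτ]
          rw [hτi] at h4
          linarith
        have hN1 : 0 ≤ 1 - (N : ℝ) / K0 := by
          have h4 : (N : ℝ) / K0 ≤ 1 := by
            rw [div_le_one (by exact_mod_cast hK0)]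
            exact_mod_cast hNK
          linarith
        have hN2 : 1 - (N : ℝ) / K0 ≤ 1 := by
          have h4 : 0 ≤ (N : ℝ) / K0 := by positivity
          linarith
        have h4 : (1 - (N : ℝ) / K0) * (κ * Real.log (hgt x) - c) ≤
            ∑ p ∈ T, τ p + (if s ∈ Bi then 0 else max 0 τi) :=
          (mul_le_mul_of_nonneg_left htot2 hN1).trans hs
        have h5 : θ * Real.log (hgt x) - |c| ≤
            (∑ p ∈ T, τ p + (if s ∈ Bi then 0 else max 0 τi)) / ((N : ℝ) + 1) := by
          have hN0 : (0 : ℝ) ≤ N := by positivity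
          rw [le_div_iff₀ (by positivity)]
          have h6 : (θ * Real.log (hgt x) - |c|) * ((N : ℝ) + 1) =
              κ * (1 - (N : ℝ) / K0) * Real.log (hgt x) - |c| * ((N : ℝ) + 1) := by
            rw [hθ]
            field_simp
          rw [h6]
          have h7 : (1 - (N : ℝ) / K0) * c ≤ |c| * ((N : ℝ) + 1) := by
            have h8 : (1 - (N : ℝ) / K0) * c ≤ (1 - (N : ℝ) / K0) * |c| :=
              mul_le_mul_of_nonneg_left (le_abs_self c) hN1
            have h9 : (1 - (N : ℝ) / K0) * |c| ≤ 1 * |c| := mul_le_mul_of_nonneg_right hN2 (abs_nonneg _)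
            have h10 : 0 ≤ |c| * N := mul_nonneg (abs_nonneg _) hN0
            linarith
          linarith
        have h6 : Real.exp (θ * Real.log (hgt x) - |c|) ≤ g' * (Q * μ s) :=
          (Real.exp_le_exp.2 h5).trans h3
        rw [Real.exp_sub, div_le_iff₀ (Real.exp_pos _), mul_comm θ, Real.exp_mul,
          Real.exp_log hH0] at h6
        calc (hgt x : ℝ) ^ θ ≤ g' * (Q * μ s) * Real.exp |c| := h6
          _ = cc * (g' * (Q * μ s)) := by rw [hcc]; ring

end Pool.Agent.H39v
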