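import Pool.Agent.H39v.LineC
import Pool.Agent.H39v.Point
import Pool.Agent.H39b.Box

set_option autoImplicit false

/-!
Counting the exceptional points on a line.
-/

namespace Pool.Agent.H39v

open MvPolynomial Finset

lemma der_comp {σ : Type*} [Fintype σ] (f : σ → Polynomial ℤ) (P : MvPolynomial σ ℤ) :
    Polynomial.derivative (aeval f P) = ∑ s, aeval f (pderiv s P) * Polynomial.derivative (f s) := by
  classical
  induction P using MvPolynomial.induction_on with
  | C a => simp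
  | add p q hp hq =>
    rw [map_add, Polynomial.derivative_add, hp, hq, ← Finset.sum_add_distrib]
    refine Finset.sum_congr rfl fun s _ => ?_
    rw [map_add, map_add, add_mul]
  | mul_X p s hp =>
    rw [map_mul, aeval_X, Polynomial.derivative_mul, hp]
    have h1 : ∀ t, aeval f (pderiv t (p * X s)) * Polynomial.derivative (f t) =
        aeval f (pderiv t p) * f s * Polynomial.derivative (f t) +
          (if s = t then aeval f p * Polynomial.derivative (f t) else 0) := by
      intro t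
      rw [pderiv_mul, pderiv_X, map_add, map_mul, map_mul, aeval_X, add_mul]
      congr 1
      by_cases h : s = t
      · subst h; simp
      · rw [if_neg h]
        simp [h]
    rw [Finset.sum_congr rfl fun t _ => h1 t, Finset.sum_add_distrib, Finset.sum_ite_eq,
      if_pos (Finset.mem_univ _), Finset.sum_mul]
    refine congrArg (fun r => r + aeval f p * Polynomial.derivative (f s)) ?_
    exact Finset.sum_congr rfl fun t _ => by ring

/-- direction without the first coordinate -/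
def dv (N s : ℕ) : Fin N → ℤ := fun j => (s : ℤ) ^ (j.val + 1)

lemma dirm_cons (N s : ℕ) : dirm N s = Fin.cons 1 (dv N s) := by
  funext i
  refine Fin.cases ?_ (fun j => ?_) i
  · simp [dirm]
  · simp [dirm, dv]

lemma aeval_eval {σ : Type*} (f : σ → Polynomial ℤ) (t : ℤ) (P : MvPolynomial σ ℤ) :
    (aeval f P).eval t = eval (fun s => (f s).eval t) P := by
  have h : ((Polynomial.aeval t).comp (aeval f) : MvPolynomial σ ℤ →ₐ[ℤ] ℤ) =
      aeval (fun s => (f s).eval t) := by
    apply MvPolynomial.algHom_ext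
    intro s
    simp
  have h2 := DFunLike.congr_fun h P
  rw [AlgHom.comp_apply] at h2
  simpa using h2

lemma line_der {n : ℕ} (v x : Fin n → ℤ) (t : ℤ) (P : MvPolynomial (Fin (n + 1)) ℤ) :
    (Pool.Agent.H39b.line v x P).derivative.eval t =
      dwi (Fin.cons 1 v) (Fin.cons t (fun j => x j + v j * t) : Fin (n + 1) → ℤ) P := by
  have h0 : ∀ Q : MvPolynomial (Fin (n + 1)) ℤ, (Pool.Agent.H39b.line v x Q).eval t =
      eval (Fin.cons t (fun j => x j + v j * t) : Fin (n + 1) → ℤ) Q := fun Q =>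
    Pool.Agent.H39b.eval_line v x t Q
  unfold dwi
  have h1 : (Pool.Agent.H39b.line v x P).derivative = ∑ s, Pool.Agent.H39b.line v x (pderiv s P) *
      Polynomial.derivative ((Fin.cons Polynomial.X (fun j => Polynomial.C (x j) +
        Polynomial.C (v j) * Polynomial.X) : Fin (n + 1) → Polynomial ℤ) s) := by
    unfold Pool.Agent.H39b.line
    exact der_comp _ P
  rw [h1, Polynomial.eval_finsetSum, Fin.sum_univ_succ, Fin.sum_univ_succ]
  congr 1
  · rw [Polynomial.eval_mul, h0]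
    simp
  · refine Finset.sum_congr rfl fun j _ => ?_
    rw [Polynomial.eval_mul, h0]
    simp [mul_comm]

lemma line_deg {n : ℕ} (v x : Fin n → ℤ) (P : MvPolynomial (Fin (n + 1)) ℤ) :
    (Pool.Agent.H39b.line v x P).natDegree ≤ P.totalDegree := by
  have h := MvPolynomial.aeval_natDegree_le (n := 1) P le_rfl
    (Fin.cons Polynomial.X (fun j => Polynomial.C (x j) +
        Polynomial.C (v j) * Polynomial.X) : Fin (n + 1) → Polynomial ℤ) (by
      intro i
      refine Fin.cases ?_ (fun j => ?_) i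
      · simp
      · simp only [Fin.cons_succ]
        refine (Polynomial.natDegree_add_le _ _).trans ?_
        apply max_le
        · simp
        · refine (Polynomial.natDegree_C_mul_le _ _).trans ?_
          simp)
  rw [mul_one] at h
  exact h

/-- the number of admissible integers -/
theorem fiber_count {Φ : Type} [Fintype Φ] (f : Φ → Polynomial ℤ) (d : ℕ) (hd1 : 1 ≤ d)
    (hd : ∀ φ, (f φ).natDegree ≤ d) (Nn : ℕ) (hNn : Nn ≠ 0) (L : ℕ) (E : ℝ) (hE : 1 ≤ E)
    (cc : ℕ) (hcc : Fintype.card Φ * d ≤ cc) (hcc1 : 1 ≤ cc) (S : Finset ℤ)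
    (hS : ∀ t ∈ S, ∃ Q l : ℕ, 0 < Q ∧ Q ∣ Nn ∧ l ≤ L + 1 ∧
      (∀ p ∈ Q.primeFactors, ∃ φ, (f φ).eval t ≠ 0 ∧
        (p : ℝ) ^ (Q.factorization p) * (padicNorm p (((f φ).eval t : ℤ) : ℚ) : ℝ) ≤
          (padicNorm p (((f φ).derivative.eval t : ℤ) : ℚ) : ℝ)) ∧
      (|(t : ℝ)| ≤ 2 ^ l ∨ ∃ φ, (f φ).eval t ≠ 0 ∧
        |(((f φ).eval t : ℤ) : ℝ)| ≤ 2 ^ l * |(((f φ).derivative.eval t : ℤ) : ℝ)|) ∧
      (2 : ℝ) ^ l ≤ Q * E) :
    (#S : ℝ) ≤ Nn.divisors.card * (L + 2) * ((cc : ℝ) ^ #Nn.primeFactors * (cc + 1) *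
      ((2 * d + 1) * E)) := by
  classical
  choose! Q l hQ0 hQN hlL hp hinf hE2 using hS
  set T : Finset (ℕ × ℕ) := Nn.divisors ×ˢ range (L + 2) with hT
  have hmaps : ∀ t ∈ S, (Q t, l t) ∈ T := by
    intro t ht
    rw [hT, mem_product, Nat.mem_divisors, mem_range]
    exact ⟨⟨hQN t ht, hNn⟩, by have := hlL t ht; omega⟩
  have hcc1R : (1 : ℝ) ≤ cc := by exact_mod_cast hcc1
  have hfib : ∀ b ∈ T, (#(S.filter (fun t => (Q t, l t) = b)) : ℝ) ≤
      (cc : ℝ) ^ #Nn.primeFactors * (cc + 1) * ((2 * d + 1) * E) := by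
    intro b hb
    rcases (S.filter (fun t => (Q t, l t) = b)).eq_empty_or_nonempty with hemp | ⟨t0, ht0⟩
    · rw [hemp, card_empty, Nat.cast_zero]
      positivity
    rw [mem_filter] at ht0
    obtain ⟨ht0S, ht0b⟩ := ht0
    have hbQ : b.1 = Q t0 := by rw [← ht0b]
    have hbl : b.2 = l t0 := by rw [← ht0b]
    have hb0 : 0 < b.1 := by rw [hbQ]; exact hQ0 t0 ht0S
    have hbN : b.1 ∣ Nn := by rw [hbQ]; exact hQN t0 ht0S
    have h1 := line_count f d hd1 hd b.1 hb0 ((2 : ℝ) ^ b.2) (by positivity)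
      (S.filter (fun t => (Q t, l t) = b)) (by
        intro p hpb t ht
        rw [mem_filter] at ht
        have h2 : b.1 = Q t := by rw [← ht.2]
        rw [h2] at hpb ⊢
        exact hp t ht.1 p hpb) (by
        intro t ht
        rw [mem_filter] at ht
        have h2 : b.2 = l t := by rw [← ht.2]
        rw [h2]
        exact hinf t ht.1)
    refine h1.trans ?_
    have h3 : ((Fintype.card Φ * d : ℕ) : ℝ) ≤ cc := by exact_mod_cast hcc
    have h4 : ((Fintype.card Φ * d : ℕ) : ℝ) ^ #b.1.primeFactors ≤ (cc : ℝ) ^ #Nn.primeFactors := by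
      calc ((Fintype.card Φ * d : ℕ) : ℝ) ^ #b.1.primeFactors ≤ (cc : ℝ) ^ #b.1.primeFactors :=
            pow_le_pow_left₀ (by positivity) h3 _
        _ ≤ _ := pow_le_pow_right₀ hcc1R (card_le_card (Nat.primeFactors_mono hbN hNn))
    have hb0R : (0 : ℝ) < b.1 := by exact_mod_cast hb0
    have h5 : (2 : ℝ) ^ b.2 / b.1 ≤ E := by
      rw [div_le_iff₀ hb0R, mul_comm, hbQ, hbl]
      exact hE2 t0 ht0S
    have h6 : 2 * ((d : ℝ) * 2 ^ b.2) / b.1 + 1 ≤ (2 * d + 1) * E := by
      have h7 : 2 * ((d : ℝ) * 2 ^ b.2) / b.1 = 2 * d * ((2 : ℝ) ^ b.2 / b.1) := by ring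
      rw [h7]
      have h8 : 2 * (d : ℝ) * ((2 : ℝ) ^ b.2 / b.1) ≤ 2 * d * E :=
        mul_le_mul_of_nonneg_left h5 (by positivity)
      linarith
    have h9 : 0 ≤ 2 * ((d : ℝ) * 2 ^ b.2) / b.1 + 1 := by positivity
    calc ((Fintype.card Φ * d : ℕ) : ℝ) ^ #b.1.primeFactors * ((Fintype.card Φ * d : ℕ) + 1) *
        (2 * ((d : ℝ) * 2 ^ b.2) / b.1 + 1) ≤ (cc : ℝ) ^ #Nn.primeFactors * (cc + 1) *
        (2 * ((d : ℝ) * 2 ^ b.2) / b.1 + 1) := by
          apply mul_le_mul_of_nonneg_right _ h9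
          exact mul_le_mul h4 (by linarith) (by positivity) (by positivity)
      _ ≤ _ := mul_le_mul_of_nonneg_left h6 (by positivity)
  have hcard := card_eq_sum_card_fiberwise hmaps
  calc (#S : ℝ) = ∑ b ∈ T, (#(S.filter (fun t => (Q t, l t) = b)) : ℝ) := by
        rw [hcard]; push_cast; rfl
    _ ≤ ∑ _b ∈ T, ((cc : ℝ) ^ #Nn.primeFactors * (cc + 1) * ((2 * d + 1) * E)) := sum_le_sum hfib
    _ = _ := by
        rw [sum_const, nsmul_eq_mul, hT, card_product, card_range]
        push_cast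
        ring

end Pool.Agent.H39v
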