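import Pool.Agent.H39v.Count

set_option autoImplicit false

/-!
The main counting theorem.
-/

namespace Pool.Agent.H39v

open MvPolynomial Finset

variable {N M g q w : ℕ}

lemma log_le' (K ε : ℝ) (hε : 0 < ε) :
    ∃ C : ℝ, 0 < C ∧ ∀ T : ℝ, 1 ≤ T → K * Real.log T + 2 ≤ C * T ^ ε := by
  refine ⟨|K| / ε + 2, by positivity, fun T hT => ?_⟩
  have h1 : Real.log T ≤ T ^ ε / ε := Real.log_le_rpow_div (by linarith) hε
  have h2 : 0 ≤ Real.log T := Real.log_nonneg hT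
  have h3 : 1 ≤ T ^ ε := Real.one_le_rpow hT hε.le
  calc K * Real.log T + 2 ≤ |K| * (T ^ ε / ε) + 2 * T ^ ε := by
        have := le_abs_self K
        have h4 := abs_nonneg K
        nlinarith [mul_le_mul_of_nonneg_left h1 h4, mul_le_mul_of_nonneg_right this h2]
    _ = (|K| / ε + 2) * T ^ ε := by ring

lemma count_three (K0 n : ℕ) (T : Finset (Fin (N + 1) → ℤ)) (Z : ℝ)
    (s0 : (Fin (N + 1) → ℤ) → Fin K0) (hT : ∀ x ∈ T, ∀ i, |x i| ≤ n)
    (hfib : ∀ (s : Fin K0) (x' : Fin N → ℤ),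
      (#(T.filter (fun x => (s0 x, xp N (s0 x) x) = (s, x'))) : ℝ) ≤ Z) :
    (#T : ℝ) ≤ K0 * (2 * ((1 + K0 ^ N) * n : ℕ) + 1) ^ N * Z := by
  classical
  set n' : ℕ := (1 + K0 ^ N) * n with hn'
  set box := Fintype.piFinset fun _ : Fin N => Finset.Icc (-(n' : ℤ)) n' with hbox
  have hmaps : ∀ x ∈ T, (s0 x, xp N (s0 x) x) ∈ (univ : Finset (Fin K0)) ×ˢ box := by
    intro x hx
    rw [mem_product]
    exact ⟨mem_univ _, mem_box n' _ (fun j => xp_le (s0 x) K0 n (s0 x).2 x (hT x hx) j)⟩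
  have hcard := card_eq_sum_card_fiberwise hmaps
  calc (#T : ℝ) = ∑ b ∈ (univ : Finset (Fin K0)) ×ˢ box,
        (#(T.filter (fun x => (s0 x, xp N (s0 x) x) = b)) : ℝ) := by
        rw [hcard]; push_cast; rfl
    _ ≤ ∑ _b ∈ (univ : Finset (Fin K0)) ×ˢ box, Z := sum_le_sum fun b _ => hfib b.1 b.2
    _ = _ := by
        rw [sum_const, nsmul_eq_mul, card_product, card_univ, Fintype.card_fin, hbox,
          Pool.Agent.H39b.card_box]
        push_cast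
        ring

theorem count_main {Ψ : Fin (M + 1) → MvPolynomial (Fin (N + 1)) ℤ} {e : ℕ}
    (hΨ : ∀ j, (Ψ j).IsHomogeneous e) (hΨ0 : ∃ j, Ψ j ≠ 0)
    (hcop : ∀ r : MvPolynomial (Fin (N + 1)) ℤ, (∀ j, r ∣ Ψ j) → r.totalDegree = 0)
    {G : Fin g → MvPolynomial (Fin (N + 1) ⊕ Fin (M + 1)) ℤ}
    {F : Fin q → Fin w → MvPolynomial (Fin (N + 1) ⊕ Fin (M + 1)) ℤ} (h : Smth G F)
    (aG bG : Fin g → ℕ) (hG : ∀ k, IsBihom (G k) (aG k) (bG k))
    (hGΨ : ∀ k, aeval (Sum.elim X Ψ) (G k) = 0)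
    (aF bF : Fin q → Fin w → ℕ) (hF : ∀ i j, IsBihom (F i j) (aF i j) (bF i j))
    (C1 : ℝ) (hC1 : 1 ≤ C1) (S : Finset ℕ) (hS : ∀ p ∈ S, p.Prime)
    (κ c δ : ℝ) (hκ : 0 ≤ κ) (hδ : 0 < δ) :
    ∃ C : ℝ, 0 < C ∧ ∀ B : ℝ, 1 ≤ B → ∀ T : Finset (Fin (N + 1) → ℤ),
      (∀ x ∈ T, (hgt x : ℝ) ≤ B ∧ Exc Ψ G aG bG F aF bF C1 S κ c x) →
      (#T : ℝ) ≤ C * B ^ ((N : ℝ) + max 0 (1 - κ / ((N : ℝ) + 1)) + δ) := by
  classical
  set δ1 : ℝ := δ / 6 with hδ1
  have hδ10 : 0 < δ1 := by positivity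
  obtain ⟨K1, hK1⟩ := exists_nat_gt (κ * N / δ1)
  set K0 : ℕ := K1 + N + 1 with hK0def
  have hK0 : 0 < K0 := by omega
  have hNK : N ≤ K0 := by omega
  obtain ⟨PS, C, hPS, hC, hpt⟩ := pointwise hΨ h aG bG hG hGΨ aF bF hF C1 hC1 S hS K0 hK0 hNK
    κ c δ1 hκ hδ10
  set Φ := Fin (M + 1) ⊕ (Fin q × Fin w) with hΦ
  set d : ℕ := 1 + ∑ φ : Fin (M + 1) ⊕ (Fin q × Fin w), (fam Ψ F φ).totalDegree with hd
  have hdφ : ∀ φ, (fam Ψ F φ).totalDegree ≤ d := by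
    intro φ
    have := single_le_sum (f := fun φ => (fam Ψ F φ).totalDegree) (fun _ _ => Nat.zero_le _)
      (mem_univ φ)
    rw [hd]
    omega
  set cc : ℕ := Fintype.card (Fin (M + 1) ⊕ (Fin q × Fin w)) * d + 1 with hcc
  choose R u hR0 hRu using fun s : Fin K0 => Pool.Agent.H39b.elim Ψ hΨ0 hcop (dv N s)
  choose CR hCR0 hCR using fun s : Fin K0 => Pool.Agent.H39b.eval_size (R s)
  set r : ℕ := ∑ s, (R s).totalDegree with hr
  set CRs : ℝ := 1 + ∑ s, CR s with hCRs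
  have hCRs1 : 1 ≤ CRs := by
    have : 0 ≤ ∑ s, CR s := sum_nonneg fun s _ => (hCR0 s).le
    linarith
  -- `PS ≤ 2 ^ PS`
  set Wn : ℝ := 1 + (K0 : ℝ) ^ N with hWn
  have hWn1 : 1 ≤ Wn := by
    have : (0 : ℝ) ≤ (K0 : ℝ) ^ N := by positivity
    linarith
  set C4 : ℝ := CRs * Wn ^ r * 2 ^ PS with hC4
  have hC41 : 1 ≤ C4 := by
    have h1 : 1 ≤ Wn ^ r := one_le_pow₀ hWn1
    have h2 : (1 : ℝ) ≤ 2 ^ PS := one_le_pow₀ (by norm_num)
    have h3 : 1 ≤ CRs * Wn ^ r := by nlinarith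
    rw [hC4]; nlinarith
  set δ2 : ℝ := δ1 / ((r : ℝ) + PS + 1) with hδ2
  have hδ20 : 0 < δ2 := by positivity
  obtain ⟨Cd, hCd, hdiv⟩ := Pool.Agent.H505R2.div_bound hδ20
  obtain ⟨Cw, hCw, hom⟩ := omega_bound (cc : ℝ) (by rw [hcc]; push_cast; linarith [show (0:ℝ) ≤
    (Fintype.card (Fin (M + 1) ⊕ (Fin q × Fin w)) : ℝ) * (d : ℝ) by positivity]) hδ20
  obtain ⟨Cl, hCl0, hCl⟩ := log_le' (1 / Real.log 2) δ1 hδ10
  set Z0 : ℝ := Cd * C4 ^ δ2 * (Cl + 1) * (Cw * C4 ^ δ2) * (cc + 1) * ((2 * d + 1) * C) with hZ0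
  set m : ℝ := max 0 (1 - κ / ((N : ℝ) + 1)) with hm
  have hm0 : 0 ≤ m := le_max_left _ _
  set Ct : ℝ := (∑ φ : Fin (M + 1) ⊕ (Fin q × Fin w), ((fam Ψ F φ).totalDegree : ℝ)) * 3 ^ N +
    (∑ s, ((R s).totalDegree : ℝ)) * (3 * Wn) ^ N + K0 * (3 * Wn) ^ N * Z0 + 1 with hCt
  have hZ00 : 0 ≤ Z0 := by positivity
  refine ⟨Ct, by positivity, ?_⟩
  intro B hB T hT
  have hB0 : 0 < B := by linarith
  set n : ℕ := ⌊B⌋₊ with hn
  have hnB : (n : ℝ) ≤ B := Nat.floor_le hB0.le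
  have hn1 : 1 ≤ n := Nat.le_floor (by simpa using hB)
  have hn1R : (1 : ℝ) ≤ n := by exact_mod_cast hn1
  have hTn : ∀ x ∈ T, ∀ i, |x i| ≤ n := by
    intro x hx i
    have h1 := (hT x hx).1
    have h2 : hgt x ≤ n := Nat.le_floor h1
    have h3 : (x i).natAbs ≤ hgt x :=
      Finset.le_sup (f := fun i => (x i).natAbs) (Finset.mem_univ i)
    rw [Int.abs_eq_natAbs]
    exact_mod_cast h3.trans h2
  set n' : ℕ := (1 + K0 ^ N) * n with hn'
  have hn'1 : 1 ≤ n' := by rw [hn']; nlinarith [Nat.zero_le (K0 ^ N)]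
  have hn'1R : (1 : ℝ) ≤ n' := by exact_mod_cast hn'1
  have hn'B : (n' : ℝ) ≤ Wn * B := by
    rw [hn', hWn]
    push_cast
    exact mul_le_mul_of_nonneg_left hnB (by positivity)
  have hbox1 : (2 * (n : ℝ) + 1) ^ N ≤ 3 ^ N * B ^ (N : ℝ) := by
    rw [Real.rpow_natCast, ← mul_pow]
    exact pow_le_pow_left₀ (by positivity) (by linarith) _
  have hbox2 : (2 * (n' : ℝ) + 1) ^ N ≤ (3 * Wn) ^ N * B ^ (N : ℝ) := by
    rw [Real.rpow_natCast, ← mul_pow]
    exact pow_le_pow_left₀ (by positivity) (by linarith) _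
  -- the exponent of two
  obtain ⟨n0, hn01, hn02⟩ := exists_nat_pow_near hB (one_lt_two (α := ℝ))
  set L : ℕ := n0 + 1 with hL
  have hBL : B ≤ 2 ^ L := hn02.le
  have hL2 : (2 : ℝ) ^ L ≤ 2 * B := by rw [hL, pow_succ]; linarith
  have hLlog : (L : ℝ) + 2 ≤ (Cl + 1) * B ^ δ1 := by
    have h1 : (n0 : ℝ) ≤ 1 / Real.log 2 * Real.log B := by
      have h2 : (n0 : ℝ) * Real.log 2 ≤ Real.log B := by
        rw [← Real.log_pow]
        exact Real.log_le_log (by positivity) hn01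
      have h3 : 0 < Real.log 2 := Real.log_pos one_lt_two
      rw [one_div, ← div_eq_inv_mul, le_div_iff₀ h3]
      exact h2
    have h2 := hCl B hB
    have h3 : 1 ≤ B ^ δ1 := Real.one_le_rpow hB hδ10.le
    rw [hL]
    push_cast
    nlinarith
  -- the three parts
  set T1 := T.filter (fun x => ∃ φ, eval x (fam Ψ F φ) = 0 ∧ fam Ψ F φ ≠ 0) with hT1
  set T2 := T.filter (fun x => ∃ s : Fin K0, eval (xp N s x) (R s) = 0) with hT2
  set T3 := T.filter (fun x => (∀ φ, eval x (fam Ψ F φ) = 0 → fam Ψ F φ = 0) ∧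
    ∀ s : Fin K0, eval (xp N s x) (R s) ≠ 0) with hT3
  have hsub : T ⊆ T1 ∪ (T2 ∪ T3) := by
    intro x hx
    by_cases h1 : ∃ φ, eval x (fam Ψ F φ) = 0 ∧ fam Ψ F φ ≠ 0
    · exact mem_union_left _ (mem_filter.2 ⟨hx, h1⟩)
    · apply mem_union_right
      by_cases h2 : ∃ s : Fin K0, eval (xp N s x) (R s) = 0
      · exact mem_union_left _ (mem_filter.2 ⟨hx, h2⟩)
      · apply mem_union_right
        push Not at h1 h2
        exact mem_filter.2 ⟨hx, h1, h2⟩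
  have hc1 : (#T1 : ℝ) ≤ (∑ φ : Fin (M + 1) ⊕ (Fin q × Fin w), ((fam Ψ F φ).totalDegree : ℝ)) *
      (2 * n + 1) ^ N := by
    apply count_one (fam Ψ F) n T1
    intro x hx
    exact ⟨hTn x (mem_filter.1 hx).1, (mem_filter.1 hx).2⟩
  have hc2 : (#T2 : ℝ) ≤ (∑ s, ((R s).totalDegree : ℝ)) * (2 * n' + 1) ^ N := by
    apply count_two K0 R hR0 n T2
    intro x hx
    exact ⟨hTn x (mem_filter.1 hx).1, (mem_filter.1 hx).2⟩
  -- third part
  set E : ℝ := C * B ^ δ1 * max 1 (B ^ (1 - κ * (1 - (N : ℝ) / K0) / ((N : ℝ) + 1))) with hE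
  have hBδ1 : 1 ≤ B ^ δ1 := Real.one_le_rpow hB hδ10.le
  have hE1 : 1 ≤ E := by
    have h1 : 1 ≤ C * B ^ δ1 := by nlinarith
    have h2 : 1 ≤ max 1 (B ^ (1 - κ * (1 - (N : ℝ) / K0) / ((N : ℝ) + 1))) := le_max_left _ _
    rw [hE]; nlinarith
  have hEB : E ≤ C * B ^ δ1 * B ^ (m + δ1) := by
    rw [hE]
    apply mul_le_mul_of_nonneg_left _ (by positivity)
    apply max_le
    · exact Real.one_le_rpow hB (by positivity)
    · apply Real.rpow_le_rpow_of_exponent_le hB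
      have h1 : 1 - κ / ((N : ℝ) + 1) ≤ m := le_max_right _ _
      have hK0R : (0 : ℝ) < K0 := by exact_mod_cast hK0
      have h2 : κ * (N / K0) / ((N : ℝ) + 1) ≤ δ1 := by
        have h3 : κ * N ≤ δ1 * K0 := by
          rw [div_lt_iff₀ hδ10] at hK1
          have h4 : (K1 : ℝ) ≤ K0 := by exact_mod_cast (by omega : K1 ≤ K0)
          nlinarith
        have h4 : κ * (N / K0) ≤ δ1 := by
          rw [← mul_div_assoc, div_le_iff₀ hK0R]
          exact h3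
        have h5 : 0 ≤ κ * ((N : ℝ) / K0) := by positivity
        calc κ * (N / K0) / ((N : ℝ) + 1) ≤ κ * (N / K0) := div_le_self h5 (by
              have : (0 : ℝ) ≤ N := by positivity
              linarith)
          _ ≤ δ1 := h4
      have h3 : κ * (1 - (N : ℝ) / K0) / ((N : ℝ) + 1) = κ / ((N : ℝ) + 1) -
          κ * (N / K0) / ((N : ℝ) + 1) := by ring
      rw [h3]
      linarith
  have hpt3 : ∀ x ∈ T3, ∃ (s : Fin K0) (g0 Q l : ℕ), g0 ≠ 0 ∧ (∀ j, (g0 : ℤ) ∣ eval x (Ψ j)) ∧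
      0 < Q ∧ Q ∣ g0 * PS ^ L ∧ l ≤ L + 1 ∧
      (∀ p ∈ Q.primeFactors, ∃ φ, eval x (fam Ψ F φ) ≠ 0 ∧
        (p : ℝ) ^ (Q.factorization p) * (padicNorm p ((eval x (fam Ψ F φ) : ℤ) : ℚ) : ℝ) ≤
          (padicNorm p ((dwi (dirm N s) x (fam Ψ F φ) : ℤ) : ℚ) : ℝ)) ∧
      ((hgt x : ℝ) ≤ 2 ^ l ∨ ∃ φ, eval x (fam Ψ F φ) ≠ 0 ∧
        |((eval x (fam Ψ F φ) : ℤ) : ℝ)| ≤ 2 ^ l * |(dwi (dirm N s) x (fam Ψ F φ) : ℝ)|) ∧
      (2 : ℝ) ^ l ≤ Q * E := by
    intro x hx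
    obtain ⟨hxT, hx1, hx2⟩ := mem_filter.1 hx
    obtain ⟨hxB, y, g0, gR, ρI, ρF, ρP, e1, e2, e3, e4, e5, e6, e7, e8, e9, e10, e11, e12, e13,
      e14, e15⟩ := hT x hxT
    obtain ⟨s, Q, l, f1, f2, f3, f4, f5, f6⟩ := hpt B L hB hBL x y g0 gR ρI ρF ρP e1 e2 e3 e4 e5
      hxB hx1 e6 e7 e8 e9 e10 e11 e12 e13 e14 e15
    refine ⟨s, g0, Q, l, e3.ne', fun j => ?_, f1, f2, f3, f4, f5, f6⟩
    rw [e5 j]
    exact dvd_mul_right _ _
  have : Nonempty (Fin K0) := ⟨⟨0, hK0⟩⟩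
  choose! s0 hs0 using hpt3
  have hc3 : (#T3 : ℝ) ≤ K0 * (2 * n' + 1) ^ N * (Z0 * B ^ (m + 5 * δ1)) := by
    refine count_three K0 n T3 _ s0 (fun x hx => hTn x (mem_filter.1 hx).1) ?_
    intro s x'
    set Fb := T3.filter (fun x => (s0 x, xp N (s0 x) x) = (s, x')) with hFb
    rcases Fb.eq_empty_or_nonempty with hemp | ⟨x1, hx1⟩
    · rw [hemp, card_empty, Nat.cast_zero]
      positivity
    have hFbx : ∀ x ∈ Fb, x ∈ T3 ∧ s0 x = s ∧ xp N s x = x' := by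
      intro x hx
      obtain ⟨h1, h2⟩ := mem_filter.1 hx
      simp only [Prod.mk.injEq] at h2
      refine ⟨h1, h2.1, ?_⟩
      rw [← h2.1]
      exact h2.2
    have hRx' : eval x' (R s) ≠ 0 := by
      obtain ⟨h1, h2, h3⟩ := hFbx x1 hx1
      rw [← h3]
      exact (mem_filter.1 h1).2.2 s
    set Nn : ℕ := (eval x' (R s)).natAbs * PS ^ L with hNn
    have hNn0 : Nn ≠ 0 := mul_ne_zero (Int.natAbs_ne_zero.2 hRx') (pow_ne_zero _ hPS.ne')
    -- the divisor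
    have hdvd : ∀ x ∈ Fb, ∀ g0 : ℕ, (∀ j, (g0 : ℤ) ∣ eval x (Ψ j)) → g0 ∣ (eval x' (R s)).natAbs := by
      intro x hx g0 hg0
      obtain ⟨h1, h2, h3⟩ := hFbx x hx
      have h4 := congrArg (fun Pp => Polynomial.eval (x 0) (Polynomial.map (eval x') Pp)) (hRu s)
      simp only [Polynomial.map_C, Polynomial.eval_C, Polynomial.map_sum, Polynomial.map_mul,
        Polynomial.eval_finsetSum, Polynomial.eval_mul] at h4
      have h5 : ∀ j, Polynomial.eval (x 0) (Polynomial.map (eval x') (Pool.Agent.H39b.sh (dv N s) (Ψ j))) =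
          eval x (Ψ j) := by
        intro j
        rw [Pool.Agent.H39b.eval_sh, ← h3, recon]
      apply Int.natCast_dvd.1
      rw [h4]
      refine Finset.dvd_sum fun j _ => ?_
      rw [h5 j]
      exact (hg0 j).mul_left _
    have hcardim : #Fb = #(Fb.image (fun x => x 0)) := by
      symm
      apply card_image_of_injOn
      intro x hx x2 hx2 hxx
      obtain ⟨_, _, h3⟩ := hFbx x hx
      obtain ⟨_, _, h4⟩ := hFbx x2 hx2
      simp only at hxx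
      rw [← recon (s : ℕ) x, ← recon (s : ℕ) x2, h3, h4, hxx]
    have hfc := fiber_count (fun φ => Pool.Agent.H39b.line (dv N s) x' (fam Ψ F φ)) d (by omega)
      (fun φ => (line_deg _ _ _).trans (hdφ φ)) Nn hNn0 L E hE1 cc (by omega) (by omega)
      (Fb.image (fun x => x 0)) (by
        intro t ht
        rw [mem_image] at ht
        obtain ⟨x, hx, rfl⟩ := ht
        obtain ⟨h1, h2, h3⟩ := hFbx x hx
        obtain ⟨g0, Q, l, f0, f1, f2, f3, f4, f5, f6, f7⟩ := hs0 x h1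
        rw [h2] at f5 f6
        have hev : ∀ Pp : MvPolynomial (Fin (N + 1)) ℤ,
            (Pool.Agent.H39b.line (dv N s) x' Pp).eval (x 0) = eval x Pp := by
          intro Pp
          rw [Pool.Agent.H39b.eval_line, ← h3, recon]
        have hde : ∀ Pp : MvPolynomial (Fin (N + 1)) ℤ,
            (Pool.Agent.H39b.line (dv N s) x' Pp).derivative.eval (x 0) = dwi (dirm N s) x Pp := by
          intro Pp
          rw [line_der, ← h3, recon, dirm_cons]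
        refine ⟨Q, l, f2, ?_, f4, ?_, ?_, f7⟩
        · exact f3.trans (mul_dvd_mul (hdvd x hx g0 f1) dvd_rfl)
        · intro p hp
          obtain ⟨φ, hφ1, hφ2⟩ := f5 p hp
          refine ⟨φ, ?_, ?_⟩
          · rw [hev]; exact hφ1
          · rw [hev, hde]; exact hφ2
        · rcases f6 with h6 | ⟨φ, hφ1, hφ2⟩
          · left
            exact (le_hgt x 0).trans h6
          · right
            refine ⟨φ, ?_, ?_⟩
            · rw [hev]; exact hφ1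
            · rw [hev, hde]; exact hφ2)
    rw [← hcardim] at hfc
    refine hfc.trans ?_
    -- sizes
    have hNnB : (Nn : ℝ) ≤ C4 * B ^ ((r : ℝ) + PS) := by
      obtain ⟨h1, h2, h3⟩ := hFbx x1 hx1
      have h4 : ∀ j, |(x' j : ℝ)| ≤ n' := by
        intro j
        rw [← h3]
        have := xp_le (s : ℕ) K0 n s.2 x1 (hTn x1 (mem_filter.1 h1).1) j
        exact_mod_cast this
      have h5 := hCR s x' (n' : ℝ) hn'1R h4
      have h6 : ((eval x' (R s)).natAbs : ℝ) ≤ CRs * (Wn * B) ^ r := by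
        rw [Nat.cast_natAbs]
        push_cast
        refine h5.trans ?_
        have h7 : CR s ≤ CRs := by
          have := single_le_sum (f := CR) (fun s _ => (hCR0 s).le) (mem_univ s)
          rw [hCRs]; linarith
        have h8 : (R s).totalDegree ≤ r :=
          single_le_sum (f := fun s => (R s).totalDegree) (fun _ _ => Nat.zero_le _) (mem_univ s)
        calc CR s * (n' : ℝ) ^ (R s).totalDegree ≤ CRs * (n' : ℝ) ^ r :=
              mul_le_mul h7 (pow_le_pow_right₀ hn'1R h8) (by positivity) (by linarith)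
          _ ≤ CRs * (Wn * B) ^ r :=
              mul_le_mul_of_nonneg_left (pow_le_pow_left₀ (by positivity) hn'B _) (by linarith)
      have h7 : ((PS ^ L : ℕ) : ℝ) ≤ (2 * B) ^ PS := by
        push_cast
        calc (PS : ℝ) ^ L ≤ ((2 : ℝ) ^ PS) ^ L := by
              apply pow_le_pow_left₀ (by positivity)
              exact_mod_cast Nat.lt_two_pow_self.le
          _ = ((2 : ℝ) ^ L) ^ PS := by rw [← pow_mul, ← pow_mul, mul_comm]
          _ ≤ (2 * B) ^ PS := pow_le_pow_left₀ (by positivity) hL2 _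
      rw [hNn]
      push_cast at h7 ⊢
      calc ((eval x' (R s)).natAbs : ℝ) * (PS : ℝ) ^ L ≤ (CRs * (Wn * B) ^ r) * (2 * B) ^ PS :=
            mul_le_mul h6 h7 (by positivity) (by positivity)
        _ = C4 * B ^ ((r : ℝ) + PS) := by
            rw [Real.rpow_add hB0, Real.rpow_natCast, Real.rpow_natCast, hC4, mul_pow, mul_pow]
            ring
    have hNnδ : (Nn : ℝ) ^ δ2 ≤ C4 ^ δ2 * B ^ δ1 := by
      calc (Nn : ℝ) ^ δ2 ≤ (C4 * B ^ ((r : ℝ) + PS)) ^ δ2 :=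
            Real.rpow_le_rpow (by positivity) hNnB hδ20.le
        _ = C4 ^ δ2 * B ^ (((r : ℝ) + PS) * δ2) := by
            rw [Real.mul_rpow (by linarith) (by positivity), ← Real.rpow_mul hB0.le]
        _ ≤ C4 ^ δ2 * B ^ δ1 := by
            apply mul_le_mul_of_nonneg_left _ (by positivity)
            apply Real.rpow_le_rpow_of_exponent_le hB
            rw [hδ2, mul_div_assoc', div_le_iff₀ (by positivity)]
            nlinarith
    have g1 : (Nn.divisors.card : ℝ) ≤ Cd * C4 ^ δ2 * B ^ δ1 := by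
      calc (Nn.divisors.card : ℝ) ≤ Cd * (Nn : ℝ) ^ δ2 := hdiv Nn hNn0
        _ ≤ Cd * (C4 ^ δ2 * B ^ δ1) := mul_le_mul_of_nonneg_left hNnδ (by linarith)
        _ = _ := by ring
    have g2 : (cc : ℝ) ^ #Nn.primeFactors ≤ Cw * C4 ^ δ2 * B ^ δ1 := by
      calc (cc : ℝ) ^ #Nn.primeFactors ≤ Cw * (Nn : ℝ) ^ δ2 := hom Nn hNn0
        _ ≤ Cw * (C4 ^ δ2 * B ^ δ1) := mul_le_mul_of_nonneg_left hNnδ (by linarith)
        _ = _ := by ring
    have g3 : (2 * (d : ℝ) + 1) * E ≤ (2 * d + 1) * (C * B ^ δ1 * B ^ (m + δ1)) :=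
      mul_le_mul_of_nonneg_left hEB (by positivity)
    have hE0 : 0 ≤ E := by linarith
    calc (Nn.divisors.card : ℝ) * (L + 2) * ((cc : ℝ) ^ #Nn.primeFactors * (cc + 1) *
        ((2 * d + 1) * E)) ≤ (Cd * C4 ^ δ2 * B ^ δ1) * ((Cl + 1) * B ^ δ1) *
        ((Cw * C4 ^ δ2 * B ^ δ1) * (cc + 1) * ((2 * d + 1) * (C * B ^ δ1 * B ^ (m + δ1)))) := by
          apply mul_le_mul
          · exact mul_le_mul g1 hLlog (by positivity) (by positivity)
          · apply mul_le_mul _ g3 (by positivity) (by positivity)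
            exact mul_le_mul_of_nonneg_right g2 (by positivity)
          · positivity
          · positivity
      _ = Z0 * (B ^ δ1 * B ^ δ1 * B ^ δ1 * B ^ δ1 * B ^ (m + δ1)) := by rw [hZ0]; ring
      _ = Z0 * B ^ (m + 5 * δ1) := by
          rw [← Real.rpow_add hB0, ← Real.rpow_add hB0, ← Real.rpow_add hB0, ← Real.rpow_add hB0]
          congr 2
          ring
  -- conclusion
  have hX : 1 ≤ B ^ (m + δ) := Real.one_le_rpow hB (by positivity)
  have hexp : B ^ ((N : ℝ) + m + δ) = B ^ (N : ℝ) * B ^ (m + δ) := by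
    rw [← Real.rpow_add hB0]
    congr 1
    ring
  have hBN : 0 < B ^ (N : ℝ) := by positivity
  have hcard : (#T : ℝ) ≤ #T1 + #T2 + #T3 := by
    have h1 : #T ≤ #T1 + (#T2 + #T3) :=
      (card_le_card hsub).trans ((card_union_le _ _).trans (add_le_add le_rfl (card_union_le _ _)))
    have h2 : (#T : ℝ) ≤ #T1 + (#T2 + #T3) := by exact_mod_cast h1
    linarith
  have hs1 : (0 : ℝ) ≤ ∑ φ : Fin (M + 1) ⊕ (Fin q × Fin w), ((fam Ψ F φ).totalDegree : ℝ) := by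
    positivity
  have hs2 : (0 : ℝ) ≤ ∑ s, ((R s).totalDegree : ℝ) := by positivity
  have k1 : (#T1 : ℝ) ≤ (∑ φ : Fin (M + 1) ⊕ (Fin q × Fin w), ((fam Ψ F φ).totalDegree : ℝ)) *
      3 ^ N * (B ^ (N : ℝ) * B ^ (m + δ)) := by
    calc (#T1 : ℝ) ≤ (∑ φ : Fin (M + 1) ⊕ (Fin q × Fin w), ((fam Ψ F φ).totalDegree : ℝ)) *
          (3 ^ N * B ^ (N : ℝ)) := hc1.trans (mul_le_mul_of_nonneg_left hbox1 hs1)
      _ ≤ (∑ φ : Fin (M + 1) ⊕ (Fin q × Fin w), ((fam Ψ F φ).totalDegree : ℝ)) *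
          (3 ^ N * (B ^ (N : ℝ) * B ^ (m + δ))) := by
          apply mul_le_mul_of_nonneg_left _ hs1
          apply mul_le_mul_of_nonneg_left _ (by positivity)
          exact le_mul_of_one_le_right hBN.le hX
      _ = _ := by ring
  have k2 : (#T2 : ℝ) ≤ (∑ s, ((R s).totalDegree : ℝ)) * (3 * Wn) ^ N *
      (B ^ (N : ℝ) * B ^ (m + δ)) := by
    calc (#T2 : ℝ) ≤ (∑ s, ((R s).totalDegree : ℝ)) * ((3 * Wn) ^ N * B ^ (N : ℝ)) :=
          hc2.trans (mul_le_mul_of_nonneg_left hbox2 hs2)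
      _ ≤ (∑ s, ((R s).totalDegree : ℝ)) * ((3 * Wn) ^ N * (B ^ (N : ℝ) * B ^ (m + δ))) := by
          apply mul_le_mul_of_nonneg_left _ hs2
          apply mul_le_mul_of_nonneg_left _ (by positivity)
          exact le_mul_of_one_le_right hBN.le hX
      _ = _ := by ring
  have k3 : (#T3 : ℝ) ≤ K0 * (3 * Wn) ^ N * Z0 * (B ^ (N : ℝ) * B ^ (m + δ)) := by
    calc (#T3 : ℝ) ≤ K0 * (2 * n' + 1) ^ N * (Z0 * B ^ (m + 5 * δ1)) := hc3
      _ ≤ K0 * ((3 * Wn) ^ N * B ^ (N : ℝ)) * (Z0 * B ^ (m + δ)) := by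
          apply mul_le_mul
          · exact mul_le_mul_of_nonneg_left hbox2 (by positivity)
          · apply mul_le_mul_of_nonneg_left _ hZ00
            apply Real.rpow_le_rpow_of_exponent_le hB
            rw [hδ1]
            linarith
          · positivity
          · positivity
      _ = _ := by ring
  rw [hexp]
  have k4 : 0 ≤ B ^ (N : ℝ) * B ^ (m + δ) := by positivity
  calc (#T : ℝ) ≤ _ := hcard
    _ ≤ _ := add_le_add (add_le_add k1 k2) k3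
    _ ≤ Ct * (B ^ (N : ℝ) * B ^ (m + δ)) := by
        rw [hCt]
        linarith

end Pool.Agent.H39v
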