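import Pool.Agent.H39v.Bihom

set_option autoImplicit false

/-!
Maximal minors of the Jacobian matrix of a smooth pair, completed by coordinate rows.
-/

namespace Pool.Agent.H39v

open MvPolynomial

variable {N M g q w : ℕ}

/-- the variables in the chart `y_b = 1` -/
def colm (b : Fin (M + 1)) : Fin M ⊕ Fin (N + 1) → Fin (N + 1) ⊕ Fin (M + 1) :=
  Sum.elim (fun c => Sum.inr (b.succAbove c)) Sum.inl

/-- gradient in the chart -/
noncomputable def grd (b : Fin (M + 1)) (P : MvPolynomial (Fin (N + 1) ⊕ Fin (M + 1)) ℤ) :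
    Fin M ⊕ Fin (N + 1) → MvPolynomial (Fin (N + 1) ⊕ Fin (M + 1)) ℤ :=
  fun s => pderiv (colm b s) P

/-- the rows used for the completion -/
noncomputable def rw' (F : Fin q → Fin w → MvPolynomial (Fin (N + 1) ⊕ Fin (M + 1)) ℤ)
    (b : Fin (M + 1)) : (Fin q × Fin w) ⊕ (Fin M ⊕ Fin (N + 1)) →
      (Fin M ⊕ Fin (N + 1)) → MvPolynomial (Fin (N + 1) ⊕ Fin (M + 1)) ℤ :=
  Sum.elim (fun ij => grd b (F ij.1 ij.2)) (fun s => Pi.single s 1)

/-- the Jacobian matrix with the equations `K` and the rows `e` -/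
noncomputable def mat (G : Fin g → MvPolynomial (Fin (N + 1) ⊕ Fin (M + 1)) ℤ)
    (F : Fin q → Fin w → MvPolynomial (Fin (N + 1) ⊕ Fin (M + 1)) ℤ) (b : Fin (M + 1))
    (K : Fin M → Fin g) (e : Fin (N + 1) → (Fin q × Fin w) ⊕ (Fin M ⊕ Fin (N + 1))) :
    Matrix (Fin M ⊕ Fin (N + 1)) (Fin M ⊕ Fin (N + 1))
      (MvPolynomial (Fin (N + 1) ⊕ Fin (M + 1)) ℤ) :=
  Matrix.of (Sum.elim (fun m => grd b (G (K m))) (fun l => rw' F b (e l)))

/-- every component in `J` occurs among the rows -/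
def Cov (J : Finset (Fin q)) (e : Fin (N + 1) → (Fin q × Fin w) ⊕ (Fin M ⊕ Fin (N + 1))) : Prop :=
  ∀ i ∈ J, ∃ l j, e l = Sum.inl (i, j)

/-- `X = {G = 0}` is smooth of codimension `M` and the divisors with the equations `F i` have
strict normal crossings on `X`, at the complex points -/
def Smth (G : Fin g → MvPolynomial (Fin (N + 1) ⊕ Fin (M + 1)) ℤ)
    (F : Fin q → Fin w → MvPolynomial (Fin (N + 1) ⊕ Fin (M + 1)) ℤ) : Prop :=
  ∀ (x : Fin (N + 1) → ℂ) (y : Fin (M + 1) → ℂ), x ≠ 0 → y ≠ 0 →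
    (∀ k, aeval (Sum.elim x y) (G k) = 0) →
    ∃ (K : Fin M → Fin g) (J : Fin q → Fin w), LinearIndependent ℂ (Sum.elim
      (fun (a : Fin M) (s : Fin (N + 1) ⊕ Fin (M + 1)) =>
        aeval (Sum.elim x y) (pderiv s (G (K a))))
      (fun (i : {i : Fin q // ∀ j, aeval (Sum.elim x y) (F i j) = 0})
        (s : Fin (N + 1) ⊕ Fin (M + 1)) =>
        aeval (Sum.elim x y) (pderiv s (F i.1 (J i.1)))))

/-- restricting to the chart -/
lemma indep_chart {ι : Type*} [Fintype ι] {K : Type*} [Field K]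
    (v : ι → (Fin (N + 1) ⊕ Fin (M + 1)) → K) (y : Fin (M + 1) → K) (b : Fin (M + 1))
    (hb : y b ≠ 0) (he : ∀ r, ∑ j, y j * v r (Sum.inr j) = 0) (h : LinearIndependent K v) :
    LinearIndependent K (fun r s => v r (colm b s)) := by
  rw [Fintype.linearIndependent_iff] at h ⊢
  intro c hc
  apply h c
  have h1 : ∀ s : Fin M ⊕ Fin (N + 1), ∑ r, c r * v r (colm b s) = 0 := by
    intro s
    have := congrFun hc s
    simpa [Finset.sum_apply] using this
  funext s
  rw [Finset.sum_apply, Pi.zero_apply]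
  simp only [Pi.smul_apply, smul_eq_mul]
  rcases s with i | j
  · exact h1 (Sum.inr i)
  · by_cases hj : j = b
    · subst hj
      have h2 : y j * ∑ r, c r * v r (Sum.inr j) = 0 := by
        have h3 : ∑ r, c r * ∑ j', y j' * v r (Sum.inr j') = 0 :=
          Finset.sum_eq_zero fun r _ => by rw [he r, mul_zero]
        simp_rw [Finset.mul_sum] at h3
        rw [Finset.sum_comm, Fin.sum_univ_succAbove _ j] at h3
        have h4 : ∑ i : Fin M, ∑ r, c r * (y (j.succAbove i) * v r (Sum.inr (j.succAbove i))) = 0 := by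
          refine Finset.sum_eq_zero fun i _ => ?_
          have h5 := h1 (Sum.inl i)
          simp only [colm, Sum.elim_inl] at h5
          have h6 : ∑ r, c r * (y (j.succAbove i) * v r (Sum.inr (j.succAbove i))) =
              y (j.succAbove i) * ∑ r, c r * v r (Sum.inr (j.succAbove i)) := by
            rw [Finset.mul_sum]
            exact Finset.sum_congr rfl fun r _ => by ring
          rw [h6, h5, mul_zero]
        rw [h4, add_zero] at h3
        rw [Finset.mul_sum, ← h3]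
        exact Finset.sum_congr rfl fun r _ => by ring
      exact (mul_eq_zero.1 h2).resolve_left hb
    · obtain ⟨i, rfl⟩ := Fin.exists_succAbove_eq hj
      exact h1 (Sum.inl i)

theorem geo_ne {G : Fin g → MvPolynomial (Fin (N + 1) ⊕ Fin (M + 1)) ℤ}
    {F : Fin q → Fin w → MvPolynomial (Fin (N + 1) ⊕ Fin (M + 1)) ℤ} (h : Smth G F)
    (aG bG : Fin g → ℕ) (hG : ∀ k, IsBihom (G k) (aG k) (bG k))
    (aF bF : Fin q → Fin w → ℕ) (hF : ∀ i j, IsBihom (F i j) (aF i j) (bF i j))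
    (x : Fin (N + 1) → ℂ) (y : Fin (M + 1) → ℂ) (hx : x ≠ 0) (b : Fin (M + 1)) (hb : y b ≠ 0)
    (hz : ∀ k, aeval (Sum.elim x y) (G k) = 0) (J : Finset (Fin q))
    (hJ : ∀ i ∈ J, ∀ j, aeval (Sum.elim x y) (F i j) = 0) :
    ∃ (K : Fin M → Fin g) (e : Fin (N + 1) → (Fin q × Fin w) ⊕ (Fin M ⊕ Fin (N + 1))),
      Cov J e ∧ aeval (Sum.elim x y) (mat G F b K e).det ≠ 0 := by
  classical
  have hy : y ≠ 0 := fun h0 => hb (by rw [h0]; rfl)
  obtain ⟨K, J', hKJ⟩ := h x y hx hy hz
  -- restrict to `J`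
  have h1 := hKJ.comp (Sum.map id (fun i : J => (⟨i.1, hJ i.1 i.2⟩ :
    {i : Fin q // ∀ j, aeval (Sum.elim x y) (F i j) = 0}))) (by
      apply Function.Injective.sumMap Function.injective_id
      intro i i' hii
      exact Subtype.ext (by simpa using hii))
  have h2 := indep_chart _ y b hb (by
    intro r
    rcases r with m | i
    · have h3 := (hG (K m)).euler_eval (Sum.elim x y)
      rw [hz (K m), mul_zero] at h3
      simpa using h3
    · have h3 := (hF i.1 (J' i.1)).euler_eval (Sum.elim x y)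
      rw [hJ i.1 i.2, mul_zero] at h3
      simpa using h3) h1
  have h3 : (fun (r : Fin M ⊕ J) (s : Fin M ⊕ Fin (N + 1)) => ((Sum.elim
      (fun (a : Fin M) (s : Fin (N + 1) ⊕ Fin (M + 1)) =>
        aeval (Sum.elim x y) (pderiv s (G (K a))))
      (fun (i : {i : Fin q // ∀ j, aeval (Sum.elim x y) (F i j) = 0})
        (s : Fin (N + 1) ⊕ Fin (M + 1)) =>
        aeval (Sum.elim x y) (pderiv s (F i.1 (J' i.1))))) ∘ (Sum.map id (fun i : J => (⟨i.1, hJ i.1 i.2⟩ :
    {i : Fin q // ∀ j, aeval (Sum.elim x y) (F i j) = 0})))) r (colm b s)) =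
    Sum.elim (fun m s => aeval (Sum.elim x y) (grd b (G (K m)) s))
      (fun (i : J) s => aeval (Sum.elim x y) (grd b (F i.1 (J' i.1)) s)) := by
    funext r s
    rcases r with m | i <;> rfl
  rw [h3] at h2
  obtain ⟨e, he, hdet⟩ := ext_basis _ _ h2
  refine ⟨K, fun l => Sum.map (fun i : J => (i.1, J' i.1)) id (e l), ?_, ?_⟩
  · intro i hi
    obtain ⟨l, hl⟩ := he ⟨i, hi⟩
    exact ⟨l, J' i, by simp only [hl]; rfl⟩
  · rw [AlgHom.map_det]
    refine ne_of_eq_of_ne (congrArg Matrix.det ?_) hdet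
    ext r s
    rw [AlgHom.mapMatrix_apply, Matrix.map_apply]
    rcases r with m | l
    · rfl
    · simp only [mat, Matrix.of_apply, Sum.elim_inr]
      rcases hel : e l with i | t
      · rfl
      · simp only [Sum.map_inr, id_eq, rw', Sum.elim_inr, Pi.single_apply]
        split_ifs <;> simp

end Pool.Agent.H39v
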