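import Pool.Agent.H39v.LocInt
import Pool.Agent.H505R2.DivB

set_option autoImplicit false

/-!
Sizes of logarithmic derivatives at the places; the divisor bound.
-/

namespace Pool.Agent.H39v

open MvPolynomial

/-- `c ^ ω(n) ≤ C n ^ δ` -/
theorem omega_bound (c : ℝ) (hc : 1 ≤ c) {δ : ℝ} (hδ : 0 < δ) : ∃ C : ℝ, 1 ≤ C ∧ ∀ n : ℕ, n ≠ 0 →
    c ^ n.primeFactors.card ≤ C * (n : ℝ) ^ δ := by
  obtain ⟨k, hk⟩ := pow_unbounded_of_one_lt c (one_lt_two (α := ℝ))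
  set m := k + 1 with hm
  obtain ⟨C, hC, h⟩ := Pool.Agent.H505R2.div_bound (div_pos hδ (by positivity : (0 : ℝ) < m))
  refine ⟨C ^ m, one_le_pow₀ hC, fun n hn => ?_⟩
  have h2 : (2 : ℝ) ^ n.primeFactors.card ≤ n.divisors.card := by
    have h3 : 2 ^ n.primeFactors.card ≤ n.divisors.card := by
      rw [Nat.card_divisors hn, ← Finset.prod_const]
      refine Finset.prod_le_prod' fun p hp => ?_
      have := (Nat.mem_primeFactors.1 hp).1.factorization_pos_of_dvd hn (Nat.mem_primeFactors.1 hp).2.1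
      omega
    exact_mod_cast h3
  have h3 : c ≤ 2 ^ m := by
    refine hk.le.trans ?_
    rw [hm, pow_succ]
    have : (0 : ℝ) < 2 ^ k := by positivity
    linarith
  calc c ^ n.primeFactors.card ≤ (2 ^ m) ^ n.primeFactors.card :=
        pow_le_pow_left₀ (by linarith) h3 _
    _ = (2 ^ n.primeFactors.card) ^ m := by rw [← pow_mul, ← pow_mul, mul_comm]
    _ ≤ (n.divisors.card : ℝ) ^ m := pow_le_pow_left₀ (by positivity) h2 _
    _ ≤ (C * (n : ℝ) ^ (δ / m)) ^ m := pow_le_pow_left₀ (by positivity) (h n hn) _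
    _ = C ^ m * (n : ℝ) ^ δ := by
        rw [mul_pow, ← Real.rpow_natCast ((n : ℝ) ^ (δ / m)), ← Real.rpow_mul (by positivity)]
        congr 2
        have : (m : ℝ) ≠ 0 := by positivity
        field_simp

variable {ι : Type} [Fintype ι]

/-- exponent of the size of the logarithmic derivatives `b φ / a φ` at `p` -/
noncomputable def kap (p : ℕ) (a b : ι → ℤ) : ℕ :=
  Finset.univ.sup fun φ => if a φ = 0 ∨ b φ = 0 then 0 else padicValInt p (a φ) - padicValInt p (b φ)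

lemma padic_int (p : ℕ) [Fact p.Prime] (n : ℤ) (hn : n ≠ 0) :
    (padicNorm p (n : ℚ) : ℝ) = ((p : ℝ) ^ (padicValInt p n))⁻¹ := by
  have h1 : padicNorm p (n : ℚ) = (p : ℚ) ^ (-(padicValInt p n : ℤ)) := by
    rw [padicNorm.eq_zpow_of_nonzero (by exact_mod_cast hn), padicValRat.of_int]
  rw [h1]
  push_cast
  rw [zpow_neg, zpow_natCast]

lemma kap_bound (p : ℕ) [hp : Fact p.Prime] (a b : ι → ℤ) (hab : ∀ φ, a φ = 0 → b φ = 0) (φ : ι) :
    (padicNorm p (b φ : ℚ) : ℝ) ≤ (p : ℝ) ^ (kap p a b) * (padicNorm p (a φ : ℚ) : ℝ) := by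
  have hp0 : (1 : ℝ) ≤ p := by exact_mod_cast hp.out.one_lt.le
  have hp1 : (0 : ℝ) < p := by linarith
  by_cases hb : b φ = 0
  · rw [hb]
    simp only [Int.cast_zero, padicNorm.zero, Rat.cast_zero]
    have : (0 : ℝ) ≤ (padicNorm p (a φ : ℚ) : ℝ) := by exact_mod_cast padicNorm.nonneg _
    positivity
  have ha : a φ ≠ 0 := fun h => hb (hab φ h)
  rw [padic_int p _ ha, padic_int p _ hb, ← div_eq_mul_inv, inv_eq_one_div, div_le_div_iff₀
    (by positivity) (by positivity), one_mul, ← pow_add]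
  apply pow_le_pow_right₀ hp0
  have h1 : (if a φ = 0 ∨ b φ = 0 then 0 else padicValInt p (a φ) - padicValInt p (b φ)) ≤
      kap p a b := Finset.le_sup (f := fun φ => if a φ = 0 ∨ b φ = 0 then 0
        else padicValInt p (a φ) - padicValInt p (b φ)) (Finset.mem_univ φ)
  rw [if_neg (by tauto)] at h1
  omega

lemma kap_attained (p : ℕ) [hp : Fact p.Prime] (a b : ι → ℤ) (k : ℕ) (hk0 : k ≠ 0)
    (hk : k ≤ kap p a b) : ∃ φ, a φ ≠ 0 ∧
      (p : ℝ) ^ k * (padicNorm p (a φ : ℚ) : ℝ) ≤ (padicNorm p (b φ : ℚ) : ℝ) := by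
  have hp0 : (1 : ℝ) ≤ p := by exact_mod_cast hp.out.one_lt.le
  have hp1 : (0 : ℝ) < p := by linarith
  have hne : (Finset.univ : Finset ι).Nonempty := by
    by_contra hE
    rw [Finset.not_nonempty_iff_eq_empty] at hE
    unfold kap at hk
    rw [hE, Finset.sup_empty] at hk
    exact hk0 (by simpa using hk)
  obtain ⟨φ, -, hφ⟩ := Finset.exists_mem_eq_sup Finset.univ hne (fun φ =>
    if a φ = 0 ∨ b φ = 0 then 0 else padicValInt p (a φ) - padicValInt p (b φ))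
  have h1 : k ≤ if a φ = 0 ∨ b φ = 0 then 0 else padicValInt p (a φ) - padicValInt p (b φ) := by
    rw [← hφ]; exact hk
  have h2 : ¬ (a φ = 0 ∨ b φ = 0) := by
    intro h3
    rw [if_pos h3] at h1
    omega
  rw [if_neg h2] at h1
  push Not at h2
  refine ⟨φ, h2.1, ?_⟩
  rw [padic_int p _ h2.1, padic_int p _ h2.2, ← div_eq_mul_inv, inv_eq_one_div, div_le_div_iff₀
    (by positivity) (by positivity), one_mul, ← pow_add]
  apply pow_le_pow_right₀ hp0
  omega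

/-- size at the real place -/
lemma mu_inf (a b : ι → ℤ) (hab : ∀ φ, a φ = 0 → b φ = 0) (H : ℝ) (hH : 0 < H) :
    ∃ μ : ℝ, 1 ≤ μ ∧ (∀ φ, H * |(b φ : ℝ)| ≤ μ * |(a φ : ℝ)|) ∧
      (μ = 1 ∨ ∃ φ, a φ ≠ 0 ∧ μ * |(a φ : ℝ)| ≤ H * |(b φ : ℝ)|) := by
  classical
  by_cases hall : ∀ φ, H * |(b φ : ℝ)| ≤ 1 * |(a φ : ℝ)|
  · exact ⟨1, le_rfl, hall, Or.inl rfl⟩
  push Not at hall
  obtain ⟨φ0, hφ0⟩ := hall
  obtain ⟨φ, -, hφ⟩ := Finset.exists_max_image Finset.univ (fun φ => H * |(b φ : ℝ)| / |(a φ : ℝ)|)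
    ⟨φ0, Finset.mem_univ _⟩
  have ha0 : a φ0 ≠ 0 := by
    intro h0
    rw [h0, hab φ0 h0] at hφ0
    simp at hφ0
  have ha0' : 0 < |(a φ0 : ℝ)| := abs_pos.2 (by exact_mod_cast ha0)
  have h1 : 1 < H * |(b φ0 : ℝ)| / |(a φ0 : ℝ)| := by
    rw [one_lt_div ha0']
    linarith
  have h2 := hφ φ0 (Finset.mem_univ _)
  have ha : a φ ≠ 0 := by
    intro h0
    rw [h0] at h2
    simp only [Int.cast_zero, abs_zero, div_zero] at h2
    linarith
  have ha' : 0 < |(a φ : ℝ)| := abs_pos.2 (by exact_mod_cast ha)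
  refine ⟨H * |(b φ : ℝ)| / |(a φ : ℝ)|, by linarith, fun φ' => ?_, Or.inr ⟨φ, ha, ?_⟩⟩
  · by_cases h3 : a φ' = 0
    · rw [h3, hab φ' h3]; simp
    · have h4 : 0 < |(a φ' : ℝ)| := abs_pos.2 (by exact_mod_cast h3)
      have h5 := hφ φ' (Finset.mem_univ _)
      rwa [div_le_iff₀ h4] at h5
  · rw [div_mul_cancel₀ _ ha'.ne']

end Pool.Agent.H39v
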