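import Pool.Agent.H39v.Root

set_option autoImplicit false

/-!
Counting integers on a line by congruence conditions and an archimedean condition.
-/

namespace Pool.Agent.H39v

open Polynomial Finset

lemma card_ap (S : Finset ℤ) (Q : ℕ) (hQ : 0 < Q) (c r : ℝ) (hr0 : 0 ≤ r)
    (hS : ∀ t ∈ S, ∀ t' ∈ S, (Q : ℤ) ∣ t - t') (hr : ∀ t ∈ S, |(t : ℝ) - c| ≤ r) :
    (#S : ℝ) ≤ 2 * r / Q + 1 := by
  classical
  have hQ0 : (0 : ℝ) < Q := by exact_mod_cast hQ
  rcases S.eq_empty_or_nonempty with hE | hE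
  · rw [hE, card_empty, Nat.cast_zero]
    positivity
  · obtain ⟨t0, ht0, hmin⟩ := S.exists_min_image id hE
    have h1 : #S ≤ #(Finset.Icc (0 : ℤ) ⌊2 * r / Q⌋) := by
      refine card_le_card_of_injOn (fun t => (t - t0) / Q) ?_ ?_
      · intro t ht
        rw [mem_coe, mem_Icc]
        obtain ⟨k, hk⟩ := hS t ht t0 ht0
        have hQZ : (Q : ℤ) ≠ 0 := by exact_mod_cast hQ.ne'
        simp only
        rw [hk, Int.mul_ediv_cancel_left _ hQZ]
        constructor
        · have h2 : 0 ≤ t - t0 := sub_nonneg.2 (hmin t ht)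
          rw [hk] at h2
          have h3 : (0 : ℤ) < Q := by exact_mod_cast hQ
          exact nonneg_of_mul_nonneg_right h2 h3
        · rw [Int.le_floor, le_div_iff₀ hQ0]
          have h3 : ((t - t0 : ℤ) : ℝ) ≤ 2 * r := by
            have h4 := abs_le.1 (hr t ht)
            have h5 := abs_le.1 (hr t0 ht0)
            push_cast
            linarith [h4.2, h5.1]
          rw [hk] at h3
          push_cast at h3
          linarith
      · intro t ht t' ht' htt
        obtain ⟨k, hk⟩ := hS t ht t0 ht0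
        obtain ⟨k', hk'⟩ := hS t' ht' t0 ht0
        have hQZ : (Q : ℤ) ≠ 0 := by exact_mod_cast hQ.ne'
        simp only at htt
        rw [hk, hk', Int.mul_ediv_cancel_left _ hQZ, Int.mul_ediv_cancel_left _ hQZ] at htt
        rw [htt, ← hk'] at hk
        linarith
    have h2 : (0 : ℝ) ≤ 2 * r / Q := by positivity
    rw [Int.card_Icc] at h1
    have h3 : ((⌊2 * r / Q⌋ + 1 - 0).toNat : ℝ) ≤ 2 * r / Q + 1 := by
      have h4 : 0 ≤ ⌊2 * r / (Q : ℝ)⌋ := Int.floor_nonneg.2 h2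
      have h5 : ((⌊2 * r / (Q : ℝ)⌋ + 1 - 0).toNat : ℤ) = ⌊2 * r / (Q : ℝ)⌋ + 1 := by
        rw [Int.toNat_of_nonneg (by omega)]
        ring
      have h6 : ((⌊2 * r / (Q : ℝ)⌋ + 1 - 0).toNat : ℝ) = (⌊2 * r / (Q : ℝ)⌋ : ℝ) + 1 := by
        exact_mod_cast h5
      rw [h6]
      linarith [Int.floor_le (2 * r / (Q : ℝ))]
    calc (#S : ℝ) ≤ ((⌊2 * r / Q⌋ + 1 - 0).toNat : ℝ) := by exact_mod_cast h1
      _ ≤ _ := h3

theorem line_count {Φ : Type} [Fintype Φ] (f : Φ → ℤ[X]) (d : ℕ) (hd1 : 1 ≤ d)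
    (hd : ∀ φ, (f φ).natDegree ≤ d) (Q : ℕ) (hQ : 0 < Q) (Y : ℝ) (hY : 0 < Y) (S : Finset ℤ)
    (hp : ∀ p ∈ Q.primeFactors, ∀ t ∈ S, ∃ φ, (f φ).eval t ≠ 0 ∧
      (p : ℝ) ^ (Q.factorization p) * (padicNorm p (((f φ).eval t : ℤ) : ℚ) : ℝ) ≤
        (padicNorm p (((f φ).derivative.eval t : ℤ) : ℚ) : ℝ))
    (hinf : ∀ t ∈ S, |(t : ℝ)| ≤ Y ∨ ∃ φ, (f φ).eval t ≠ 0 ∧
      |(((f φ).eval t : ℤ) : ℝ)| ≤ Y * |(((f φ).derivative.eval t : ℤ) : ℝ)|) :
    (#S : ℝ) ≤ ((Fintype.card Φ * d : ℕ) : ℝ) ^ #Q.primeFactors * ((Fintype.card Φ * d : ℕ) + 1) *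
      (2 * (d * Y) / Q + 1) := by
  classical
  -- classes
  set C : ∀ p : ℕ, Finset (ZMod (p ^ (Q.factorization p))) := fun p =>
    S.image (fun t : ℤ => (t : ZMod (p ^ (Q.factorization p)))) with hC
  have hCcard : ∀ p ∈ Q.primeFactors, #(C p) ≤ Fintype.card Φ * d := by
    intro p hpQ
    have hpp : Fact p.Prime := ⟨(Nat.mem_primeFactors.1 hpQ).1⟩
    set Sφ : Φ → Finset ℤ := fun φ => S.filter (fun t => (f φ).eval t ≠ 0 ∧
      (p : ℝ) ^ (Q.factorization p) * (padicNorm p (((f φ).eval t : ℤ) : ℚ) : ℝ) ≤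
        (padicNorm p (((f φ).derivative.eval t : ℤ) : ℚ) : ℝ)) with hSφ
    have h1 : C p ⊆ univ.biUnion (fun φ => (Sφ φ).image
        (fun t : ℤ => (t : ZMod (p ^ (Q.factorization p))))) := by
      intro c hc
      rw [hC] at hc
      simp only [mem_image] at hc
      obtain ⟨t, ht, rfl⟩ := hc
      obtain ⟨φ, hφ⟩ := hp p hpQ t ht
      rw [mem_biUnion]
      exact ⟨φ, mem_univ _, mem_image_of_mem _ (mem_filter.2 ⟨ht, hφ⟩)⟩
    refine (card_le_card h1).trans (card_biUnion_le.trans ?_)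
    refine (sum_le_card_nsmul univ _ d fun φ _ => ?_).trans (by rw [card_univ, smul_eq_mul])
    refine (padic_classes p (f φ) (Q.factorization p) (Sφ φ) fun t ht => ?_).trans (hd φ)
    exact (mem_filter.1 ht).2
  -- centres
  set R : Finset ℝ := insert 0 (univ.biUnion fun φ : Φ =>
    (((f φ).map (algebraMap ℤ ℂ)).roots.toFinset.image Complex.re)) with hR
  have hRcard : #R ≤ Fintype.card Φ * d + 1 := by
    refine (card_insert_le _ _).trans (Nat.succ_le_succ ?_)
    refine card_biUnion_le.trans ?_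
    refine (sum_le_card_nsmul univ _ d fun φ _ => ?_).trans (by rw [card_univ, smul_eq_mul])
    refine card_image_le.trans ((Multiset.toFinset_card_le _).trans ?_)
    exact (card_roots' _).trans (natDegree_map_le.trans (hd φ))
  have hd1R : (1 : ℝ) ≤ d := by exact_mod_cast hd1
  have hcen : ∀ t ∈ S, ∃ c ∈ R, |(t : ℝ) - c| ≤ d * Y := by
    intro t ht
    rcases hinf t ht with h | ⟨φ, h0, h⟩
    · refine ⟨0, mem_insert_self _ _, ?_⟩
      rw [sub_zero]
      nlinarith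
    · obtain ⟨α, hα, hle⟩ := real_root (f φ) t (1 / Y) (by positivity) h0 (by
        rw [one_div, ← div_eq_inv_mul, div_le_iff₀ hY, mul_comm]
        exact h)
      refine ⟨α.re, mem_insert_of_mem (mem_biUnion.2 ⟨φ, mem_univ _, mem_image_of_mem _
        (Multiset.mem_toFinset.2 hα)⟩), hle.trans ?_⟩
      rw [div_div_eq_mul_div, div_one]
      exact mul_le_mul_of_nonneg_right (by exact_mod_cast hd φ) hY.le
  choose! cen hcenR hcenle using hcen
  set T : Finset ((∀ p : Q.primeFactors, ZMod (p.1 ^ (Q.factorization p.1))) × ℝ) :=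
    (Fintype.piFinset fun p : Q.primeFactors => C p.1) ×ˢ R with hT
  set Fm : ℤ → (∀ p : Q.primeFactors, ZMod (p.1 ^ (Q.factorization p.1))) × ℝ :=
    fun t => (fun p => (t : ZMod (p.1 ^ (Q.factorization p.1))), cen t) with hFm
  have hmaps : ∀ t ∈ S, Fm t ∈ T := by
    intro t ht
    rw [hT, mem_product, Fintype.mem_piFinset]
    exact ⟨fun p => mem_image_of_mem _ ht, hcenR t ht⟩
  have hfib : ∀ b ∈ T, (#(S.filter (fun t => Fm t = b)) : ℝ) ≤ 2 * (d * Y) / Q + 1 := by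
    intro b _
    refine card_ap _ Q hQ b.2 (d * Y) (by positivity) ?_ ?_
    · intro t ht t' ht'
      rw [mem_filter] at ht ht'
      have h1 : Fm t = Fm t' := by rw [ht.2, ht'.2]
      have h2 := congrArg Prod.fst h1
      have h3 : (Q : ℤ) ∣ t - t' := by
        rw [← Int.natAbs_dvd_natAbs, Int.natAbs_natCast, Nat.dvd_iff_prime_pow_dvd_dvd]
        intro p k hpp hk
        by_cases hk0 : k = 0
        · subst hk0; simp
        have hpQ : p ∈ Q.primeFactors := Nat.mem_primeFactors.2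
          ⟨hpp, (dvd_pow_self p hk0).trans hk, hQ.ne'⟩
        have h4 := congrFun h2 ⟨p, hpQ⟩
        simp only [hFm] at h4
        rw [← sub_eq_zero, ← Int.cast_sub, ZMod.intCast_zmod_eq_zero_iff_dvd] at h4
        have h5 : k ≤ Q.factorization p := (hpp.pow_dvd_iff_le_factorization hQ.ne').1 hk
        have h6 : ((p ^ k : ℕ) : ℤ) ∣ t - t' :=
          (Int.natCast_dvd_natCast.2 (pow_dvd_pow p h5)).trans (by exact_mod_cast h4)
        exact Int.natCast_dvd.1 h6
      exact h3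
    · intro t ht
      rw [mem_filter] at ht
      have h1 : cen t = b.2 := by rw [← ht.2]
      rw [← h1]
      exact hcenle t ht.1
  have hcard := card_eq_sum_card_fiberwise hmaps
  have hTcard : #T ≤ (Fintype.card Φ * d) ^ #Q.primeFactors * (Fintype.card Φ * d + 1) := by
    rw [hT, card_product, Fintype.card_piFinset]
    refine Nat.mul_le_mul ?_ hRcard
    calc ∏ p : Q.primeFactors, #(C p.1) ≤ ∏ _p : Q.primeFactors, (Fintype.card Φ * d) :=
          prod_le_prod' fun p _ => hCcard p.1 p.2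
      _ = (Fintype.card Φ * d) ^ #Q.primeFactors := by
          rw [prod_const, card_univ, Fintype.card_coe]
  have hb0 : 0 ≤ 2 * (d * Y) / (Q : ℝ) + 1 := by positivity
  calc (#S : ℝ) = ∑ b ∈ T, (#(S.filter (fun t => Fm t = b)) : ℝ) := by
        rw [hcard]; push_cast; rfl
    _ ≤ ∑ _b ∈ T, (2 * (d * Y) / (Q : ℝ) + 1) := sum_le_sum hfib
    _ = #T * (2 * (d * Y) / (Q : ℝ) + 1) := by rw [sum_const, nsmul_eq_mul]
    _ ≤ _ := by
        apply mul_le_mul_of_nonneg_right _ hb0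
        have h7 : ((#T : ℕ) : ℝ) ≤ (((Fintype.card Φ * d) ^ #Q.primeFactors *
          (Fintype.card Φ * d + 1) : ℕ) : ℝ) := by exact_mod_cast hTcard
        push_cast at h7 ⊢
        exact h7

end Pool.Agent.H39v
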