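import Pool.Agent.H39v.Low

set_option autoImplicit false

/-!
The local inequality.
-/

namespace Pool.Agent.H39v

open MvPolynomial

variable {N M g q w : ℕ}

/-- the differential of the rational map `Ψ / Ψ_b` -/
noncomputable def psi (Ψ : Fin (M + 1) → MvPolynomial (Fin (N + 1)) ℤ) (b : Fin (M + 1))
    (x : Fin (N + 1) → ℚ) (y : Fin (M + 1) → ℚ) : Matrix (Fin M) (Fin (N + 1)) ℚ :=
  Matrix.of fun c i => (aeval x (pderiv i (Ψ (b.succAbove c))) -
    y (b.succAbove c) * aeval x (pderiv i (Ψ b))) / aeval x (Ψ b)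

/-- derivative of `P` in a tangent direction of the graph -/
noncomputable def tang (Ψ : Fin (M + 1) → MvPolynomial (Fin (N + 1)) ℤ) (b : Fin (M + 1))
    (x : Fin (N + 1) → ℚ) (y : Fin (M + 1) → ℚ) (P : MvPolynomial (Fin (N + 1) ⊕ Fin (M + 1)) ℤ)
    (i : Fin (N + 1)) : ℚ :=
  ∑ c, aeval (Sum.elim x y) (pderiv (Sum.inr (b.succAbove c)) P) * psi Ψ b x y c i +
    aeval (Sum.elim x y) (pderiv (Sum.inl i) P)

lemma tang_eq (Ψ : Fin (M + 1) → MvPolynomial (Fin (N + 1)) ℤ) (b : Fin (M + 1))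
    (x : Fin (N + 1) → ℚ) (y : Fin (M + 1) → ℚ) (hb : aeval x (Ψ b) ≠ 0)
    (hy : ∀ j, aeval x (Ψ j) = aeval x (Ψ b) * y j)
    {P : MvPolynomial (Fin (N + 1) ⊕ Fin (M + 1)) ℤ} {a β : ℕ} (h : IsBihom P a β)
    (i : Fin (N + 1)) :
    aeval x (Ψ b) ^ β * tang Ψ b x y P i = aeval x (pderiv i (aeval (Sum.elim X Ψ) P)) -
      β * (aeval x (pderiv i (Ψ b)) / aeval x (Ψ b)) * aeval x (aeval (Sum.elim X Ψ) P) := by
  have hyb : y b = 1 := by
    have := hy b
    have h2 : aeval x (Ψ b) * (y b - 1) = 0 := by linear_combination this.symm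
    rcases mul_eq_zero.1 h2 with h3 | h3
    · exact absurd h3 hb
    · linarith
  rw [← tangent h Ψ x y b hb hy i, Fin.sum_univ_succAbove _ b]
  congr 1
  unfold tang psi
  simp only [Matrix.of_apply, hyb]
  ring

lemma comp_eq (Ψ : Fin (M + 1) → MvPolynomial (Fin (N + 1)) ℤ) (b : Fin (M + 1))
    (x : Fin (N + 1) → ℚ) (y : Fin (M + 1) → ℚ)
    (hy : ∀ j, aeval x (Ψ j) = aeval x (Ψ b) * y j)
    {P : MvPolynomial (Fin (N + 1) ⊕ Fin (M + 1)) ℤ} {a β : ℕ} (h : IsBihom P a β) :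
    aeval x (aeval (Sum.elim X Ψ) P) = aeval x (Ψ b) ^ β * aeval (Sum.elim x y) P := by
  have h1 : (aeval x : MvPolynomial (Fin (N + 1)) ℤ →ₐ[ℤ] ℚ).comp (aeval (Sum.elim X Ψ)) =
      aeval (Sum.elim x (fun j => aeval x (Ψ b) * y j)) := by
    apply algHom_ext
    intro s
    rcases s with s | s
    · simp
    · simp [hy s]
  have h2 := DFunLike.congr_fun h1 P
  rw [AlgHom.comp_apply] at h2
  rw [h2]
  have h3 := h.eval_smul x y 1 (aeval x (Ψ b))
  simpa using h3

/-- the minors of the Jacobian matrix relative to the base -/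
noncomputable def cm (G : Fin g → MvPolynomial (Fin (N + 1) ⊕ Fin (M + 1)) ℤ) (b : Fin (M + 1))
    (K : Fin M → Fin g) (z : Fin (N + 1) ⊕ Fin (M + 1) → ℚ) : Matrix (Fin M) (Fin M) ℚ :=
  Matrix.of fun m c => aeval z (pderiv (Sum.inr (b.succAbove c)) (G (K m)))

/-- the matrix of the remaining linear forms -/
noncomputable def tha (Ψ : Fin (M + 1) → MvPolynomial (Fin (N + 1)) ℤ)
    (F : Fin q → Fin w → MvPolynomial (Fin (N + 1) ⊕ Fin (M + 1)) ℤ) (b : Fin (M + 1))
    (x : Fin (N + 1) → ℚ) (y : Fin (M + 1) → ℚ)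
    (e : Fin (N + 1) → (Fin q × Fin w) ⊕ (Fin M ⊕ Fin (N + 1))) :
    Matrix (Fin (N + 1)) (Fin (N + 1)) ℚ :=
  Matrix.of fun l i => Sum.elim (fun ij : Fin q × Fin w => tang Ψ b x y (F ij.1 ij.2) i)
    (Sum.elim (fun c => psi Ψ b x y c i) (fun s => if s = i then 1 else 0)) (e l)

lemma det_split (Ψ : Fin (M + 1) → MvPolynomial (Fin (N + 1)) ℤ)
    (G : Fin g → MvPolynomial (Fin (N + 1) ⊕ Fin (M + 1)) ℤ) (aG bG : Fin g → ℕ)
    (hG : ∀ k, IsBihom (G k) (aG k) (bG k)) (hGΨ : ∀ k, aeval (Sum.elim X Ψ) (G k) = 0)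
    (F : Fin q → Fin w → MvPolynomial (Fin (N + 1) ⊕ Fin (M + 1)) ℤ) (b : Fin (M + 1))
    (x : Fin (N + 1) → ℚ) (y : Fin (M + 1) → ℚ) (hb : aeval x (Ψ b) ≠ 0)
    (hy : ∀ j, aeval x (Ψ j) = aeval x (Ψ b) * y j) (K : Fin M → Fin g)
    (e : Fin (N + 1) → (Fin q × Fin w) ⊕ (Fin M ⊕ Fin (N + 1))) :
    aeval (Sum.elim x y) (mat G F b K e).det =
      (cm G b K (Sum.elim x y)).det * (tha Ψ F b x y e).det := by
  classical
  rw [AlgHom.map_det]
  set A : Matrix (Fin M ⊕ Fin (N + 1)) (Fin M ⊕ Fin (N + 1)) ℚ :=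
    (aeval (Sum.elim x y) : MvPolynomial (Fin (N + 1) ⊕ Fin (M + 1)) ℤ →ₐ[ℤ] ℚ).mapMatrix
      (mat G F b K e) with hA
  set U : Matrix (Fin M ⊕ Fin (N + 1)) (Fin M ⊕ Fin (N + 1)) ℚ :=
    Matrix.fromBlocks 1 (psi Ψ b x y) 0 1 with hU
  have hUdet : U.det = 1 := by
    rw [hU, Matrix.det_fromBlocks_zero₂₁, Matrix.det_one, Matrix.det_one, one_mul]
  have hAU : A * U = Matrix.fromBlocks (cm G b K (Sum.elim x y)) 0 A.toBlocks₂₁
      (tha Ψ F b x y e) := by
    conv_lhs => rw [← Matrix.fromBlocks_toBlocks A, hU, Matrix.fromBlocks_multiply]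
    congr 1
    · rw [Matrix.mul_one, Matrix.mul_zero, add_zero]
      rfl
    · ext m i
      rw [Matrix.add_apply, Matrix.mul_one, Matrix.mul_apply, Matrix.zero_apply]
      have h1 := tang_eq Ψ b x y hb hy (hG (K m)) i
      rw [hGΨ, map_zero, map_zero, mul_zero, sub_zero] at h1
      have h2 := (mul_eq_zero.1 h1).resolve_left (pow_ne_zero _ hb)
      rw [← h2]
      rfl
    · rw [Matrix.mul_one, Matrix.mul_zero, add_zero]
    · ext l i
      rw [Matrix.add_apply, Matrix.mul_one, Matrix.mul_apply]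
      have h1 : ∀ s, A (Sum.inr l) s = aeval (Sum.elim x y) (rw' F b (e l) s) := fun s => rfl
      simp only [Matrix.toBlocks₂₁, Matrix.toBlocks₂₂, Matrix.of_apply, h1, tha]
      rcases hel : e l with ij | c | s
      · rfl
      · simp only [rw', Sum.elim_inr, Sum.elim_inl]
        rw [Finset.sum_eq_single c]
        · simp
        · intro c' _ hc'
          simp [Ne.symm hc', hc']
        · intro hc; exact absurd (Finset.mem_univ _) hc
      · simp only [rw', Sum.elim_inr]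
        rw [Finset.sum_eq_zero]
        · simp only [zero_add, Pi.single_apply, Sum.inr.injEq]
          by_cases hsi : s = i
          · subst hsi; simp
          · simp [hsi, Ne.symm hsi]
        · intro c _
          simp
  have h3 := congrArg Matrix.det hAU
  rw [Matrix.det_mul, hUdet, mul_one, Matrix.det_fromBlocks_zero₁₂] at h3
  exact h3

/-- the weights of the rows -/
noncomputable def wt (ρ : Fin q → ℝ) (r : (Fin q × Fin w) ⊕ (Fin M ⊕ Fin (N + 1))) : ℝ :=
  Sum.elim (fun ij => ρ ij.1) (fun _ => 1) r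

lemma prod_cov (J : Finset (Fin q)) (e : Fin (N + 1) → (Fin q × Fin w) ⊕ (Fin M ⊕ Fin (N + 1)))
    (he : Cov J e) (ρ : Fin q → ℝ) (hρ : ∀ i, 0 < ρ i) (C1 : ℝ) (hC1 : 1 ≤ C1)
    (hρC : ∀ i, ρ i ≤ C1) : ∏ l, wt ρ (e l) ≤ C1 ^ (N + 1) * ∏ i ∈ J, ρ i := by
  classical
  choose s j hs using he
  have hwt0 : ∀ l, 0 ≤ wt ρ (e l) := by
    intro l
    unfold wt
    rcases e l with ij | t
    · exact (hρ _).le
    · exact zero_le_one
  have hwt1 : ∀ l, wt ρ (e l) ≤ C1 := by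
    intro l
    unfold wt
    rcases e l with ij | t
    · exact hρC _
    · exact hC1
  set s' : J → Fin (N + 1) := fun i => s i.1 i.2 with hs'
  have hinj : Function.Injective s' := by
    intro i i' hii
    have h1 := hs i.1 i.2
    have h2 := hs i'.1 i'.2
    have h3 : s i.1 i.2 = s i'.1 i'.2 := hii
    rw [h3, h2] at h1
    have h4 := Sum.inl_injective h1
    exact Subtype.ext (Prod.mk.inj h4).1.symm
  have h1 : ∏ l ∈ Finset.univ.image s', wt ρ (e l) = ∏ i ∈ J, ρ i := by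
    rw [Finset.prod_image (fun a _ b _ h => hinj h)]
    rw [← Finset.prod_coe_sort J]
    refine Finset.prod_congr rfl fun i _ => ?_
    rw [hs']
    simp only
    rw [hs i.1 i.2]
    rfl
  rw [← Finset.prod_sdiff (Finset.subset_univ (Finset.univ.image s')), h1]
  refine mul_le_mul_of_nonneg_right ?_ (Finset.prod_nonneg fun i _ => (hρ i).le)
  calc ∏ l ∈ Finset.univ \ Finset.univ.image s', wt ρ (e l) ≤
        ∏ l ∈ Finset.univ \ Finset.univ.image s', C1 :=
        Finset.prod_le_prod (fun l _ => hwt0 l) fun l _ => hwt1 l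
    _ = C1 ^ (Finset.univ \ Finset.univ.image s').card := by rw [Finset.prod_const]
    _ ≤ C1 ^ (N + 1) := by
        apply pow_le_pow_right₀ hC1
        calc (Finset.univ \ Finset.univ.image s').card ≤ (Finset.univ : Finset (Fin (N + 1))).card :=
              Finset.card_le_card Finset.sdiff_subset
          _ = N + 1 := by simp

end Pool.Agent.H39v
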