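import Pool.Agent.H39v.Loc

set_option autoImplicit false

/-!
The local inequality, second part.
-/

namespace Pool.Agent.H39v

open MvPolynomial

variable {N M g q w : ℕ}

/-- the polynomials whose logarithmic derivatives are considered -/
noncomputable def fam (Ψ : Fin (M + 1) → MvPolynomial (Fin (N + 1)) ℤ)
    (F : Fin q → Fin w → MvPolynomial (Fin (N + 1) ⊕ Fin (M + 1)) ℤ) :
    Fin (M + 1) ⊕ (Fin q × Fin w) → MvPolynomial (Fin (N + 1)) ℤ :=
  Sum.elim Ψ (fun ij => aeval (Sum.elim X Ψ) (F ij.1 ij.2))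

lemma row_bound (v : AbsoluteValue ℚ ℝ) (Ψ : Fin (M + 1) → MvPolynomial (Fin (N + 1)) ℤ)
    (F : Fin q → Fin w → MvPolynomial (Fin (N + 1) ⊕ Fin (M + 1)) ℤ)
    (aF bF : Fin q → Fin w → ℕ) (hF : ∀ i j, IsBihom (F i j) (aF i j) (bF i j)) (b : Fin (M + 1))
    (x : Fin (N + 1) → ℚ) (y : Fin (M + 1) → ℚ) (hyv : ∀ j, v (y j) ≤ 1)
    (hb : aeval x (Ψ b) ≠ 0) (hy : ∀ j, aeval x (Ψ j) = aeval x (Ψ b) * y j)
    (ρ : Fin q → ℝ) (hρ : ∀ i j, v (aeval (Sum.elim x y) (F i j)) ≤ ρ i) (W0 : ℝ) (hW0 : 0 ≤ W0)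
    (u : Fin (N + 1) → ℚ) (hu : ∀ i, v (u i) ≤ W0) (μ : ℝ) (hμ : 1 ≤ μ)
    (hfam : ∀ φ, v (dw u x (fam Ψ F φ)) ≤ μ * v (aeval x (fam Ψ F φ)))
    (r : (Fin q × Fin w) ⊕ (Fin M ⊕ Fin (N + 1))) :
    v (∑ i, (Sum.elim (fun ij : Fin q × Fin w => tang Ψ b x y (F ij.1 ij.2) i)
      (Sum.elim (fun c => psi Ψ b x y c i) (fun s => if s = i then 1 else 0)) r) * u i) ≤
      (2 + W0 + ∑ i, ∑ j, (bF i j : ℝ)) * wt ρ r * μ := by
  classical
  have hsum0 : (0 : ℝ) ≤ ∑ i, ∑ j, (bF i j : ℝ) :=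
    Finset.sum_nonneg fun _ _ => Finset.sum_nonneg fun _ _ => by positivity
  set L := aeval x (Ψ b) with hL
  have hvL : 0 < v L := (v.pos_iff).2 hb
  have hfb : v (dw u x (Ψ b)) ≤ μ * v L := hfam (Sum.inl b)
  rcases r with ij | c | s
  · simp only [Sum.elim_inl, wt]
    obtain ⟨i, j⟩ := ij
    simp only
    set P := F i j with hP
    have h1 : L ^ (bF i j) * ∑ i', tang Ψ b x y P i' * u i' =
        dw u x (aeval (Sum.elim X Ψ) P) - bF i j * (dw u x (Ψ b) / L) *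
          (L ^ (bF i j) * aeval (Sum.elim x y) P) := by
      rw [← comp_eq Ψ b x y hy (hF i j)]
      unfold dw
      rw [Finset.mul_sum, Finset.sum_div, Finset.mul_sum, Finset.sum_mul, ← Finset.sum_sub_distrib]
      refine Finset.sum_congr rfl fun i' _ => ?_
      have h2 := tang_eq Ψ b x y hb hy (hF i j) i'
      rw [← mul_assoc, h2]
      ring
    have h3 : v (dw u x (aeval (Sum.elim X Ψ) P)) ≤ μ * (v L ^ (bF i j) *
        v (aeval (Sum.elim x y) P)) := by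
      have h4 := hfam (Sum.inr (i, j))
      simp only [fam, Sum.elim_inr] at h4
      rw [comp_eq Ψ b x y hy (hF i j), v.map_mul, v.map_pow] at h4
      exact h4
    have h5 : v L ^ (bF i j) * v (∑ i', tang Ψ b x y P i' * u i') ≤
        v L ^ (bF i j) * ((1 + bF i j) * v (aeval (Sum.elim x y) P) * μ) := by
      rw [← v.map_pow, ← v.map_mul, h1, v.map_pow]
      refine (v.sub_le_add _ _).trans ?_
      rw [v.map_mul, v.map_mul, v.map_mul, v.map_pow, map_div₀]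
      have h6 : v (dw u x (Ψ b)) / v L ≤ μ := by
        rw [div_le_iff₀ hvL]; exact hfb
      have h7 : v ((bF i j : ℕ) : ℚ) ≤ bF i j := v_nat_le v _
      have h8 : v ((bF i j : ℕ) : ℚ) * (v (dw u x (Ψ b)) / v L) ≤ bF i j * μ :=
        mul_le_mul h7 h6 (by have := v.nonneg (dw u x (Ψ b)); positivity) (by positivity)
      have h9 : 0 ≤ v L ^ (bF i j) * v (aeval (Sum.elim x y) P) :=
        mul_nonneg (pow_nonneg hvL.le _) (v.nonneg _)
      have h10 := mul_le_mul_of_nonneg_right h8 h9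
      linarith
    have h6 := le_of_mul_le_mul_left h5 (pow_pos hvL _)
    refine h6.trans ?_
    have h7 : (bF i j : ℝ) ≤ ∑ i, ∑ j, (bF i j : ℝ) := by
      have h8 : (bF i j : ℝ) ≤ ∑ j, (bF i j : ℝ) :=
        Finset.single_le_sum (f := fun j => (bF i j : ℝ)) (fun _ _ => by positivity) (Finset.mem_univ j)
      refine h8.trans ?_
      exact Finset.single_le_sum (f := fun i => ∑ j, (bF i j : ℝ))
        (fun _ _ => Finset.sum_nonneg fun _ _ => by positivity) (Finset.mem_univ i)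
    have h8 : (1 + (bF i j : ℝ)) ≤ 2 + W0 + ∑ i, ∑ j, (bF i j : ℝ) := by linarith
    have h9 := hρ i j
    have h10 := v.nonneg (aeval (Sum.elim x y) P)
    apply mul_le_mul_of_nonneg_right _ (by linarith)
    exact mul_le_mul h8 h9 h10 (by linarith)
  · simp only [Sum.elim_inr, Sum.elim_inl, wt, mul_one]
    have h1 : ∑ i, psi Ψ b x y c i * u i = dw u x (Ψ (b.succAbove c)) / L -
        y (b.succAbove c) * (dw u x (Ψ b) / L) := by
      unfold dw psi
      rw [Finset.sum_div, Finset.sum_div, Finset.mul_sum, ← Finset.sum_sub_distrib]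
      refine Finset.sum_congr rfl fun i _ => ?_
      simp only [Matrix.of_apply]
      ring
    rw [h1]
    refine (v.sub_le_add _ _).trans ?_
    rw [v.map_mul, map_div₀, map_div₀]
    have h6 : v (dw u x (Ψ b)) / v L ≤ μ := by
      rw [div_le_iff₀ hvL]; exact hfb
    have h7 : v (dw u x (Ψ (b.succAbove c))) / v L ≤ μ := by
      rw [div_le_iff₀ hvL]
      have h8 := hfam (Sum.inl (b.succAbove c))
      simp only [fam, Sum.elim_inl] at h8
      rw [hy, v.map_mul] at h8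
      have h9 : v L * v (y (b.succAbove c)) ≤ v L * 1 :=
        mul_le_mul_of_nonneg_left (hyv _) hvL.le
      have h10 := mul_le_mul_of_nonneg_left h9 (by linarith : 0 ≤ μ)
      linarith
    have h8 : v (y (b.succAbove c)) * (v (dw u x (Ψ b)) / v L) ≤ 1 * μ :=
      mul_le_mul (hyv _) h6 (by have := v.nonneg (dw u x (Ψ b)); positivity) zero_le_one
    nlinarith
  · simp only [Sum.elim_inr, wt, mul_one]
    have h1 : ∑ i, (if s = i then (1 : ℚ) else 0) * u i = u s := by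
      rw [Finset.sum_eq_single s]
      · simp
      · intro i _ hi
        simp [Ne.symm hi]
      · intro hs; exact absurd (Finset.mem_univ _) hs
    rw [h1]
    have h2 := hu s
    nlinarith

lemma det_lt (n : ℕ) (v : AbsoluteValue ℚ ℝ) (A : Matrix (Fin n) (Fin n) ℚ) (φ : Fin n → ℝ)
    (T : ℝ) (h : ∀ l i, v (A l i) ≤ φ l * T) :
    v A.det ≤ n.factorial * ((∏ l, φ l) * T ^ n) := by
  classical
  rw [Matrix.det_apply]
  refine (v.sum_le _ _).trans ?_
  have h1 : ∀ σ ∈ (Finset.univ : Finset (Equiv.Perm (Fin n))),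
      v (Equiv.Perm.sign σ • ∏ i, A (σ i) i) ≤ (∏ l, φ l) * T ^ n := by
    intro σ _
    have h2 : v (Equiv.Perm.sign σ • ∏ i, A (σ i) i) = v (∏ i, A (σ i) i) := by
      rcases Int.units_eq_one_or (Equiv.Perm.sign σ) with h | h
      · rw [h, one_smul]
      · rw [h, Units.neg_smul, one_smul, v.map_neg]
    rw [h2, v.map_prod]
    calc ∏ i, v (A (σ i) i) ≤ ∏ i, (φ (σ i) * T) :=
          Finset.prod_le_prod (fun i _ => v.nonneg _) fun i _ => h _ _
      _ = (∏ l, φ l) * T ^ n := by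
          rw [Finset.prod_mul_distrib, Finset.prod_const, Finset.card_univ, Fintype.card_fin]
          congr 1
          exact Equiv.prod_comp σ φ
  refine (Finset.sum_le_card_nsmul _ _ _ h1).trans ?_
  rw [Finset.card_univ, Fintype.card_perm, Fintype.card_fin, nsmul_eq_mul]

theorem local_ineq {Ψ : Fin (M + 1) → MvPolynomial (Fin (N + 1)) ℤ}
    {G : Fin g → MvPolynomial (Fin (N + 1) ⊕ Fin (M + 1)) ℤ}
    {F : Fin q → Fin w → MvPolynomial (Fin (N + 1) ⊕ Fin (M + 1)) ℤ} (h : Smth G F)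
    (aG bG : Fin g → ℕ) (hG : ∀ k, IsBihom (G k) (aG k) (bG k))
    (hGΨ : ∀ k, aeval (Sum.elim X Ψ) (G k) = 0)
    (aF bF : Fin q → Fin w → ℕ) (hF : ∀ i j, IsBihom (F i j) (aF i j) (bF i j))
    (W0 C1 : ℝ) (hW0 : 0 ≤ W0) (hC1 : 1 ≤ C1) :
    ∃ C : ℝ, 1 ≤ C ∧ ∀ v : AbsoluteValue ℚ ℝ, Plc v →
      ∀ (x : Fin (N + 1) → ℚ) (y : Fin (M + 1) → ℚ) (a : Fin (N + 1)) (b : Fin (M + 1)),
        (∀ i, v (x i) ≤ 1) → (∀ j, v (y j) ≤ 1) → x a = 1 → aeval x (Ψ b) ≠ 0 →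
        (∀ j, aeval x (Ψ j) = aeval x (Ψ b) * y j) →
        ∀ ρR : ℝ, 0 < ρR → (∀ K, v (cm G b K (Sum.elim x y)).det ≤ ρR) →
        ∀ ρ : Fin q → ℝ, (∀ i, 0 < ρ i) → (∀ i, ρ i ≤ C1) →
        (∀ i j, v (aeval (Sum.elim x y) (F i j)) ≤ ρ i) →
        ∃ Lf : Fin (N + 1) → ℚ, (∃ i, Lf i = 1) ∧ ∀ u : Fin (N + 1) → ℚ, (∀ i, v (u i) ≤ W0) →
          ∀ μ : ℝ, 1 ≤ μ → (∀ φ, v (dw u x (fam Ψ F φ)) ≤ μ * v (aeval x (fam Ψ F φ))) →
          v (∑ i, Lf i * u i) ≤ C * μ * (ρR * ∏ i, ρ i) ^ (1 / ((N : ℝ) + 1)) := by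
  classical
  obtain ⟨c0, hc0, hc01, hlow⟩ := geo_low h aG bG hG aF bF hF
  set C2 : ℝ := 2 + W0 + ∑ i, ∑ j, (bF i j : ℝ) with hC2
  have hC20 : 2 ≤ C2 := by
    have hsum0 : (0 : ℝ) ≤ ∑ i, ∑ j, (bF i j : ℝ) :=
      Finset.sum_nonneg fun _ _ => Finset.sum_nonneg fun _ _ => by positivity
    rw [hC2]; linarith
  set C3 : ℝ := 2 * (N + 1).factorial * C1 ^ (N + 1) * (1 / c0) ^ (q + 1) with hC3
  have hfac : (1 : ℝ) ≤ (N + 1).factorial := by exact_mod_cast Nat.one_le_iff_ne_zero.2 (Nat.factorial_ne_zero _)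
  have hc0' : 1 ≤ 1 / c0 := by rw [le_div_iff₀ hc0]; linarith
  have hC30 : 1 ≤ C3 := by
    have h1 : 1 ≤ C1 ^ (N + 1) := one_le_pow₀ hC1
    have h2 : 1 ≤ (1 / c0) ^ (q + 1) := one_le_pow₀ hc0'
    rw [hC3]
    nlinarith [mul_le_mul hfac h1 (by norm_num) (by linarith), mul_le_mul (mul_le_mul hfac h1 (by norm_num) (by linarith)) h2 (by norm_num) (by positivity)]
  refine ⟨C2 * C3, by nlinarith, ?_⟩
  intro v hv x y a b hxv hyv hxa hb hy ρR hρR hcm ρ hρ hρC hρF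
  have hyb : y b = 1 := by
    have := hy b
    have h2 : aeval x (Ψ b) * (y b - 1) = 0 := by linear_combination this.symm
    rcases mul_eq_zero.1 h2 with h3 | h3
    · exact absurd h3 hb
    · linarith
  have hGz : ∀ k, aeval (Sum.elim x y) (G k) = 0 := by
    intro k
    have h1 := comp_eq Ψ b x y hy (hG k)
    rw [hGΨ, map_zero] at h1
    exact (mul_eq_zero.1 h1.symm).resolve_left (pow_ne_zero _ hb)
  set J : Finset (Fin q) := Finset.univ.filter (fun i => ρ i ≤ c0) with hJ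
  obtain ⟨K, e, he, hdet⟩ := hlow v hv (Sum.elim x y) a b (by
    intro s
    rcases s with s | s
    · exact hxv s
    · exact hyv s) hxa hyb hGz J (by
    intro i hi j
    exact (hρF i j).trans (Finset.mem_filter.1 hi).2)
  rw [det_split Ψ G aG bG hG hGΨ F b x y hb hy K e, v.map_mul] at hdet
  set Θ := tha Ψ F b x y e with hΘ
  have hΘdet : c0 / ρR ≤ v Θ.det := by
    rw [div_le_iff₀ hρR]
    calc c0 ≤ v (cm G b K (Sum.elim x y)).det * v Θ.det := hdet
      _ ≤ ρR * v Θ.det := mul_le_mul_of_nonneg_right (hcm K) (v.nonneg _)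
      _ = _ := mul_comm _ _
  set Pw : ℝ := ∏ l, wt ρ (e l) with hpp
  have hwt0 : ∀ l, 0 < wt ρ (e l) := by
    intro l
    unfold wt
    rcases e l with ij | t
    · exact hρ _
    · exact zero_lt_one
  have hpp0 : 0 < Pw := Finset.prod_pos fun l _ => hwt0 l
  -- the size of the largest entry
  set Q : ℝ := 2 * ρR * (N + 1).factorial * Pw / c0 with hQ
  have hQ0 : 0 < Q := by positivity
  set T : ℝ := (1 / Q) ^ (1 / ((N : ℝ) + 1)) with hT
  have hT0 : 0 < T := Real.rpow_pos_of_pos (by positivity) _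
  have hTpow : T ^ (N + 1) = 1 / Q := by
    rw [hT, ← Real.rpow_natCast, ← Real.rpow_mul (by positivity)]
    have : 1 / ((N : ℝ) + 1) * ((N + 1 : ℕ) : ℝ) = 1 := by
      push_cast
      field_simp
    rw [this, Real.rpow_one]
  obtain ⟨l, i0, hli⟩ : ∃ l i, wt ρ (e l) * T < v (Θ l i) := by
    by_contra hcon
    push Not at hcon
    have h1 := det_lt (N + 1) v Θ (fun l => wt ρ (e l)) T hcon
    rw [hTpow] at h1
    have h2 : ((N + 1).factorial : ℝ) * (Pw * (1 / Q)) = c0 / ρR / 2 := by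
      rw [hQ]
      field_simp
    rw [h2] at h1
    have h3 : 0 < c0 / ρR := by positivity
    linarith
  have hΘ0 : Θ l i0 ≠ 0 := by
    intro h0
    rw [h0, v.map_zero] at hli
    have := mul_pos (hwt0 l) hT0
    linarith
  refine ⟨fun i => Θ l i / Θ l i0, ⟨i0, div_self hΘ0⟩, ?_⟩
  intro u hu μ hμ hfam
  have h1 := row_bound v Ψ F aF bF hF b x y hyv hb hy ρ hρF W0 hW0 u hu μ hμ hfam (e l)
  have h2 : ∑ i, Θ l i / Θ l i0 * u i = (∑ i, Θ l i * u i) / Θ l i0 := by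
    rw [Finset.sum_div]
    exact Finset.sum_congr rfl fun i _ => by ring
  have h3 : v (∑ i, Θ l i * u i) ≤ C2 * wt ρ (e l) * μ := h1
  rw [h2, map_div₀]
  have h4 : v (∑ i, Θ l i * u i) / v (Θ l i0) ≤ C2 * wt ρ (e l) * μ / (wt ρ (e l) * T) := by
    apply div_le_div₀ _ h3 (mul_pos (hwt0 l) hT0) hli.le
    have := (hwt0 l).le
    positivity
  have h5 : C2 * wt ρ (e l) * μ / (wt ρ (e l) * T) = C2 * μ * (1 / T) := by
    have := (hwt0 l).ne'
    field_simp
  rw [h5] at h4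
  refine h4.trans ?_
  -- bound for `1 / T`
  have h6 : 1 / T = Q ^ (1 / ((N : ℝ) + 1)) := by
    rw [hT, one_div, ← Real.inv_rpow (by positivity), one_div, inv_inv]
  have hprod : Pw ≤ C1 ^ (N + 1) * ((1 / c0) ^ q * ∏ i, ρ i) := by
    refine (prod_cov J e he ρ hρ C1 hC1 hρC).trans ?_
    apply mul_le_mul_of_nonneg_left _ (by positivity)
    rw [← Finset.prod_sdiff (Finset.subset_univ J), ← mul_assoc]
    have h7 : 1 ≤ (1 / c0) ^ q * ∏ i ∈ Finset.univ \ J, ρ i := by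
      have h8 : c0 ^ q ≤ ∏ i ∈ Finset.univ \ J, ρ i := by
        calc c0 ^ q ≤ c0 ^ (Finset.univ \ J).card := by
              apply pow_le_pow_of_le_one hc0.le hc01
              calc (Finset.univ \ J).card ≤ (Finset.univ : Finset (Fin q)).card :=
                    Finset.card_le_card Finset.sdiff_subset
                _ = q := by simp
          _ = ∏ i ∈ Finset.univ \ J, c0 := by rw [Finset.prod_const]
          _ ≤ ∏ i ∈ Finset.univ \ J, ρ i := by
              apply Finset.prod_le_prod (fun _ _ => hc0.le)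
              intro i hi
              rw [Finset.mem_sdiff, hJ, Finset.mem_filter] at hi
              have : ¬ ρ i ≤ c0 := fun h9 => hi.2 ⟨Finset.mem_univ _, h9⟩
              linarith [not_le.1 this]
      rw [one_div, inv_pow, ← div_eq_inv_mul, le_div_iff₀ (pow_pos hc0 _), one_mul]
      exact h8
    calc ∏ i ∈ J, ρ i = 1 * ∏ i ∈ J, ρ i := (one_mul _).symm
      _ ≤ _ := mul_le_mul_of_nonneg_right h7 (Finset.prod_nonneg fun i _ => (hρ i).le)
  have hQle : Q ≤ C3 * (ρR * ∏ i, ρ i) := by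
    rw [hQ, hC3, div_le_iff₀ hc0]
    calc 2 * ρR * (N + 1).factorial * Pw ≤ 2 * ρR * (N + 1).factorial *
          (C1 ^ (N + 1) * ((1 / c0) ^ q * ∏ i, ρ i)) :=
          mul_le_mul_of_nonneg_left hprod (by positivity)
      _ = 2 * (N + 1).factorial * C1 ^ (N + 1) * (1 / c0) ^ (q + 1) * (ρR * ∏ i, ρ i) * c0 := by
          have hps : (1 / c0) ^ (q + 1) * c0 = (1 / c0) ^ q := by
            rw [pow_succ, mul_assoc, one_div_mul_cancel hc0.ne', mul_one]
          rw [← hps]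
          ring
  have hpi0 : 0 < ρR * ∏ i, ρ i := mul_pos hρR (Finset.prod_pos fun i _ => hρ i)
  have hexp0 : 0 < 1 / ((N : ℝ) + 1) := by positivity
  have hexp1 : 1 / ((N : ℝ) + 1) ≤ 1 := by
    rw [div_le_one (by positivity)]
    have : (0 : ℝ) ≤ N := by positivity
    linarith
  have h7 : Q ^ (1 / ((N : ℝ) + 1)) ≤ C3 * (ρR * ∏ i, ρ i) ^ (1 / ((N : ℝ) + 1)) := by
    calc Q ^ (1 / ((N : ℝ) + 1)) ≤ (C3 * (ρR * ∏ i, ρ i)) ^ (1 / ((N : ℝ) + 1)) :=
          Real.rpow_le_rpow hQ0.le hQle hexp0.le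
      _ = C3 ^ (1 / ((N : ℝ) + 1)) * (ρR * ∏ i, ρ i) ^ (1 / ((N : ℝ) + 1)) :=
          Real.mul_rpow (by linarith) hpi0.le
      _ ≤ C3 * (ρR * ∏ i, ρ i) ^ (1 / ((N : ℝ) + 1)) := by
          apply mul_le_mul_of_nonneg_right _ (Real.rpow_nonneg hpi0.le _)
          calc C3 ^ (1 / ((N : ℝ) + 1)) ≤ C3 ^ (1 : ℝ) := Real.rpow_le_rpow_of_exponent_le hC30 hexp1
            _ = C3 := Real.rpow_one _
  rw [h6]
  calc C2 * μ * Q ^ (1 / ((N : ℝ) + 1)) ≤ C2 * μ * (C3 * (ρR * ∏ i, ρ i) ^ (1 / ((N : ℝ) + 1))) :=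
        mul_le_mul_of_nonneg_left h7 (by nlinarith)
    _ = _ := by ring

end Pool.Agent.H39v
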