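import Pool.Agent.H39v.Sharp

set_option autoImplicit false

/-!
Integral versions of the local statements.
-/

namespace Pool.Agent.H39v

open MvPolynomial

variable {N M g q w : ℕ}

theorem local_int {Ψ : Fin (M + 1) → MvPolynomial (Fin (N + 1)) ℤ} {e : ℕ}
    (hΨ : ∀ j, (Ψ j).IsHomogeneous e)
    {G : Fin g → MvPolynomial (Fin (N + 1) ⊕ Fin (M + 1)) ℤ}
    {F : Fin q → Fin w → MvPolynomial (Fin (N + 1) ⊕ Fin (M + 1)) ℤ} (h : Smth G F)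
    (aG bG : Fin g → ℕ) (hG : ∀ k, IsBihom (G k) (aG k) (bG k))
    (hGΨ : ∀ k, aeval (Sum.elim X Ψ) (G k) = 0)
    (aF bF : Fin q → Fin w → ℕ) (hF : ∀ i j, IsBihom (F i j) (aF i j) (bF i j))
    (W0 C1 : ℝ) (hW0 : 0 ≤ W0) (hC1 : 1 ≤ C1) :
    ∃ C : ℝ, 1 ≤ C ∧ ∀ v : AbsoluteValue ℚ ℝ, Plc v →
      ∀ (x : Fin (N + 1) → ℤ) (y : Fin (M + 1) → ℤ) (g0 : ℤ) (a : Fin (N + 1)) (b : Fin (M + 1)),
        g0 ≠ 0 → (∀ j, eval x (Ψ j) = g0 * y j) → x a ≠ 0 → y b ≠ 0 →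
        (∀ i, v (x i) ≤ v (x a)) → (∀ j, v (y j) ≤ v (y b)) →
        ∀ ρR : ℝ, 0 < ρR → (∀ K, v (minor G K b x y) ≤
          ρR * (v (x a) ^ (∑ m, aG (K m)) * v (y b) ^ (∑ m, (bG (K m) - 1)))) →
        ∀ ρ : Fin q → ℝ, (∀ i, 0 < ρ i) → (∀ i, ρ i ≤ C1) →
        (∀ i j, v (eval (Sum.elim x y) (F i j) : ℤ) ≤
          ρ i * (v (x a) ^ aF i j * v (y b) ^ bF i j)) →
        ∃ Lf : Fin (N + 1) → ℚ, (∃ i, Lf i = 1) ∧ ∀ u : Fin (N + 1) → ℤ,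
          (∀ i, |(u i : ℝ)| ≤ W0) → ∀ μ : ℝ, 1 ≤ μ →
          (∀ φ, v (x a) * v (dwi u x (fam Ψ F φ)) ≤ μ * v (eval x (fam Ψ F φ) : ℤ)) →
          v (∑ i, Lf i * u i) ≤ C * μ * (ρR * ∏ i, ρ i) ^ (1 / ((N : ℝ) + 1)) := by
  classical
  obtain ⟨C, hC, hloc⟩ := local_ineq h aG bG hG hGΨ aF bF hF W0 C1 hW0 hC1
  refine ⟨C, hC, ?_⟩
  intro v hv x y g0 a b hg0 hxy hxa hyb hvx hvy ρR hρR hmin ρ hρ hρC hρF
  have hxa' : (x a : ℚ) ≠ 0 := by exact_mod_cast hxa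
  have hyb' : (y b : ℚ) ≠ 0 := by exact_mod_cast hyb
  have hva : 0 < v (x a) := v.pos_iff.2 hxa'
  have hvb : 0 < v (y b) := v.pos_iff.2 hyb'
  have hPsi : ∀ j, aeval (fun i => (x a : ℚ)⁻¹ * (x i : ℚ)) (Ψ j) =
      ((x a : ℚ)⁻¹) ^ e * ((g0 : ℚ) * y j) := by
    intro j
    rw [hom_scale (hΨ j), hxy]
    push_cast
    rfl
  have hL : aeval (fun i => (x a : ℚ)⁻¹ * (x i : ℚ)) (Ψ b) ≠ 0 := by
    rw [hPsi]
    exact mul_ne_zero (pow_ne_zero _ (inv_ne_zero hxa')) (mul_ne_zero (by exact_mod_cast hg0) hyb')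
  obtain ⟨Lf, hLf, hmain⟩ := hloc v hv (fun i => (x a : ℚ)⁻¹ * (x i : ℚ))
    (fun j => (y b : ℚ)⁻¹ * (y j : ℚ)) a b (by
      intro i
      rw [v.map_mul, map_inv₀, ← div_eq_inv_mul, div_le_one hva]
      exact hvx i) (by
      intro j
      rw [v.map_mul, map_inv₀, ← div_eq_inv_mul, div_le_one hvb]
      exact hvy j) (inv_mul_cancel₀ hxa') hL (by
      intro j
      rw [hPsi, hPsi]
      field_simp) ρR hρR (by
      intro K
      rw [cm_scale G aG bG hG, v.map_mul, v.map_mul, v.map_pow, v.map_pow, map_inv₀, map_inv₀]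
      have h1 := hmin K
      rw [inv_pow, inv_pow, ← mul_inv, ← div_eq_inv_mul, div_le_iff₀ (by positivity)]
      exact h1) ρ hρ hρC (by
      intro i j
      rw [(hF i j).eval_smul, v.map_mul, v.map_mul, v.map_pow, v.map_pow, map_inv₀, map_inv₀,
        sum_elim_cast, aeval_int, inv_pow, inv_pow, ← mul_inv, ← div_eq_inv_mul,
        div_le_iff₀ (by positivity)]
      exact hρF i j)
  refine ⟨Lf, hLf, ?_⟩
  intro u hu μ hμ hfam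
  refine hmain (fun i => (u i : ℚ)) (fun i => (v_int_le v (u i)).trans (hu i)) μ hμ ?_
  intro φ
  obtain ⟨D, hD⟩ := fam_hom hΨ hF φ
  rw [dw_scale hD u x _ (inv_ne_zero hxa'), hom_scale hD, v.map_mul, v.map_mul, v.map_mul,
    inv_inv, v.map_pow]
  have h1 := hfam φ
  calc v (x a : ℚ)⁻¹ ^ D * (v (x a) * v (dwi u x (fam Ψ F φ))) ≤
        v (x a : ℚ)⁻¹ ^ D * (μ * v (eval x (fam Ψ F φ) : ℤ)) :=
        mul_le_mul_of_nonneg_left h1 (pow_nonneg (v.nonneg _) _)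
    _ = _ := by ring

theorem sharp_int {Ψ : Fin (M + 1) → MvPolynomial (Fin (N + 1)) ℤ} {e : ℕ}
    (hΨ : ∀ j, (Ψ j).IsHomogeneous e)
    {G : Fin g → MvPolynomial (Fin (N + 1) ⊕ Fin (M + 1)) ℤ}
    {F : Fin q → Fin w → MvPolynomial (Fin (N + 1) ⊕ Fin (M + 1)) ℤ} (h : Smth G F)
    (aG bG : Fin g → ℕ) (hG : ∀ k, IsBihom (G k) (aG k) (bG k))
    (hGΨ : ∀ k, aeval (Sum.elim X Ψ) (G k) = 0) :
    ∃ c1 : ℤ, c1 ≠ 0 ∧ ∀ (p : ℕ) [Fact p.Prime], ¬ (p : ℤ) ∣ c1 →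
      ∀ (x : Fin (N + 1) → ℤ) (y : Fin (M + 1) → ℤ) (g0 : ℤ) (a : Fin (N + 1)) (b : Fin (M + 1)),
        g0 ≠ 0 → (∀ j, eval x (Ψ j) = g0 * y j) → ¬ (p : ℤ) ∣ x a → ¬ (p : ℤ) ∣ y b →
        ∃ K, padicNorm p g0 ^ (N + 1) ≤ padicNorm p (minor G K b x y) := by
  classical
  obtain ⟨c1, hc1, hsh⟩ := sharp_bound h aG bG hG hGΨ
  refine ⟨c1, hc1, ?_⟩
  intro p hp hpc x y g0 a b hg0 hxy hxa hyb
  have hxa0 : x a ≠ 0 := fun h0 => hxa (by rw [h0]; exact dvd_zero _)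
  have hyb0 : y b ≠ 0 := fun h0 => hyb (by rw [h0]; exact dvd_zero _)
  have hxa' : (x a : ℚ) ≠ 0 := by exact_mod_cast hxa0
  have hyb' : (y b : ℚ) ≠ 0 := by exact_mod_cast hyb0
  have hna : padicNorm p (x a) = 1 := (padicNorm.int_eq_one_iff _).2 hxa
  have hnb : padicNorm p (y b) = 1 := (padicNorm.int_eq_one_iff _).2 hyb
  have hinv : ∀ r : ℚ, padicNorm p r⁻¹ = (padicNorm p r)⁻¹ := by
    intro r
    have := padicNorm.div (p := p) 1 r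
    rwa [one_div, padicNorm.one, one_div] at this
  have hpow : ∀ (r : ℚ) (k : ℕ), padicNorm p (r ^ k) = padicNorm p r ^ k := by
    intro r k
    induction k with
    | zero => simp
    | succ k ih => rw [pow_succ, padicNorm.mul, ih, pow_succ]
  have hPsi : ∀ j, aeval (fun i => (x a : ℚ)⁻¹ * (x i : ℚ)) (Ψ j) =
      ((x a : ℚ)⁻¹) ^ e * ((g0 : ℚ) * y j) := by
    intro j
    rw [hom_scale (hΨ j), hxy]
    push_cast
    rfl
  have hL : aeval (fun i => (x a : ℚ)⁻¹ * (x i : ℚ)) (Ψ b) ≠ 0 := by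
    rw [hPsi]
    exact mul_ne_zero (pow_ne_zero _ (inv_ne_zero hxa')) (mul_ne_zero (by exact_mod_cast hg0) hyb')
  obtain ⟨K, hK⟩ := hsh p hpc (fun i => (x a : ℚ)⁻¹ * (x i : ℚ))
    (fun j => (y b : ℚ)⁻¹ * (y j : ℚ)) a b (by
      intro i
      rw [padicNorm.mul, hinv, hna, inv_one, one_mul]
      exact padicNorm.of_int _) (by
      intro j
      rw [padicNorm.mul, hinv, hnb, inv_one, one_mul]
      exact padicNorm.of_int _) (inv_mul_cancel₀ hxa') hL (by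
      intro j
      rw [hPsi, hPsi]
      field_simp)
  refine ⟨K, ?_⟩
  rw [hPsi, cm_scale G aG bG hG, padicNorm.mul, padicNorm.mul, padicNorm.mul, padicNorm.mul,
    hpow, hpow, hpow, hinv, hinv, hna, hnb] at hK
  simpa using hK

end Pool.Agent.H39v
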