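import Pool.Agent.H39v.Geo

set_option autoImplicit false

/-!
Uniform lower bounds for the completed minors at all places.
-/

namespace Pool.Agent.H39v

open MvPolynomial

/-- a place of the rational numbers -/
def Plc (v : AbsoluteValue ℚ ℝ) : Prop := ∀ n : ℤ, n ≠ 0 → 1 ≤ |(n : ℝ)| * v n

lemma plc_real : Plc Rat.AbsoluteValue.real := by
  intro n hn
  rw [Rat.AbsoluteValue.real_eq_abs]
  have h1 : (1 : ℝ) ≤ |(n : ℝ)| := by exact_mod_cast Int.one_le_abs hn
  have h2 : (((|(n : ℚ)| : ℚ)) : ℝ) = |(n : ℝ)| := by push_cast; rfl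
  rw [h2]
  nlinarith

lemma plc_padic (p : ℕ) [hp : Fact p.Prime] : Plc (Rat.AbsoluteValue.padic p) := by
  intro n hn
  rw [Rat.AbsoluteValue.padic_eq_padicNorm]
  have h1 : padicNorm p (n : ℚ) = (p : ℚ) ^ (-(padicValInt p n : ℤ)) := by
    rw [padicNorm.eq_zpow_of_nonzero (by exact_mod_cast hn), padicValRat.of_int]
  have h2 : (p : ℤ) ^ padicValInt p n ∣ n := padicValInt_dvd n
  have h3 : (p : ℝ) ^ padicValInt p n ≤ |(n : ℝ)| := by
    have h4 := Int.le_of_dvd (abs_pos.2 hn) ((dvd_abs _ _).2 h2)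
    exact_mod_cast h4
  have hp0 : (0 : ℝ) < p := by exact_mod_cast hp.out.pos
  rw [h1]
  push_cast
  rw [zpow_neg, zpow_natCast, ← div_eq_mul_inv, one_le_div (by positivity)]
  exact h3

lemma v_nat_le (v : AbsoluteValue ℚ ℝ) (n : ℕ) : v n ≤ n := by
  induction n with
  | zero => simp
  | succ n ih =>
    push_cast
    refine (v.add_le _ _).trans ?_
    rw [v.map_one]
    linarith

lemma v_int_le (v : AbsoluteValue ℚ ℝ) (n : ℤ) : v n ≤ |(n : ℝ)| := by
  rcases Int.natAbs_eq n with h | h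
  · rw [h]
    push_cast
    have := v_nat_le v n.natAbs
    rw [abs_abs]
    simpa using this
  · rw [h]
    push_cast
    rw [v.map_neg, abs_neg, abs_abs]
    have := v_nat_le v n.natAbs
    simpa using this

/-- sum of the absolute values of the coefficients -/
noncomputable def norm1 {σ : Type*} (P : MvPolynomial σ ℤ) : ℝ :=
  ∑ d ∈ P.support, |((P.coeff d : ℤ) : ℝ)|

lemma norm1_nonneg {σ : Type*} (P : MvPolynomial σ ℤ) : 0 ≤ norm1 P :=
  Finset.sum_nonneg fun _ _ => abs_nonneg _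

lemma v_aeval_le {σ : Type*} [Fintype σ] (v : AbsoluteValue ℚ ℝ) (P : MvPolynomial σ ℤ) (z : σ → ℚ)
    (hz : ∀ s, v (z s) ≤ 1) : v (aeval z P) ≤ norm1 P := by
  rw [aeval_def, eval₂_eq', norm1]
  refine (v.sum_le _ _).trans (Finset.sum_le_sum fun d _ => ?_)
  rw [v.map_mul]
  have h1 : v (algebraMap ℤ ℚ (coeff d P)) ≤ |((P.coeff d : ℤ) : ℝ)| := by
    simpa using v_int_le v (coeff d P)
  have h2 : v (∏ i, z i ^ d i) ≤ 1 := by
    rw [v.map_prod]
    refine Finset.prod_le_one (fun i _ => v.nonneg _) fun i _ => ?_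
    rw [v.map_pow]
    exact pow_le_one₀ (v.nonneg _) (hz i)
  calc v (algebraMap ℤ ℚ (coeff d P)) * v (∏ i, z i ^ d i) ≤ |((P.coeff d : ℤ) : ℝ)| * 1 :=
        mul_le_mul h1 h2 (v.nonneg _) (abs_nonneg _)
    _ = _ := mul_one _

lemma padic_aeval_le {σ : Type*} [Fintype σ] (p : ℕ) [hp : Fact p.Prime] (P : MvPolynomial σ ℤ)
    (z : σ → ℚ) (hz : ∀ s, padicNorm p (z s) ≤ 1) : padicNorm p (aeval z P) ≤ 1 := by
  rw [aeval_def, eval₂_eq']
  refine padicNorm.sum_le' (fun d _ => ?_) zero_le_one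
  rw [padicNorm.mul]
  have h1 : padicNorm p (algebraMap ℤ ℚ (coeff d P)) ≤ 1 := by
    simpa using padicNorm.of_int (p := p) (coeff d P)
  have h2 : padicNorm p (∏ i, z i ^ d i) ≤ 1 := by
    have h3 : ∀ s : Finset σ, padicNorm p (∏ i ∈ s, z i ^ d i) ≤ 1 := by
      classical
      intro s
      induction s using Finset.induction_on with
      | empty => simp
      | insert i s hi ih =>
        rw [Finset.prod_insert hi, padicNorm.mul]
        refine mul_le_one₀ ?_ (padicNorm.nonneg _) ih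
        have h4 : ∀ k : ℕ, padicNorm p (z i ^ k) ≤ 1 := by
          intro k
          induction k with
          | zero => simp
          | succ k ihk =>
            rw [pow_succ, padicNorm.mul]
            exact mul_le_one₀ ihk (padicNorm.nonneg _) (hz i)
        exact h4 _
    exact h3 _
  exact mul_le_one₀ h1 (padicNorm.nonneg _) h2

variable {N M g q w : ℕ}

open Classical in
/-- the family of polynomials for the Nullstellensatz -/
noncomputable def fam3 (G : Fin g → MvPolynomial (Fin (N + 1) ⊕ Fin (M + 1)) ℤ)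
    (F : Fin q → Fin w → MvPolynomial (Fin (N + 1) ⊕ Fin (M + 1)) ℤ) (b : Fin (M + 1))
    (J : Finset (Fin q)) : Fin g ⊕ ((Fin q × Fin w) ⊕ ((Fin M → Fin g) ×
      (Fin (N + 1) → (Fin q × Fin w) ⊕ (Fin M ⊕ Fin (N + 1))))) →
      MvPolynomial (Fin (N + 1) ⊕ Fin (M + 1)) ℤ :=
  Sum.elim G (Sum.elim (fun ij => if ij.1 ∈ J then F ij.1 ij.2 else 0)
    (fun Ke => if Cov J Ke.2 then (mat G F b Ke.1 Ke.2).det else 0))

theorem geo_null {G : Fin g → MvPolynomial (Fin (N + 1) ⊕ Fin (M + 1)) ℤ}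
    {F : Fin q → Fin w → MvPolynomial (Fin (N + 1) ⊕ Fin (M + 1)) ℤ} (h : Smth G F)
    (aG bG : Fin g → ℕ) (hG : ∀ k, IsBihom (G k) (aG k) (bG k))
    (aF bF : Fin q → Fin w → ℕ) (hF : ∀ i j, IsBihom (F i j) (aF i j) (bF i j))
    (a : Fin (N + 1)) (b : Fin (M + 1)) (J : Finset (Fin q)) :
    ∃ (n : ℕ) (c : ℤ) (u : _ → MvPolynomial (Fin (N + 1) ⊕ Fin (M + 1)) ℤ), c ≠ 0 ∧
      C c * (X (Sum.inl a) * X (Sum.inr b)) ^ n = ∑ l, u l * fam3 G F b J l := by
  classical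
  apply null_int
  intro z hz
  rw [map_mul, aeval_X, aeval_X]
  by_contra hne
  have ha : z (Sum.inl a) ≠ 0 := left_ne_zero_of_mul hne
  have hb : z (Sum.inr b) ≠ 0 := right_ne_zero_of_mul hne
  have hze : z = Sum.elim (fun i => z (Sum.inl i)) (fun j => z (Sum.inr j)) := by
    funext s
    rcases s with s | s <;> rfl
  rw [hze] at hz
  obtain ⟨K, e, he, hdet⟩ := geo_ne h aG bG hG aF bF hF (fun i => z (Sum.inl i))
    (fun j => z (Sum.inr j)) (fun h0 => ha (congrFun h0 a)) b hb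
    (fun k => hz (Sum.inl k)) J (fun i hi j => by
      have := hz (Sum.inr (Sum.inl (i, j)))
      simpa [fam3, hi] using this)
  apply hdet
  have := hz (Sum.inr (Sum.inr (K, e)))
  simpa [fam3, he] using this

/-- **uniform lower bound** -/
theorem geo_low {G : Fin g → MvPolynomial (Fin (N + 1) ⊕ Fin (M + 1)) ℤ}
    {F : Fin q → Fin w → MvPolynomial (Fin (N + 1) ⊕ Fin (M + 1)) ℤ} (h : Smth G F)
    (aG bG : Fin g → ℕ) (hG : ∀ k, IsBihom (G k) (aG k) (bG k))
    (aF bF : Fin q → Fin w → ℕ) (hF : ∀ i j, IsBihom (F i j) (aF i j) (bF i j)) :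
    ∃ c0 : ℝ, 0 < c0 ∧ c0 ≤ 1 ∧ ∀ v : AbsoluteValue ℚ ℝ, Plc v →
      ∀ (z : Fin (N + 1) ⊕ Fin (M + 1) → ℚ) (a : Fin (N + 1)) (b : Fin (M + 1)),
        (∀ s, v (z s) ≤ 1) → z (Sum.inl a) = 1 → z (Sum.inr b) = 1 → (∀ k, aeval z (G k) = 0) →
        ∀ J : Finset (Fin q), (∀ i ∈ J, ∀ j, v (aeval z (F i j)) ≤ c0) →
          ∃ (K : Fin M → Fin g) (e : Fin (N + 1) → (Fin q × Fin w) ⊕ (Fin M ⊕ Fin (N + 1))),
            Cov J e ∧ c0 ≤ v (aeval z (mat G F b K e).det) := by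
  classical
  choose n c u hc hu using fun (t : Fin (N + 1) × Fin (M + 1) × Finset (Fin q)) =>
    geo_null h aG bG hG aF bF hF t.1 t.2.1 t.2.2
  set D : Fin (N + 1) × Fin (M + 1) × Finset (Fin q) → ℝ := fun t =>
    |(c t : ℝ)| * (∑ l, norm1 (u t l)) with hD
  have hD0 : ∀ t, 0 ≤ D t := fun t =>
    mul_nonneg (abs_nonneg _) (Finset.sum_nonneg fun _ _ => norm1_nonneg _)
  set E : ℝ := (∑ t, D t) + 1 with hE
  have hE1 : 1 ≤ E := by
    have : 0 ≤ ∑ t, D t := Finset.sum_nonneg fun t _ => hD0 t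
    linarith
  refine ⟨1 / E, by positivity, (div_le_one (by linarith)).2 hE1, ?_⟩
  intro v hv z a b hz ha hb hGz J hJ
  by_contra hcon
  push Not at hcon
  set t : Fin (N + 1) × Fin (M + 1) × Finset (Fin q) := (a, b, J) with ht
  have h1 := congrArg (aeval z) (hu t)
  have h2 : aeval z (C (c t) * (X (Sum.inl t.1) * X (Sum.inr t.2.1)) ^ n t :
      MvPolynomial (Fin (N + 1) ⊕ Fin (M + 1)) ℤ) = (c t : ℚ) := by
    simp [ht, ha, hb]
  rw [h2, map_sum] at h1
  have h3 : v (c t : ℚ) ≤ (∑ l, norm1 (u t l)) * (1 / E) := by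
    rw [h1, Finset.sum_mul]
    refine (v.sum_le _ _).trans (Finset.sum_le_sum fun l _ => ?_)
    rw [map_mul, v.map_mul]
    refine mul_le_mul (v_aeval_le v _ z hz) ?_ (v.nonneg _) (norm1_nonneg _)
    rcases l with k | ij | Ke
    · simp only [fam3, Sum.elim_inl]
      rw [hGz, v.map_zero]
      positivity
    · simp only [fam3, Sum.elim_inl, Sum.elim_inr]
      split_ifs with hij
      · exact hJ _ hij _
      · rw [map_zero, v.map_zero]; positivity
    · simp only [fam3, Sum.elim_inr]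
      split_ifs with hKe
      · exact (hcon _ _ hKe).le
      · rw [map_zero, v.map_zero]; positivity
  have h4 := hv (c t) (hc t)
  have h5 : |(c t : ℝ)| * v (c t : ℚ) ≤ D t * (1 / E) := by
    rw [hD]
    simp only
    rw [mul_assoc]
    exact mul_le_mul_of_nonneg_left h3 (abs_nonneg _)
  have h6 : D t < E := by
    have : D t ≤ ∑ t, D t := Finset.single_le_sum (fun t _ => hD0 t) (Finset.mem_univ t)
    linarith
  have h7 : D t * (1 / E) < 1 := by
    rw [mul_one_div, div_lt_one (by linarith)]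
    exact h6
  linarith

/-- sharp version at almost all primes -/
theorem geo_sharp {G : Fin g → MvPolynomial (Fin (N + 1) ⊕ Fin (M + 1)) ℤ}
    {F : Fin q → Fin w → MvPolynomial (Fin (N + 1) ⊕ Fin (M + 1)) ℤ} (h : Smth G F)
    (aG bG : Fin g → ℕ) (hG : ∀ k, IsBihom (G k) (aG k) (bG k))
    (aF bF : Fin q → Fin w → ℕ) (hF : ∀ i j, IsBihom (F i j) (aF i j) (bF i j)) :
    ∃ c1 : ℤ, c1 ≠ 0 ∧ ∀ (p : ℕ) [Fact p.Prime], ¬ (p : ℤ) ∣ c1 →
      ∀ (z : Fin (N + 1) ⊕ Fin (M + 1) → ℚ) (a : Fin (N + 1)) (b : Fin (M + 1)),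
        (∀ s, padicNorm p (z s) ≤ 1) → z (Sum.inl a) = 1 → z (Sum.inr b) = 1 →
        (∀ k, aeval z (G k) = 0) →
          ∃ (K : Fin M → Fin g) (e : Fin (N + 1) → (Fin q × Fin w) ⊕ (Fin M ⊕ Fin (N + 1))),
            1 ≤ padicNorm p (aeval z (mat G F b K e).det) := by
  classical
  choose n c u hc hu using fun (t : Fin (N + 1) × Fin (M + 1)) =>
    geo_null h aG bG hG aF bF hF t.1 t.2 ∅
  refine ⟨∏ t, c t, Finset.prod_ne_zero_iff.2 fun t _ => hc t, ?_⟩
  intro p hp hpc z a b hz ha hb hGz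
  by_contra hcon
  push Not at hcon
  set t : Fin (N + 1) × Fin (M + 1) := (a, b) with ht
  have hpt : ¬ (p : ℤ) ∣ c t := fun hd => hpc (hd.trans (Finset.dvd_prod_of_mem c (Finset.mem_univ t)))
  have h0 : padicNorm p (c t : ℚ) = 1 := by
    rw [padicNorm.int_eq_one_iff]
    exact hpt
  have h1 := congrArg (aeval z) (hu t)
  have h2 : aeval z (C (c t) * (X (Sum.inl t.1) * X (Sum.inr t.2)) ^ n t :
      MvPolynomial (Fin (N + 1) ⊕ Fin (M + 1)) ℤ) = (c t : ℚ) := by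
    simp [ht, ha, hb]
  rw [h2, map_sum] at h1
  have h3 : padicNorm p (c t : ℚ) < 1 := by
    rw [h1]
    refine padicNorm.sum_lt' (fun l _ => ?_) zero_lt_one
    rw [map_mul, padicNorm.mul]
    have h4 : padicNorm p (aeval z (u t l)) ≤ 1 := padic_aeval_le p _ z hz
    have h5 : padicNorm p (aeval z (fam3 G F t.2 ∅ l)) < 1 := by
      rcases l with k | ij | Ke
      · simp only [fam3, Sum.elim_inl]
        rw [hGz, padicNorm.zero]
        exact zero_lt_one
      · simp [fam3]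
      · simp only [fam3, Sum.elim_inr]
        split_ifs with hKe
        · exact hcon _ _
        · rw [map_zero, padicNorm.zero]; exact zero_lt_one
    calc padicNorm p (aeval z (u t l)) * padicNorm p (aeval z (fam3 G F t.2 ∅ l)) ≤
          1 * padicNorm p (aeval z (fam3 G F t.2 ∅ l)) :=
          mul_le_mul_of_nonneg_right h4 (padicNorm.nonneg _)
      _ < 1 := by rw [one_mul]; exact h5
  linarith

lemma smth_empty {G : Fin g → MvPolynomial (Fin (N + 1) ⊕ Fin (M + 1)) ℤ}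
    {F : Fin q → Fin w → MvPolynomial (Fin (N + 1) ⊕ Fin (M + 1)) ℤ} (h : Smth G F) :
    Smth G (fun (i : Fin 0) (_ : Fin 1) => (i.elim0 : MvPolynomial (Fin (N + 1) ⊕ Fin (M + 1)) ℤ)) := by
  intro x y hx hy hz
  obtain ⟨K, J, hKJ⟩ := h x y hx hy hz
  refine ⟨K, fun i => i.elim0, ?_⟩
  have h1 := hKJ.comp Sum.inl Sum.inl_injective
  have : IsEmpty {i : Fin 0 // ∀ j : Fin 1, aeval (Sum.elim x y)
      ((fun (i : Fin 0) (_ : Fin 1) => (i.elim0 : MvPolynomial (Fin (N + 1) ⊕ Fin (M + 1)) ℤ)) i j) = 0} :=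
    ⟨fun i => i.1.elim0⟩
  rw [← linearIndependent_equiv (Equiv.sumEmpty (Fin M) {i : Fin 0 // ∀ j : Fin 1, aeval (Sum.elim x y)
      ((fun (i : Fin 0) (_ : Fin 1) => (i.elim0 : MvPolynomial (Fin (N + 1) ⊕ Fin (M + 1)) ℤ)) i j) = 0})]
    at h1
  convert h1 using 1
  funext s
  rcases s with s | s
  · rfl
  · exact s.1.elim0

end Pool.Agent.H39v
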