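import Pool.Agent.H39v.Kap
import Pool.Agent.H39v.Dir

set_option autoImplicit false

/-!
The local inequality at the real place and at the primes, in the form used for counting.
-/

namespace Pool.Agent.H39v

open MvPolynomial

variable {N M g q w : ℕ}

/-- multiplicative height of an integer vector -/
def hgt {n : ℕ} (x : Fin n → ℤ) : ℕ := Finset.univ.sup (fun i => (x i).natAbs)

lemma le_hgt {n : ℕ} (x : Fin n → ℤ) (i : Fin n) : |(x i : ℝ)| ≤ hgt x := by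
  have : (x i).natAbs ≤ hgt x :=
    Finset.le_sup (f := fun i => (x i).natAbs) (Finset.mem_univ i)
  have h2 : (((x i).natAbs : ℕ) : ℝ) ≤ (hgt x : ℝ) := by exact_mod_cast this
  rw [Nat.cast_natAbs] at h2
  push_cast at h2
  exact h2

lemma exists_hgt {n : ℕ} (x : Fin (n + 1) → ℤ) : ∃ i, |(x i : ℝ)| = hgt x := by
  obtain ⟨i, _, hi⟩ := Finset.exists_mem_eq_sup Finset.univ ⟨0, Finset.mem_univ _⟩
    (fun i => (x i).natAbs)
  refine ⟨i, ?_⟩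
  have h1 : (hgt x : ℝ) = (((x i).natAbs : ℕ) : ℝ) := by
    unfold hgt
    rw [hi]
  rw [h1, Nat.cast_natAbs]
  push_cast
  exact rfl

lemma prim_ne {n : ℕ} {x : Fin (n + 1) → ℤ} (hx : Finset.univ.gcd x = 1) : x ≠ 0 := by
  intro h0
  rw [h0] at hx
  have h5 : Finset.univ.gcd (0 : Fin (n + 1) → ℤ) = 0 := by
    rw [Finset.gcd_eq_zero_iff]
    intro i _
    rfl
  rw [h5] at hx
  exact zero_ne_one hx

lemma one_le_hgt {n : ℕ} {x : Fin (n + 1) → ℤ} (hx : Finset.univ.gcd x = 1) : 1 ≤ hgt x := by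
  by_contra h
  apply prim_ne hx
  funext i
  have h1 : (x i).natAbs ≤ hgt x :=
    Finset.le_sup (f := fun i => (x i).natAbs) (Finset.mem_univ i)
  simp only [Pi.zero_apply]
  omega

lemma prim_not_dvd {n : ℕ} {x : Fin n → ℤ} (hx : Finset.univ.gcd x = 1) {p : ℕ} (hp : p.Prime) :
    ∃ i, ¬ (p : ℤ) ∣ x i := by
  by_contra hcon
  push Not at hcon
  have h1 : (p : ℤ) ∣ Finset.univ.gcd x := Finset.dvd_gcd fun i _ => hcon i
  rw [hx] at h1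
  have h2 := Int.isUnit_iff.1 (isUnit_of_dvd_one h1)
  have := hp.two_le
  omega

/-- direction on the moment curve -/
def dirm (N s : ℕ) : Fin (N + 1) → ℤ := fun i => (s : ℤ) ^ (i : ℕ)

lemma dirm_le (N K0 : ℕ) (hK0 : 0 < K0) (s : Fin K0) (i : Fin (N + 1)) :
    |((dirm N s i : ℤ) : ℝ)| ≤ (K0 : ℝ) ^ N := by
  unfold dirm
  push_cast
  rw [abs_of_nonneg (by positivity)]
  have h1 : ((s : ℕ) : ℝ) ≤ K0 := by exact_mod_cast s.2.le
  have h2 : (1 : ℝ) ≤ K0 := by exact_mod_cast hK0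
  calc ((s : ℕ) : ℝ) ^ (i : ℕ) ≤ (K0 : ℝ) ^ (i : ℕ) := pow_le_pow_left₀ (by positivity) h1 _
    _ ≤ (K0 : ℝ) ^ N := pow_le_pow_right₀ h2 (Nat.lt_succ_iff.1 i.2)

lemma conv_exp (C μ τ η D A R : ℝ) (n : ℕ) (hη : 0 < η) (hμ : 0 ≤ μ) (hC : C ≤ D * η) (hA : η ≤ A)
    (hR : R = Real.exp (-τ)) (h : A ≤ C * μ * R ^ (1 / ((n : ℝ) + 1))) :
    Real.exp (τ / ((n : ℝ) + 1)) ≤ D * μ := by
  have h1 : R ^ (1 / ((n : ℝ) + 1)) = Real.exp (-(τ / ((n : ℝ) + 1))) := by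
    rw [hR, ← Real.exp_mul]
    congr 1
    ring
  rw [h1] at h
  have h2 : η ≤ D * η * μ * Real.exp (-(τ / ((n : ℝ) + 1))) := by
    refine hA.trans (h.trans ?_)
    apply mul_le_mul_of_nonneg_right _ (Real.exp_pos _).le
    exact mul_le_mul_of_nonneg_right hC hμ
  rw [Real.exp_neg] at h2
  have h3 : 0 < Real.exp (τ / ((n : ℝ) + 1)) := Real.exp_pos _
  rw [← div_eq_mul_inv, le_div_iff₀ h3] at h2
  have h4 : η * Real.exp (τ / ((n : ℝ) + 1)) ≤ η * (D * μ) := by linarith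
  exact le_of_mul_le_mul_left h4 hη

/-- the place `p` -/
theorem place_p {Ψ : Fin (M + 1) → MvPolynomial (Fin (N + 1)) ℤ} {e : ℕ}
    (hΨ : ∀ j, (Ψ j).IsHomogeneous e)
    {G : Fin g → MvPolynomial (Fin (N + 1) ⊕ Fin (M + 1)) ℤ}
    {F : Fin q → Fin w → MvPolynomial (Fin (N + 1) ⊕ Fin (M + 1)) ℤ} (h : Smth G F)
    (aG bG : Fin g → ℕ) (hG : ∀ k, IsBihom (G k) (aG k) (bG k))
    (hGΨ : ∀ k, aeval (Sum.elim X Ψ) (G k) = 0)
    (aF bF : Fin q → Fin w → ℕ) (hF : ∀ i j, IsBihom (F i j) (aF i j) (bF i j))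
    (W0 : ℝ) (hW0 : 0 ≤ W0) :
    ∃ C : ℝ, 1 ≤ C ∧ ∀ (p : ℕ) [Fact p.Prime] (x : Fin (N + 1) → ℤ) (y : Fin (M + 1) → ℤ) (g0 gR : ℕ)
      (ρ : Fin q → ℝ), Finset.univ.gcd x = 1 → Finset.univ.gcd y = 1 → 0 < g0 → 0 < gR →
      (∀ j, eval x (Ψ j) = g0 * y j) → (∀ K b, (gR : ℤ) ∣ minor G K b x y) →
      (∀ i, 0 < ρ i) → (∀ i, ρ i ≤ 1) →
      (∀ i j, (padicNorm p ((eval (Sum.elim x y) (F i j) : ℤ) : ℚ) : ℝ) ≤ ρ i) →
      (∀ φ, eval x (fam Ψ F φ) = 0 → fam Ψ F φ = 0) →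
      ∃ Lf : Fin (N + 1) → ℚ, (∃ i, Lf i = 1) ∧ ∀ (D η : ℝ), 0 < η → C ≤ D * η →
        ∀ u : Fin (N + 1) → ℤ, (∀ i, |(u i : ℝ)| ≤ W0) →
        η ≤ Rat.AbsoluteValue.padic p (∑ i, Lf i * u i) →
        Real.exp ((gR.factorization p * Real.log p + ∑ i, -Real.log (ρ i)) / ((N : ℝ) + 1)) ≤
          D * (p : ℝ) ^ (kap p (fun φ => eval x (fam Ψ F φ)) (fun φ => dwi u x (fam Ψ F φ))) := by
  classical
  obtain ⟨C, hC, hloc⟩ := local_int hΨ h aG bG hG hGΨ aF bF hF W0 1 hW0 le_rfl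
  refine ⟨C, hC, ?_⟩
  intro p hp x y g0 gR ρ hx hy hg0 hgR hxy hmin hρ hρ1 hρF hfam0
  have hp0 : (0 : ℝ) < p := by exact_mod_cast hp.out.pos
  obtain ⟨a, ha⟩ := prim_not_dvd hx hp.out
  obtain ⟨b, hb⟩ := prim_not_dvd hy hp.out
  have hva : Rat.AbsoluteValue.padic p (x a) = 1 := by
    rw [Rat.AbsoluteValue.padic_eq_padicNorm, (padicNorm.int_eq_one_iff _).2 ha]; norm_num
  have hvb : Rat.AbsoluteValue.padic p (y b) = 1 := by
    rw [Rat.AbsoluteValue.padic_eq_padicNorm, (padicNorm.int_eq_one_iff _).2 hb]; norm_num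
  have hle1 : ∀ n : ℤ, Rat.AbsoluteValue.padic p (n : ℚ) ≤ 1 := by
    intro n
    rw [Rat.AbsoluteValue.padic_eq_padicNorm]
    exact_mod_cast padicNorm.of_int n
  set ρR : ℝ := (padicNorm p (gR : ℚ) : ℝ) with hρR
  have hgRQ : (gR : ℚ) ≠ 0 := by exact_mod_cast hgR.ne'
  have hρRv : ρR = Real.exp (-(gR.factorization p * Real.log p)) := by
    have h1 := padic_int p (gR : ℤ) (by exact_mod_cast hgR.ne')
    rw [hρR]
    have h2 : (padicNorm p (gR : ℚ) : ℝ) = ((p : ℝ) ^ (padicValInt p (gR : ℤ)))⁻¹ := by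
      rw [← h1]; simp
    rw [h2, padicValInt.of_nat, Real.exp_neg, mul_comm, Real.exp_mul, Real.exp_log hp0,
      Real.rpow_natCast, Nat.factorization_def _ hp.out]
  have hρR0 : 0 < ρR := by rw [hρRv]; exact Real.exp_pos _
  obtain ⟨Lf, hLf, hmain⟩ := hloc (Rat.AbsoluteValue.padic p) (plc_padic p) x y g0 a b
    (by exact_mod_cast hg0.ne') (fun j => by rw [hxy]) (fun h0 => ha (by rw [h0]; exact dvd_zero _))
    (fun h0 => hb (by rw [h0]; exact dvd_zero _)) (fun i => by rw [hva]; exact hle1 _)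
    (fun j => by rw [hvb]; exact hle1 _) ρR hρR0 (by
      intro K
      rw [hva, hvb, one_pow, one_pow, mul_one, mul_one]
      obtain ⟨m, hm⟩ := hmin K b
      rw [hm, Rat.AbsoluteValue.padic_eq_padicNorm]
      push_cast
      rw [padicNorm.mul]
      push_cast
      have h1 : (padicNorm p (m : ℚ) : ℝ) ≤ 1 := by exact_mod_cast padicNorm.of_int m
      calc (padicNorm p (gR : ℚ) : ℝ) * (padicNorm p (m : ℚ) : ℝ) ≤ ρR * 1 :=
            mul_le_mul_of_nonneg_left h1 hρR0.le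
        _ = ρR := mul_one _) ρ hρ hρ1 (by
      intro i j
      rw [hva, hvb, one_pow, one_pow, mul_one, mul_one]
      exact hρF i j)
  refine ⟨Lf, hLf, ?_⟩
  intro D η hη hCD u hu hηu
  have hkap := kap_bound p (fun φ => eval x (fam Ψ F φ)) (fun φ => dwi u x (fam Ψ F φ)) (by
    intro φ hφ
    rw [hfam0 φ hφ]
    simp [dwi])
  have hp1 : (1 : ℝ) ≤ p := by exact_mod_cast hp.out.one_lt.le
  have h1 := hmain u hu ((p : ℝ) ^ (kap p (fun φ => eval x (fam Ψ F φ))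
    (fun φ => dwi u x (fam Ψ F φ)))) (one_le_pow₀ hp1) (by
    intro φ
    rw [hva, one_mul]
    exact hkap φ)
  refine conv_exp C _ _ η D _ (ρR * ∏ i, ρ i) N hη (by positivity) hCD hηu ?_ h1
  rw [hρRv, neg_add, Real.exp_add]
  congr 1
  rw [← Finset.sum_neg_distrib, Real.exp_sum]
  exact Finset.prod_congr rfl fun i _ => by rw [neg_neg, Real.exp_log (hρ i)]

/-- the real place -/
theorem place_inf {Ψ : Fin (M + 1) → MvPolynomial (Fin (N + 1)) ℤ} {e : ℕ}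
    (hΨ : ∀ j, (Ψ j).IsHomogeneous e)
    {G : Fin g → MvPolynomial (Fin (N + 1) ⊕ Fin (M + 1)) ℤ}
    {F : Fin q → Fin w → MvPolynomial (Fin (N + 1) ⊕ Fin (M + 1)) ℤ} (h : Smth G F)
    (aG bG : Fin g → ℕ) (hG : ∀ k, IsBihom (G k) (aG k) (bG k))
    (hGΨ : ∀ k, aeval (Sum.elim X Ψ) (G k) = 0)
    (aF bF : Fin q → Fin w → ℕ) (hF : ∀ i j, IsBihom (F i j) (aF i j) (bF i j))
    (W0 C1 : ℝ) (hW0 : 0 ≤ W0) (hC1 : 1 ≤ C1) :
    ∃ C : ℝ, 1 ≤ C ∧ ∀ (x : Fin (N + 1) → ℤ) (y : Fin (M + 1) → ℤ) (g0 : ℕ)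
      (ρR : ℝ) (ρ : Fin q → ℝ), Finset.univ.gcd x = 1 → Finset.univ.gcd y = 1 → 0 < g0 → 0 < ρR →
      (∀ j, eval x (Ψ j) = g0 * y j) → (∀ K b, |(minor G K b x y : ℝ)| ≤
        ρR * ((hgt x : ℝ) ^ (∑ m, aG (K m)) * (hgt y : ℝ) ^ (∑ m, (bG (K m) - 1)))) →
      (∀ i, 0 < ρ i) → (∀ i, ρ i ≤ C1) →
      (∀ i j, |((eval (Sum.elim x y) (F i j) : ℤ) : ℝ)| ≤
        ρ i * ((hgt x : ℝ) ^ aF i j * (hgt y : ℝ) ^ bF i j)) →
      ∃ Lf : Fin (N + 1) → ℚ, (∃ i, Lf i = 1) ∧ ∀ (D η : ℝ), 0 < η → C ≤ D * η →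
        ∀ u : Fin (N + 1) → ℤ, (∀ i, |(u i : ℝ)| ≤ W0) →
        η ≤ Rat.AbsoluteValue.real (∑ i, Lf i * u i) → ∀ μ : ℝ, 1 ≤ μ →
        (∀ φ, (hgt x : ℝ) * |(dwi u x (fam Ψ F φ) : ℝ)| ≤ μ * |((eval x (fam Ψ F φ) : ℤ) : ℝ)|) →
        Real.exp ((-Real.log ρR + ∑ i, -Real.log (ρ i)) / ((N : ℝ) + 1)) ≤ D * μ := by
  classical
  obtain ⟨C, hC, hloc⟩ := local_int hΨ h aG bG hG hGΨ aF bF hF W0 C1 hW0 hC1
  refine ⟨C, hC, ?_⟩
  intro x y g0 ρR ρ hx hy hg0 hρR hxy hmin hρ hρ1 hρF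
  obtain ⟨a, ha⟩ := exists_hgt x
  obtain ⟨b, hb⟩ := exists_hgt y
  have hreal : ∀ n : ℤ, Rat.AbsoluteValue.real (n : ℚ) = |(n : ℝ)| := by
    intro n
    rw [Rat.AbsoluteValue.real_eq_abs]
    push_cast
    rfl
  have hx1 : (1 : ℝ) ≤ hgt x := by exact_mod_cast one_le_hgt hx
  have hy1 : (1 : ℝ) ≤ hgt y := by exact_mod_cast one_le_hgt hy
  have hxa : x a ≠ 0 := by
    intro h0
    rw [h0] at ha
    simp only [Int.cast_zero, abs_zero] at ha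
    linarith
  have hyb : y b ≠ 0 := by
    intro h0
    rw [h0] at hb
    simp only [Int.cast_zero, abs_zero] at hb
    linarith
  obtain ⟨Lf, hLf, hmain⟩ := hloc Rat.AbsoluteValue.real plc_real x y g0 a b
    (by exact_mod_cast hg0.ne') (fun j => by rw [hxy]) hxa hyb
    (fun i => by rw [hreal, hreal, ha]; exact le_hgt x i)
    (fun j => by rw [hreal, hreal, hb]; exact le_hgt y j) ρR hρR (by
      intro K
      rw [hreal, hreal, hreal, ha, hb]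
      exact hmin K b) ρ hρ hρ1 (by
      intro i j
      rw [hreal, hreal, hreal, ha, hb]
      exact hρF i j)
  refine ⟨Lf, hLf, ?_⟩
  intro D η hη hCD u hu hηu μ hμ hfam
  have h1 := hmain u hu μ hμ (by
    intro φ
    rw [hreal, hreal, hreal, ha]
    exact hfam φ)
  refine conv_exp C _ _ η D _ (ρR * ∏ i, ρ i) N hη (by positivity) hCD hηu ?_ h1
  rw [neg_add, neg_neg, Real.exp_add, Real.exp_log hρR]
  congr 1
  rw [← Finset.sum_neg_distrib, Real.exp_sum]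
  exact Finset.prod_congr rfl fun i _ => by rw [neg_neg, Real.exp_log (hρ i)]

end Pool.Agent.H39v
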