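import Pool.Agent.H39v.Sharp
import Pool.Agent.H39v.Place

set_option autoImplicit false

/-!
At a point of the graph one of the minors is nonzero; sizes of values.
-/

namespace Pool.Agent.H39v

open MvPolynomial

variable {N M g q w : ℕ}

theorem minor_ne {Ψ : Fin (M + 1) → MvPolynomial (Fin (N + 1)) ℤ}
    {G : Fin g → MvPolynomial (Fin (N + 1) ⊕ Fin (M + 1)) ℤ}
    {F : Fin q → Fin w → MvPolynomial (Fin (N + 1) ⊕ Fin (M + 1)) ℤ} (h : Smth G F)
    (aG bG : Fin g → ℕ) (hG : ∀ k, IsBihom (G k) (aG k) (bG k))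
    (aF bF : Fin q → Fin w → ℕ) (hF : ∀ i j, IsBihom (F i j) (aF i j) (bF i j))
    (hGΨ : ∀ k, aeval (Sum.elim X Ψ) (G k) = 0)
    (x : Fin (N + 1) → ℤ) (y : Fin (M + 1) → ℤ) (hx : x ≠ 0) (g0 : ℤ)
    (hy : ∀ j, eval x (Ψ j) = g0 * y j) (hne : ∃ j, eval x (Ψ j) ≠ 0) :
    ∃ K b, minor G K b x y ≠ 0 := by
  classical
  obtain ⟨b, hb⟩ := hne
  have hyb : y b ≠ 0 := by
    intro h0
    apply hb
    rw [hy, h0, mul_zero]
  have hybq : (y b : ℚ) ≠ 0 := by exact_mod_cast hyb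
  set xq : Fin (N + 1) → ℚ := fun i => (x i : ℚ) with hxq
  set yq : Fin (M + 1) → ℚ := fun j => (y b : ℚ)⁻¹ * (y j : ℚ) with hyq
  have hbq : aeval xq (Ψ b) ≠ 0 := by
    rw [hxq, aeval_int]
    exact_mod_cast hb
  have hyq1 : ∀ j, aeval xq (Ψ j) = aeval xq (Ψ b) * yq j := by
    intro j
    rw [hxq, aeval_int, aeval_int, hy j, hy b, hyq]
    push_cast
    field_simp
  have hGz : ∀ k, aeval (Sum.elim xq yq) (G k) = 0 := by
    intro k
    have h1 := comp_eq Ψ b xq yq hyq1 (hG k)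
    rw [hGΨ, map_zero] at h1
    exact (mul_eq_zero.1 h1.symm).resolve_left (pow_ne_zero _ hbq)
  have hcast : ∀ P : MvPolynomial (Fin (N + 1) ⊕ Fin (M + 1)) ℤ,
      aeval (Sum.elim (fun i => (xq i : ℂ)) (fun j => (yq j : ℂ)) : Fin (N + 1) ⊕ Fin (M + 1) → ℂ) P =
        ((aeval (Sum.elim xq yq) P : ℚ) : ℂ) := by
    intro P
    have h1 : (Sum.elim (fun i => (xq i : ℂ)) (fun j => (yq j : ℂ)) :
        Fin (N + 1) ⊕ Fin (M + 1) → ℂ) = (algebraMap ℚ ℂ) ∘ (Sum.elim xq yq) := by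
      funext s
      rcases s with s | s <;> rfl
    rw [h1, aeval_algebraMap_apply]
    rfl
  have hx0 : (fun i => (xq i : ℂ)) ≠ 0 := by
    intro h0
    apply hx
    funext i
    have := congrFun h0 i
    simp only [hxq, Pi.zero_apply] at this
    exact_mod_cast this
  obtain ⟨K, e, _, hdet⟩ := geo_ne h aG bG hG aF bF hF (fun i => (xq i : ℂ))
    (fun j => (yq j : ℂ)) hx0 b (by
      simp only [hyq]
      rw [inv_mul_cancel₀ hybq]
      norm_num) (fun k => by rw [hcast, hGz]; simp) ∅ (by simp)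
  rw [hcast] at hdet
  have hdet2 : aeval (Sum.elim xq yq) (mat G F b K e).det ≠ 0 := by
    intro h0
    rw [h0] at hdet
    exact hdet (by simp)
  rw [det_split Ψ G aG bG hG hGΨ F b xq yq hbq hyq1 K e] at hdet2
  have h3 := left_ne_zero_of_mul hdet2
  refine ⟨K, b, ?_⟩
  have h4 := cm_scale G aG bG hG b K x y 1 (y b : ℚ)⁻¹
  have h5 : (Sum.elim (fun i => (1 : ℚ) * (x i : ℚ)) (fun j => (y b : ℚ)⁻¹ * (y j : ℚ)) :
      Fin (N + 1) ⊕ Fin (M + 1) → ℚ) = Sum.elim xq yq := by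
    congr 1
    funext i
    rw [one_mul]
  rw [h5] at h4
  rw [h4] at h3
  have h6 := right_ne_zero_of_mul h3
  exact_mod_cast h6

theorem eval_le {n m : ℕ} {P : MvPolynomial (Fin n ⊕ Fin m) ℤ} {a b : ℕ} (h : IsBihom P a b)
    (x : Fin n → ℤ) (y : Fin m → ℤ) :
    |((eval (Sum.elim x y) P : ℤ) : ℝ)| ≤ norm1 P * ((hgt x : ℝ) ^ a * (hgt y : ℝ) ^ b) := by
  rw [eval_eq', norm1]
  push_cast
  rw [Finset.sum_mul]
  refine (Finset.abs_sum_le_sum_abs _ _).trans (Finset.sum_le_sum fun d hd => ?_)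
  rw [abs_mul]
  refine mul_le_mul_of_nonneg_left ?_ (abs_nonneg _)
  obtain ⟨h1, h2⟩ := h.deg (mem_support_iff.1 hd)
  rw [Fintype.prod_sum_type, abs_mul, Finset.abs_prod, Finset.abs_prod]
  refine mul_le_mul ?_ ?_ (Finset.prod_nonneg fun _ _ => abs_nonneg _) (by positivity)
  · calc ∏ i, |((Sum.elim x y (Sum.inl i) : ℤ) : ℝ) ^ d (Sum.inl i)|
        ≤ ∏ i, (hgt x : ℝ) ^ d (Sum.inl i) := by
          refine Finset.prod_le_prod (fun _ _ => abs_nonneg _) fun i _ => ?_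
          rw [abs_pow]
          exact pow_le_pow_left₀ (abs_nonneg _) (le_hgt x i) _
      _ = (hgt x : ℝ) ^ a := by rw [Finset.prod_pow_eq_pow_sum, h1]
  · calc ∏ i, |((Sum.elim x y (Sum.inr i) : ℤ) : ℝ) ^ d (Sum.inr i)|
        ≤ ∏ i, (hgt y : ℝ) ^ d (Sum.inr i) := by
          refine Finset.prod_le_prod (fun _ _ => abs_nonneg _) fun i _ => ?_
          rw [abs_pow]
          exact pow_le_pow_left₀ (abs_nonneg _) (le_hgt y i) _
      _ = (hgt y : ℝ) ^ b := by rw [Finset.prod_pow_eq_pow_sum, h2]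

end Pool.Agent.H39v
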