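import Mathlib

set_option autoImplicit false

/-!
Nullstellensatz with integer coefficients.
-/

namespace Pool.Agent.H39v

open MvPolynomial

variable {σ ι : Type}

/-- common denominator of a polynomial -/
lemma denom_one (u : MvPolynomial σ ℚ) : ∃ (D : ℤ) (u' : MvPolynomial σ ℤ), D ≠ 0 ∧
    MvPolynomial.map (Int.castRingHom ℚ) u' = C (D : ℚ) * u := by
  induction u using MvPolynomial.induction_on with
  | C a =>
    refine ⟨a.den, C a.num, by exact_mod_cast a.den_nz, ?_⟩
    rw [map_C, ← C_mul]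
    congr 1
    have := Rat.den_mul_eq_num a
    push_cast
    rw [this]
    simp
  | add p q hp hq =>
    obtain ⟨D1, u1, hD1, h1⟩ := hp
    obtain ⟨D2, u2, hD2, h2⟩ := hq
    refine ⟨D1 * D2, C D2 * u1 + C D1 * u2, mul_ne_zero hD1 hD2, ?_⟩
    rw [map_add, map_mul, map_mul, h1, h2, map_C, map_C]
    simp only [eq_intCast, Int.cast_mul, C_mul]
    ring
  | mul_X p i hp =>
    obtain ⟨D, u, hD, h⟩ := hp
    refine ⟨D, u * X i, hD, ?_⟩
    rw [map_mul, h, map_X]
    ring

lemma denom_all [Fintype ι] (u : ι → MvPolynomial σ ℚ) : ∃ (D : ℤ) (u' : ι → MvPolynomial σ ℤ), D ≠ 0 ∧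
    ∀ i, MvPolynomial.map (Int.castRingHom ℚ) (u' i) = C (D : ℚ) * u i := by
  classical
  choose D u' hD h using fun i => denom_one (u i)
  refine ⟨∏ i, D i, fun i => C (∏ j ∈ Finset.univ.erase i, D j) * u' i,
    Finset.prod_ne_zero_iff.2 fun i _ => hD i, fun i => ?_⟩
  rw [map_mul, h, map_C, ← mul_assoc, ← C_mul]
  congr 2
  rw [← Finset.mul_prod_erase Finset.univ D (Finset.mem_univ i)]
  simp only [eq_intCast, Int.cast_mul, Int.cast_prod]
  ring

/-- **Nullstellensatz** over the integers -/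
theorem null_int [Fintype σ] [Fintype ι] (P : ι → MvPolynomial σ ℤ) (h : MvPolynomial σ ℤ)
    (hz : ∀ z : σ → ℂ, (∀ l, aeval z (P l) = 0) → aeval z h = 0) :
    ∃ (n : ℕ) (c : ℤ) (u : ι → MvPolynomial σ ℤ), c ≠ 0 ∧ C c * h ^ n = ∑ l, u l * P l := by
  classical
  set φ : MvPolynomial σ ℤ →+* MvPolynomial σ ℚ := MvPolynomial.map (Int.castRingHom ℚ) with hφ
  have haev : ∀ (z : σ → ℂ) (p : MvPolynomial σ ℤ), aeval z (φ p) = aeval z p := by
    intro z p
    rw [hφ, aeval_def, eval₂_map, aeval_def]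
    congr 1
  set I : Ideal (MvPolynomial σ ℚ) := Ideal.span (Set.range fun l => φ (P l)) with hI
  have h1 : φ h ∈ I.radical := by
    rw [← vanishingIdeal_zeroLocus_eq_radical (K := ℂ) I, mem_vanishingIdeal_iff]
    intro z hzI
    rw [hI, zeroLocus_span] at hzI
    rw [haev]
    apply hz
    intro l
    rw [← haev]
    exact hzI _ ⟨l, rfl⟩
  obtain ⟨n, hn⟩ := h1
  rw [hI, Ideal.mem_span_range_iff_exists_fun] at hn
  obtain ⟨u, hu⟩ := hn
  obtain ⟨D, u', hD, hu'⟩ := denom_all u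
  refine ⟨n, D, u', hD, ?_⟩
  have hinj : Function.Injective φ := map_injective _ (RingHom.injective_int _)
  apply hinj
  rw [map_mul, map_pow, ← hu, map_sum, Finset.mul_sum]
  refine Finset.sum_congr rfl fun l _ => ?_
  rw [map_mul, hφ, hu', map_C]
  simp only [eq_intCast]
  ring

end Pool.Agent.H39v
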