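import Mathlib

set_option autoImplicit false

/-!
A large logarithmic derivative means that a root is near.
-/

namespace Pool.Agent.H39v

open Polynomial Finset

theorem padic_root (p : ℕ) [hp : Fact p.Prime] (f : ℤ[X]) (t : ℤ) (T : ℝ) (hT : 0 < T)
    (h0 : f.eval t ≠ 0)
    (h : T * (padicNorm p ((f.eval t : ℤ) : ℚ) : ℝ) ≤ (padicNorm p ((f.derivative.eval t : ℤ) : ℚ) : ℝ)) :
    ∃ α ∈ (f.map (algebraMap ℤ (PadicAlgCl p))).roots, ‖(t : PadicAlgCl p) - α‖ ≤ 1 / T := by
  set E := PadicAlgCl p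
  set F := f.map (algebraMap ℤ (PadicAlgCl p)) with hF
  have hnorm : ∀ n : ℤ, ‖(n : PadicAlgCl p)‖ = (padicNorm p (n : ℚ) : ℝ) := by
    intro n
    have h1 : (n : PadicAlgCl p) = ((n : ℚ_[p]) : PadicAlgCl p) := by simp
    rw [h1, PadicAlgCl.norm_extends]
    have h2 : ((n : ℚ_[p])) = (((n : ℚ) : ℚ_[p])) := by push_cast; rfl
    rw [h2, Padic.eq_padicNorm]
  have hev : F.eval (t : PadicAlgCl p) = ((f.eval t : ℤ) : PadicAlgCl p) := by
    rw [hF, eval_map_algebraMap]
    have := aeval_algebraMap_apply (A := ℤ) (PadicAlgCl p) t f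
    simpa using this
  have hdev : F.derivative.eval (t : PadicAlgCl p) = ((f.derivative.eval t : ℤ) : PadicAlgCl p) := by
    rw [hF, derivative_map, eval_map_algebraMap]
    have := aeval_algebraMap_apply (A := ℤ) (PadicAlgCl p) t f.derivative
    simpa using this
  have hne : F.eval (t : PadicAlgCl p) ≠ 0 := by
    rw [hev]
    exact_mod_cast h0
  have h2 := (IsAlgClosed.splits F).eval_derivative_eq_eval_mul_sum hne
  obtain ⟨α, hα, hle⟩ := IsUltrametricDist.exists_norm_multiset_sum_le F.roots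
    (f := fun z => 1 / ((t : PadicAlgCl p) - z))
  have h3 : ‖F.derivative.eval (t : PadicAlgCl p)‖ ≤ ‖F.eval (t : PadicAlgCl p)‖ *
      ‖1 / ((t : PadicAlgCl p) - α)‖ := by
    rw [h2, norm_mul]
    exact mul_le_mul_of_nonneg_left hle (norm_nonneg _)
  have hpos : 0 < ‖F.eval (t : PadicAlgCl p)‖ := norm_pos_iff.2 hne
  have h4 : T ≤ ‖1 / ((t : PadicAlgCl p) - α)‖ := by
    have h5 : T * ‖F.eval (t : PadicAlgCl p)‖ ≤ ‖F.eval (t : PadicAlgCl p)‖ *
      ‖1 / ((t : PadicAlgCl p) - α)‖ := by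
      refine le_trans ?_ h3
      rw [hev, hdev, hnorm, hnorm]
      exact h
    rw [mul_comm] at h5
    exact le_of_mul_le_mul_left h5 hpos
  have hroots : F.roots ≠ 0 := by
    intro hr
    rw [hr] at h2
    simp only [Multiset.map_zero, Multiset.sum_zero, mul_zero] at h2
    rw [hdev] at h2
    have h6 : ((f.derivative.eval t : ℤ)) = 0 := by exact_mod_cast h2
    rw [h6] at h
    simp only [Int.cast_zero, padicNorm.zero] at h
    have h7 : (0 : ℝ) < (padicNorm p ((f.eval t : ℤ) : ℚ) : ℝ) := by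
      rw [← hnorm, ← hev]; exact hpos
    have := mul_pos hT h7
    simp at h
    linarith
  refine ⟨α, hα hroots, ?_⟩
  rw [norm_div, norm_one] at h4
  have h5 : 0 < ‖(t : PadicAlgCl p) - α‖ := by
    by_contra h6
    have h7 : ‖(t : PadicAlgCl p) - α‖ = 0 := le_antisymm (not_lt.1 h6) (norm_nonneg _)
    rw [h7, div_zero] at h4
    linarith
  rw [le_div_iff₀ hT, mul_comm]
  exact (le_div_iff₀ h5).1 h4

theorem padic_classes (p : ℕ) [hp : Fact p.Prime] (f : ℤ[X]) (k : ℕ) (S : Finset ℤ)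
    (hS : ∀ t ∈ S, f.eval t ≠ 0 ∧ (p : ℝ) ^ k * (padicNorm p ((f.eval t : ℤ) : ℚ) : ℝ) ≤
      (padicNorm p ((f.derivative.eval t : ℤ) : ℚ) : ℝ)) :
    #(S.image (fun t : ℤ => (t : ZMod (p ^ k)))) ≤ f.natDegree := by
  classical
  set F := f.map (algebraMap ℤ (PadicAlgCl p)) with hF
  have hppos : (0 : ℝ) < (p : ℝ) ^ k := by
    have : 0 < p := hp.out.pos
    positivity
  have h1 : ∀ t ∈ S, ∃ α ∈ F.roots, ‖(t : PadicAlgCl p) - α‖ ≤ 1 / (p : ℝ) ^ k :=
    fun t ht => padic_root p f t _ hppos (hS t ht).1 (hS t ht).2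
  choose! α hα hle using h1
  have hcard : #(S.image (fun t : ℤ => (t : ZMod (p ^ k)))) ≤ #(F.roots.toFinset) := by
    -- classes are determined by the root
    set r : ZMod (p ^ k) → ℤ := fun c => if h : ∃ t ∈ S, (t : ZMod (p ^ k)) = c then h.choose else 0
      with hr
    refine Finset.card_le_card_of_injOn (fun c => α (r c)) ?_ ?_
    · intro c hc
      rw [mem_coe, mem_image] at hc
      have h2 : r c ∈ S := by
        simp only [hr]
        rw [dif_pos hc]
        exact hc.choose_spec.1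
      rw [mem_coe, Multiset.mem_toFinset]
      exact hα _ h2
    · intro c hc c' hc' hcc
      rw [mem_coe, mem_image] at hc hc'
      have h2 : r c ∈ S ∧ ((r c : ℤ) : ZMod (p ^ k)) = c := by
        simp only [hr]
        rw [dif_pos hc]
        exact hc.choose_spec
      have h3 : r c' ∈ S ∧ ((r c' : ℤ) : ZMod (p ^ k)) = c' := by
        simp only [hr]
        rw [dif_pos hc']
        exact hc'.choose_spec
      simp only at hcc
      rw [← h2.2, ← h3.2]
      have h4 : ‖((r c - r c' : ℤ) : PadicAlgCl p)‖ ≤ 1 / (p : ℝ) ^ k := by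
        have h5 : ((r c - r c' : ℤ) : PadicAlgCl p) = ((r c : PadicAlgCl p) - α (r c)) -
            ((r c' : PadicAlgCl p) - α (r c')) := by
          rw [hcc]; push_cast; ring
        rw [h5]
        rw [sub_eq_add_neg]
        refine (IsUltrametricDist.norm_add_le_max _ _).trans (max_le (hle _ h2.1) ?_)
        rw [norm_neg]
        exact hle _ h3.1
      have h6 : ‖((r c - r c' : ℤ) : PadicAlgCl p)‖ = ‖((r c - r c' : ℤ) : ℚ_[p])‖ := by
        have h7 : ((r c - r c' : ℤ) : PadicAlgCl p) = (((r c - r c' : ℤ) : ℚ_[p]) : PadicAlgCl p) := by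
          simp
        rw [h7, PadicAlgCl.norm_extends]
      rw [h6, one_div, ← zpow_natCast, ← zpow_neg, Padic.norm_int_le_pow_iff_dvd] at h4
      rw [← sub_eq_zero, ← Int.cast_sub, ZMod.intCast_zmod_eq_zero_iff_dvd]
      exact_mod_cast h4
  refine hcard.trans ((Multiset.toFinset_card_le _).trans ?_)
  refine (card_roots' F).trans ?_
  rw [hF]
  exact natDegree_map_le

theorem real_root (f : ℤ[X]) (t : ℤ) (T : ℝ) (hT : 0 < T) (h0 : f.eval t ≠ 0)
    (h : T * |((f.eval t : ℤ) : ℝ)| ≤ |((f.derivative.eval t : ℤ) : ℝ)|) :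
    ∃ α ∈ (f.map (algebraMap ℤ ℂ)).roots, |(t : ℝ) - α.re| ≤ f.natDegree / T := by
  classical
  set F := f.map (algebraMap ℤ ℂ) with hF
  have hev : F.eval (t : ℂ) = ((f.eval t : ℤ) : ℂ) := by
    rw [hF, eval_map_algebraMap]
    have := aeval_algebraMap_apply (A := ℤ) ℂ t f
    simpa using this
  have hdev : F.derivative.eval (t : ℂ) = ((f.derivative.eval t : ℤ) : ℂ) := by
    rw [hF, derivative_map, eval_map_algebraMap]
    have := aeval_algebraMap_apply (A := ℤ) ℂ t f.derivative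
    simpa using this
  have hne : F.eval (t : ℂ) ≠ 0 := by
    rw [hev]
    exact_mod_cast h0
  have h2 := (IsAlgClosed.splits F).eval_derivative_eq_eval_mul_sum hne
  by_contra hcon
  push Not at hcon
  have hTd : ∀ z ∈ F.roots, ‖1 / ((t : ℂ) - z)‖ < T / f.natDegree := by
    intro z hz
    have h3 := hcon z hz
    have h4 : |(t : ℝ) - z.re| ≤ ‖(t : ℂ) - z‖ := by
      have := Complex.abs_re_le_norm ((t : ℂ) - z)
      simpa using this
    have h5 : (f.natDegree : ℝ) / T < ‖(t : ℂ) - z‖ := lt_of_lt_of_le h3 h4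
    have hd : 0 < (f.natDegree : ℝ) := by
      have h6 : 0 < Multiset.card F.roots := Multiset.card_pos_iff_exists_mem.2 ⟨z, hz⟩
      have h7 := (card_roots' F).trans (natDegree_map_le (f := algebraMap ℤ ℂ) (p := f))
      have : 0 < f.natDegree := by omega
      exact_mod_cast this
    rw [norm_div, norm_one]
    rw [div_lt_div_iff₀ (lt_trans (by positivity) h5) hd]
    rw [div_lt_iff₀ hT] at h5
    linarith
  have h3 : ‖F.derivative.eval (t : ℂ)‖ = ‖F.eval (t : ℂ)‖ *
      ‖(F.roots.map fun z => 1 / ((t : ℂ) - z)).sum‖ := by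
    rw [h2, norm_mul]
  have hpos : 0 < ‖F.eval (t : ℂ)‖ := norm_pos_iff.2 hne
  have h4 : T ≤ ‖(F.roots.map fun z => 1 / ((t : ℂ) - z)).sum‖ := by
    have h5 : T * ‖F.eval (t : ℂ)‖ ≤ ‖F.eval (t : ℂ)‖ *
      ‖(F.roots.map fun z => 1 / ((t : ℂ) - z)).sum‖ := by
      rw [← h3, hev, hdev, Complex.norm_intCast, Complex.norm_intCast]
      exact h
    rw [mul_comm] at h5
    exact le_of_mul_le_mul_left h5 hpos
  by_cases hr : F.roots = 0
  · rw [hr] at h4
    simp at h4
    linarith
  have h5 : ‖(F.roots.map fun z => 1 / ((t : ℂ) - z)).sum‖ ≤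
      (F.roots.map fun z => ‖1 / ((t : ℂ) - z)‖).sum := by
    have := Multiset.le_sum_of_subadditive (norm : ℂ → ℝ) norm_zero.le norm_add_le
      (F.roots.map fun z => 1 / ((t : ℂ) - z))
    simpa [Multiset.map_map] using this
  have h6 : (F.roots.map fun z => ‖1 / ((t : ℂ) - z)‖).sum <
      (F.roots.map fun _ => T / (f.natDegree : ℝ)).sum :=
    Multiset.sum_lt_sum_of_nonempty hr hTd
  have h7 : (F.roots.map fun _ => T / (f.natDegree : ℝ)).sum ≤ T := by
    rw [Multiset.map_const', Multiset.sum_replicate, nsmul_eq_mul]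
    have h8 := (card_roots' F).trans (natDegree_map_le (f := algebraMap ℤ ℂ) (p := f))
    have h9 : (Multiset.card F.roots : ℝ) ≤ f.natDegree := by exact_mod_cast h8
    by_cases hd : (f.natDegree : ℝ) = 0
    · rw [hd, div_zero, mul_zero]; exact hT.le
    · have hd' : 0 < (f.natDegree : ℝ) := lt_of_le_of_ne (by positivity) (Ne.symm hd)
      calc (Multiset.card F.roots : ℝ) * (T / f.natDegree) ≤ f.natDegree * (T / f.natDegree) :=
            mul_le_mul_of_nonneg_right h9 (by positivity)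
        _ = T := by field_simp
  linarith

end Pool.Agent.H39v
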