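import Pool.Agent.H39v.Place

set_option autoImplicit false

/-!
Choice of the direction, and the product over the places.
-/

namespace Pool.Agent.H39v

open Finset

lemma choose_dir (N K0 : ℕ) (hK0 : 0 < K0) (P : Finset ℕ) (Bp : ℕ → Finset (Fin K0))
    (Bi : Finset (Fin K0)) (hBp : ∀ p ∈ P, #(Bp p) ≤ N) (hBi : #Bi ≤ N) (t : ℕ → ℝ)
    (ht : ∀ p ∈ P, 0 ≤ t p) (ti : ℝ) (hti : 0 ≤ ti) :
    ∃ s : Fin K0, (1 - (N : ℝ) / K0) * (∑ p ∈ P, t p + ti) ≤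
      ∑ p ∈ P.filter (fun p => s ∉ Bp p), t p + (if s ∈ Bi then 0 else ti) := by
  classical
  obtain ⟨s, hs⟩ := dir_avg (insertNone P) N K0 hK0 (fun o => Option.elim o Bi Bp) (by
    intro o ho
    rcases o with _ | p
    · exact hBi
    · exact hBp p (some_mem_insertNone.1 ho)) (fun o => Option.elim o ti t) (by
    intro o ho
    rcases o with _ | p
    · exact hti
    · exact ht p (some_mem_insertNone.1 ho))
  refine ⟨s, ?_⟩
  rw [sum_filter, sum_insertNone, sum_insertNone] at hs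
  replace hs : ((if s ∈ Bi then ti else 0) + ∑ x ∈ P, if s ∈ Bp x then t x else 0) ≤
      (N : ℝ) / K0 * (ti + ∑ x ∈ P, t x) := hs
  have h1 : ∑ p ∈ P, t p = ∑ p ∈ P.filter (fun p => s ∉ Bp p), t p +
      ∑ p ∈ P, (if s ∈ Bp p then t p else 0) := by
    rw [sum_filter, ← sum_add_distrib]
    refine sum_congr rfl fun p _ => ?_
    by_cases h : s ∈ Bp p
    · simp [h]
    · simp [h]
  have h2 : (1 - (N : ℝ) / K0) * (∑ p ∈ P, t p + ti) = ∑ p ∈ P, t p + ti -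
      (N : ℝ) / K0 * (ti + ∑ p ∈ P, t p) := by ring
  rw [h2]
  by_cases h3 : s ∈ Bi
  · rw [if_pos h3] at hs ⊢
    linarith
  · rw [if_neg h3] at hs ⊢
    linarith

lemma prod_bound (n : ℕ) (P : Finset ℕ) (hP : ∀ p ∈ P, 1 ≤ p) (D : ℝ) (hD : 1 ≤ D) (k : ℕ → ℕ) (t : ℕ → ℝ)
    (T : Finset ℕ) (hTP : T ⊆ P)
    (hT : ∀ p ∈ T, Real.exp (t p / ((n : ℝ) + 1)) ≤ D * (p : ℝ) ^ (k p)) :
    Real.exp ((∑ p ∈ T, t p) / ((n : ℝ) + 1)) ≤ D ^ #P * ∏ p ∈ P, (p : ℝ) ^ (k p) := by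
  rw [sum_div, Real.exp_sum]
  calc ∏ p ∈ T, Real.exp (t p / ((n : ℝ) + 1)) ≤ ∏ p ∈ T, (D * (p : ℝ) ^ (k p)) :=
        prod_le_prod (fun p _ => (Real.exp_pos _).le) hT
    _ = D ^ #T * ∏ p ∈ T, (p : ℝ) ^ (k p) := by rw [prod_mul_distrib, prod_const]
    _ ≤ D ^ #P * ∏ p ∈ P, (p : ℝ) ^ (k p) := by
        apply mul_le_mul
        · exact pow_le_pow_right₀ hD (card_le_card hTP)
        · apply prod_le_prod_of_subset_of_one_le hTP
          · intro p hp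
            positivity
          · intro p hp _
            exact one_le_pow₀ (by exact_mod_cast hP p hp)
        · exact prod_nonneg fun p _ => by positivity
        · positivity

/-- an exponent `l` with `Y ≤ 2 ^ l ≤ 2 Y` -/
lemma exists_l (Y : ℝ) (hY : 1 ≤ Y) (L : ℕ) (hL : Y ≤ 2 ^ L) :
    ∃ l ≤ L + 1, Y ≤ 2 ^ l ∧ (2 : ℝ) ^ l ≤ 2 * Y := by
  obtain ⟨n, h1, h2⟩ := exists_nat_pow_near hY (one_lt_two (α := ℝ))
  refine ⟨n + 1, ?_, h2.le, ?_⟩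
  · have h3 : (2 : ℝ) ^ n ≤ 2 ^ L := h1.trans hL
    have h4 : n ≤ L := (pow_le_pow_iff_right₀ (one_lt_two (α := ℝ))).1 h3
    omega
  · rw [pow_succ]; linarith

end Pool.Agent.H39v
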