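import Pool.Agent.H39v.Loc2

set_option autoImplicit false

/-!
The sharp bound at almost all primes, and integral versions of the local statements.
-/

namespace Pool.Agent.H39v

open MvPolynomial

variable {N M g q w : ℕ}

lemma padic_det_le (n p : ℕ) [hp : Fact p.Prime] (A : Matrix (Fin n) (Fin n) ℚ) (T : ℚ)
    (hT : 0 ≤ T) (h : ∀ l i, padicNorm p (A l i) ≤ T) : padicNorm p A.det ≤ T ^ n := by
  classical
  rw [Matrix.det_apply]
  refine padicNorm.sum_le' (fun σ _ => ?_) (pow_nonneg hT _)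
  have h2 : padicNorm p (Equiv.Perm.sign σ • ∏ i, A (σ i) i) = padicNorm p (∏ i, A (σ i) i) := by
    rcases Int.units_eq_one_or (Equiv.Perm.sign σ) with h | h
    · rw [h, one_smul]
    · rw [h, Units.neg_smul, one_smul, padicNorm.neg]
  rw [h2]
  have h3 : ∀ s : Finset (Fin n), padicNorm p (∏ i ∈ s, A (σ i) i) ≤ T ^ s.card := by
    intro s
    induction s using Finset.induction_on with
    | empty => simp
    | insert i s hi ih =>
      rw [Finset.prod_insert hi, padicNorm.mul, Finset.card_insert_of_notMem hi, pow_succ, mul_comm]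
      exact mul_le_mul ih (h _ _) (padicNorm.nonneg _) (pow_nonneg hT _)
  have h4 := h3 Finset.univ
  rwa [Finset.card_univ, Fintype.card_fin] at h4

theorem sharp_bound {Ψ : Fin (M + 1) → MvPolynomial (Fin (N + 1)) ℤ}
    {G : Fin g → MvPolynomial (Fin (N + 1) ⊕ Fin (M + 1)) ℤ}
    {F : Fin q → Fin w → MvPolynomial (Fin (N + 1) ⊕ Fin (M + 1)) ℤ} (h : Smth G F)
    (aG bG : Fin g → ℕ) (hG : ∀ k, IsBihom (G k) (aG k) (bG k))
    (hGΨ : ∀ k, aeval (Sum.elim X Ψ) (G k) = 0) :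
    ∃ c1 : ℤ, c1 ≠ 0 ∧ ∀ (p : ℕ) [Fact p.Prime], ¬ (p : ℤ) ∣ c1 →
      ∀ (x : Fin (N + 1) → ℚ) (y : Fin (M + 1) → ℚ) (a : Fin (N + 1)) (b : Fin (M + 1)),
        (∀ i, padicNorm p (x i) ≤ 1) → (∀ j, padicNorm p (y j) ≤ 1) → x a = 1 →
        aeval x (Ψ b) ≠ 0 → (∀ j, aeval x (Ψ j) = aeval x (Ψ b) * y j) →
        ∃ K, padicNorm p (aeval x (Ψ b)) ^ (N + 1) ≤
          padicNorm p (cm G b K (Sum.elim x y)).det := by
  classical
  obtain ⟨c1, hc1, hsh⟩ := geo_sharp (smth_empty h) aG bG hG (fun i _ => i.elim0)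
    (fun i _ => i.elim0) (fun i _ => i.elim0)
  refine ⟨c1, hc1, ?_⟩
  intro p hp hpc x y a b hx hy1 hxa hb hy
  have hyb : y b = 1 := by
    have := hy b
    have h2 : aeval x (Ψ b) * (y b - 1) = 0 := by linear_combination this.symm
    rcases mul_eq_zero.1 h2 with h3 | h3
    · exact absurd h3 hb
    · linarith
  have hGz : ∀ k, aeval (Sum.elim x y) (G k) = 0 := by
    intro k
    have h1 := comp_eq Ψ b x y hy (hG k)
    rw [hGΨ, map_zero] at h1
    exact (mul_eq_zero.1 h1.symm).resolve_left (pow_ne_zero _ hb)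
  obtain ⟨K, e, hdet⟩ := hsh p hpc (Sum.elim x y) a b (by
    intro s
    rcases s with s | s
    · exact hx s
    · exact hy1 s) hxa hyb hGz
  refine ⟨K, ?_⟩
  rw [det_split Ψ G aG bG hG hGΨ _ b x y hb hy K e, padicNorm.mul] at hdet
  set L := aeval x (Ψ b) with hL
  have hL0 : 0 < padicNorm p L := lt_of_le_of_ne (padicNorm.nonneg _) (Ne.symm (padicNorm.nonzero hb))
  have hL1 : padicNorm p L ≤ 1 := padic_aeval_le p _ x hx
  have hinv : 1 ≤ (padicNorm p L)⁻¹ := (one_le_inv₀ hL0).2 hL1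
  have hent : ∀ l i, padicNorm p (tha Ψ (fun (i : Fin 0) (_ : Fin 1) =>
      (i.elim0 : MvPolynomial (Fin (N + 1) ⊕ Fin (M + 1)) ℤ)) b x y e l i) ≤ (padicNorm p L)⁻¹ := by
    intro l i
    unfold tha
    rw [Matrix.of_apply]
    rcases e l with ij | c | s
    · exact ij.1.elim0
    · simp only [Sum.elim_inr, Sum.elim_inl, psi, Matrix.of_apply]
      rw [padicNorm.div, div_eq_mul_inv]
      have h1 : padicNorm p (aeval x (pderiv i (Ψ (b.succAbove c))) -
          y (b.succAbove c) * aeval x (pderiv i (Ψ b))) ≤ 1 := by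
        rw [sub_eq_add_neg]
        refine padicNorm.nonarchimedean.trans (max_le (padic_aeval_le p _ x hx) ?_)
        rw [padicNorm.neg, padicNorm.mul]
        exact mul_le_one₀ (hy1 _) (padicNorm.nonneg _) (padic_aeval_le p _ x hx)
      calc _ ≤ 1 * (padicNorm p L)⁻¹ := mul_le_mul_of_nonneg_right h1 (by positivity)
        _ = _ := one_mul _
    · simp only [Sum.elim_inr]
      split_ifs
      · simpa using hinv
      · rw [padicNorm.zero]; positivity
  have h1 := padic_det_le (N + 1) p _ _ (by positivity) hent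
  have h2 : 1 ≤ padicNorm p (cm G b K (Sum.elim x y)).det * ((padicNorm p L)⁻¹) ^ (N + 1) :=
    hdet.trans (mul_le_mul_of_nonneg_left h1 (padicNorm.nonneg _))
  rw [inv_pow, ← div_eq_mul_inv, one_le_div (pow_pos hL0 _)] at h2
  exact h2

/-- the minor of the fibre Jacobian with the equations `K` and without the column `b` -/
noncomputable def minor (G : Fin g → MvPolynomial (Fin (N + 1) ⊕ Fin (M + 1)) ℤ)
    (K : Fin M → Fin g) (b : Fin (M + 1)) (x : Fin (N + 1) → ℤ) (y : Fin (M + 1) → ℤ) : ℤ :=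
  (Matrix.of fun (m c : Fin M) => eval (Sum.elim x y) (pderiv (Sum.inr (b.succAbove c)) (G (K m)))).det

lemma aeval_int {σ : Type*} (P : MvPolynomial σ ℤ) (x : σ → ℤ) :
    aeval (fun i => (x i : ℚ)) P = ((eval x P : ℤ) : ℚ) := by
  have h1 : (fun i => (x i : ℚ)) = (algebraMap ℤ ℚ) ∘ x := by
    funext i
    simp
  rw [h1, aeval_algebraMap_apply]
  rfl

lemma sum_elim_cast {n m : ℕ} (x : Fin n → ℤ) (y : Fin m → ℤ) :
    (Sum.elim (fun i => (x i : ℚ)) (fun j => (y j : ℚ)) : Fin n ⊕ Fin m → ℚ) =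
      fun s => ((Sum.elim x y s : ℤ) : ℚ) := by
  funext s
  rcases s with s | s <;> rfl

/-- scaling of the relative Jacobian -/
lemma cm_scale (G : Fin g → MvPolynomial (Fin (N + 1) ⊕ Fin (M + 1)) ℤ)
    (aG bG : Fin g → ℕ) (hG : ∀ k, IsBihom (G k) (aG k) (bG k)) (b : Fin (M + 1))
    (K : Fin M → Fin g) (x : Fin (N + 1) → ℤ) (y : Fin (M + 1) → ℤ) (l k : ℚ) :
    (cm G b K (Sum.elim (fun i => l * (x i : ℚ)) (fun j => k * (y j : ℚ)))).det =
      l ^ (∑ m, aG (K m)) * k ^ (∑ m, (bG (K m) - 1)) * (minor G K b x y : ℚ) := by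
  classical
  have h1 : cm G b K (Sum.elim (fun i => l * (x i : ℚ)) (fun j => k * (y j : ℚ))) =
      Matrix.of fun m c => (l ^ aG (K m) * k ^ (bG (K m) - 1)) *
        ((Matrix.of fun (m c : Fin M) => (eval (Sum.elim x y)
          (pderiv (Sum.inr (b.succAbove c)) (G (K m))) : ℤ)).map (Int.cast : ℤ → ℚ)) m c := by
    ext m c
    simp only [cm, Matrix.of_apply, Matrix.map_apply]
    rw [((hG (K m)).pd_inr (b.succAbove c)).eval_smul, sum_elim_cast, aeval_int]
  rw [h1, Matrix.det_mul_column, Finset.prod_mul_distrib, Finset.prod_pow_eq_pow_sum,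
    Finset.prod_pow_eq_pow_sum]
  congr 1
  unfold minor
  have h2 := (Int.castRingHom ℚ).map_det (Matrix.of fun (m c : Fin M) =>
    eval (Sum.elim x y) (pderiv (Sum.inr (b.succAbove c)) (G (K m))))
  simp only [eq_intCast] at h2
  rw [h2]
  rfl

lemma hom_scale {n : ℕ} {f : MvPolynomial (Fin n) ℤ} {D : ℕ} (hf : f.IsHomogeneous D)
    (x : Fin n → ℤ) (l : ℚ) :
    aeval (fun i => l * (x i : ℚ)) f = l ^ D * ((eval x f : ℤ) : ℚ) := by
  rw [aeval_def, eval₂_eq', eval_eq']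
  push_cast
  rw [Finset.mul_sum]
  refine Finset.sum_congr rfl fun d hd => ?_
  have h1 : ∑ i, d i = D := by
    have := hf (mem_support_iff.1 hd)
    rw [← this, Finsupp.weight_apply, Finsupp.sum_fintype _ _ (by simp)]
    simp
  simp only [mul_pow, Finset.prod_mul_distrib]
  rw [Finset.prod_pow_eq_pow_sum, h1]
  simp only [algebraMap_int_eq, eq_intCast]
  ring

/-- derivative in an integral direction at an integral point -/
noncomputable def dwi {n : ℕ} (u x : Fin n → ℤ) (f : MvPolynomial (Fin n) ℤ) : ℤ :=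
  ∑ i, u i * eval x (pderiv i f)

lemma dw_scale {n : ℕ} {f : MvPolynomial (Fin n) ℤ} {D : ℕ} (hf : f.IsHomogeneous D)
    (u x : Fin n → ℤ) (l : ℚ) (hl : l ≠ 0) :
    dw (fun i => (u i : ℚ)) (fun i => l * (x i : ℚ)) f = l ^ D * (l⁻¹ * (dwi u x f : ℚ)) := by
  unfold dw dwi
  push_cast
  rw [Finset.mul_sum, Finset.mul_sum]
  refine Finset.sum_congr rfl fun i _ => ?_
  rw [hom_scale (hf.pderiv) x l]
  rcases D with _ | D
  · have h2 : pderiv i f = 0 := by
      rw [← totalDegree_zero_iff_isHomogeneous, totalDegree_eq_zero_iff_eq_C] at hf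
      rw [hf, pderiv_C]
    rw [h2]; simp
  · rw [Nat.add_sub_cancel, pow_succ]
    field_simp

lemma fam_hom {Ψ : Fin (M + 1) → MvPolynomial (Fin (N + 1)) ℤ} {e : ℕ}
    (hΨ : ∀ j, (Ψ j).IsHomogeneous e)
    {F : Fin q → Fin w → MvPolynomial (Fin (N + 1) ⊕ Fin (M + 1)) ℤ}
    {aF bF : Fin q → Fin w → ℕ} (hF : ∀ i j, IsBihom (F i j) (aF i j) (bF i j))
    (φ : Fin (M + 1) ⊕ (Fin q × Fin w)) : ∃ D, (fam Ψ F φ).IsHomogeneous D := by
  rcases φ with j | ij
  · exact ⟨e, hΨ j⟩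
  · refine ⟨aF ij.1 ij.2 + e * bF ij.1 ij.2, ?_⟩
    simp only [fam, Sum.elim_inr]
    rw [aeval_def, eval₂_eq']
    refine IsHomogeneous.sum _ _ _ fun d hd => ?_
    obtain ⟨h1, h2⟩ := (hF ij.1 ij.2).deg (mem_support_iff.1 hd)
    rw [← zero_add (aF ij.1 ij.2 + e * bF ij.1 ij.2)]
    refine IsHomogeneous.mul ?_ ?_
    · rw [algebraMap_eq]
      exact isHomogeneous_C _ _
    · rw [Fintype.prod_sum_type]
      refine IsHomogeneous.mul ?_ ?_
      · rw [← h1]
        refine IsHomogeneous.prod _ _ _ fun i _ => ?_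
        have := (isHomogeneous_X ℤ i).pow (d (Sum.inl i))
        simpa using this
      · rw [← h2, Finset.mul_sum]
        refine IsHomogeneous.prod _ _ _ fun j _ => ?_
        exact (hΨ j).pow _

end Pool.Agent.H39v
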